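import Pool.Agent.H684R3.USS.Stmts

set_option autoImplicit false

/-!
# Task F of the USS project: `NSeq` and `S` are computable
-/

namespace Pool.Agent.H784R3.USSF

open Finset Pool.Agent.H692R2.USS Pool.Agent.H684R3.USS
open Pool.Agent.Helper446.RE (cp_eq cp_le cp_lt cp_comp computable_of_graph)

theorem cfact {α : Type} [Primcodable α] {f : α → ℕ} (hf : Computable f) :
    Computable (fun x => (f x).factorial) := by
  have h := cprod (α := α) (g := fun _ j => j + 1) (f := f)
    (Computable.succ.comp Computable.snd) hf
  exact h.of_eq fun a => Finset.prod_range_add_one_eq_factorial (f a)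

/-- membership in the set of candidates -/
def A (k i : ℕ) : Prop := (k + 1) * (open scoped Classical in
  ((Finset.range i.factorial).filter (fun n => ¬ Good i k n)).card) ≤ i.factorial

theorem A_computable : ComputablePred (fun x : ℕ × ℕ => A x.1 x.2) := by
  classical
  unfold A
  refine cp_le ?_ (cfact Computable.snd)
  have h1 : Computable (fun x : ℕ × ℕ =>
      ((range x.2.factorial).filter (fun n => ¬ Good x.2 x.1 n)).card) := by
    refine ccount (p := fun (x : ℕ × ℕ) n => ¬ Good x.2 x.1 n) ?_ (cfact Computable.snd)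
    refine ComputablePred.not ?_
    exact cp_comp good_computable (f := fun y : (ℕ × ℕ) × ℕ => (y.1.2, y.1.1, y.2))
      ((Computable.snd.comp Computable.fst).pair
        ((Computable.fst.comp Computable.fst).pair Computable.snd))
  refine (Primrec.nat_mul.to_comp.comp (Computable.succ.comp Computable.fst) h1).of_eq ?_
  intro x
  simp only [Nat.succ_eq_add_one]

theorem A_nonempty (hG : GoodDensity) (k : ℕ) : ∃ i, A k i := by
  classical
  obtain ⟨i0, hi0⟩ := hG k (1 / ((k : ℝ) + 1)) (by positivity)
  refine ⟨i0, ?_⟩
  have h := hi0 i0 le_rfl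
  unfold A
  have hk : (0 : ℝ) < (k : ℝ) + 1 := by positivity
  have h2 : ((k : ℝ) + 1) *
      (((Finset.range i0.factorial).filter (fun n => ¬ Good i0 k n)).card : ℝ) ≤
      (i0.factorial : ℝ) := by
    calc ((k : ℝ) + 1) *
      (((Finset.range i0.factorial).filter (fun n => ¬ Good i0 k n)).card : ℝ) ≤
        ((k : ℝ) + 1) * (1 / ((k : ℝ) + 1) * i0.factorial) :=
          mul_le_mul_of_nonneg_left (by convert h) hk.le
      _ = (i0.factorial : ℝ) := by field_simp
  have h3 : (((k + 1) * ((Finset.range i0.factorial).filter (fun n => ¬ Good i0 k n)).card : ℕ) : ℝ)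
      ≤ ((i0.factorial : ℕ) : ℝ) := by
    push_cast
    exact h2
  have h4 := Nat.cast_le.1 h3
  convert h4

theorem iSeq_computable (hG : GoodDensity) : Computable iSeq := by
  refine computable_of_graph ?_
  refine ComputablePred.to_re ?_
  refine ComputablePred.of_eq (p := fun x : ℕ × ℕ => A x.1 x.2 ∧ ∀ j < x.2, ¬ A x.1 j) ?_ ?_
  · refine cp_and A_computable ?_
    refine cp_all (p := fun (x : ℕ × ℕ) j => ¬ A x.1 j) ?_ Computable.snd
    refine ComputablePred.not ?_
    exact cp_comp A_computable (f := fun y : (ℕ × ℕ) × ℕ => (y.1.1, y.2))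
      ((Computable.fst.comp Computable.fst).pair Computable.snd)
  · rintro ⟨k, i⟩
    simp only
    have hdef : iSeq k = sInf {i | A k i} := by
      unfold iSeq A
      rfl
    have hne : {i | A k i}.Nonempty := A_nonempty hG k
    rw [hdef]
    constructor
    · rintro ⟨h1, h2⟩
      apply le_antisymm
      · exact Nat.sInf_le h1
      · by_contra hcon
        push Not at hcon
        exact h2 _ hcon (Nat.sInf_mem hne)
    · rintro rfl
      refine ⟨Nat.sInf_mem hne, fun j hj hA => ?_⟩
      have hle : sInf {i | A k i} ≤ j := Nat.sInf_le (show j ∈ {i | A k i} from hA)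
      omega

theorem NSeq_computable (hG : GoodDensity) : Computable NSeq := by
  have hi := iSeq_computable hG
  have h := Computable.nat_rec (f := fun a : ℕ => a) (g := fun _ : ℕ => (0 : ℕ))
    (h := fun (_ : ℕ) (y : ℕ × ℕ) => (y.1 + 1) * (y.2 + (iSeq y.1).factorial +
      (iSeq (y.1 + 1)).factorial + 1)) Computable.id (Computable.const 0) (by
        have e1 : Computable (fun x : ℕ × (ℕ × ℕ) => x.2.1) :=
          Computable.fst.comp Computable.snd
        have e2 : Computable (fun x : ℕ × (ℕ × ℕ) => x.2.2) :=
          Computable.snd.comp Computable.snd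
        have e3 : Computable (fun x : ℕ × (ℕ × ℕ) => (iSeq x.2.1).factorial) :=
          cfact (hi.comp e1)
        have e4 : Computable (fun x : ℕ × (ℕ × ℕ) => (iSeq (x.2.1 + 1)).factorial) :=
          cfact (hi.comp (Computable.succ.comp e1))
        exact Primrec.nat_mul.to_comp.comp (Computable.succ.comp e1)
          (Computable.succ.comp (Primrec.nat_add.to_comp.comp
            (Primrec.nat_add.to_comp.comp e2 e3) e4)))
  refine h.of_eq fun n => ?_
  induction n with
  | zero => rfl
  | succ n ih =>
    rw [NSeq, ← ih]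

theorem lev_computable (hG : GoodDensity) : Computable lev := by
  classical
  have hN := NSeq_computable hG
  refine computable_of_graph ?_
  refine ComputablePred.to_re ?_
  refine ComputablePred.of_eq (p := fun x : ℕ × ℕ => x.2 ≤ x.1 ∧ (x.2 = 0 ∨ NSeq x.2 ≤ x.1) ∧
    ∀ j < x.1 + 1, j ≤ x.2 ∨ ¬ (NSeq j ≤ x.1)) ?_ ?_
  · refine cp_and (cp_le Computable.snd Computable.fst) (cp_and (cp_or
      (cp_eq Computable.snd (Computable.const 0))
      (cp_le (hN.comp Computable.snd) Computable.fst)) ?_)
    refine cp_all (p := fun (x : ℕ × ℕ) j => j ≤ x.2 ∨ ¬ (NSeq j ≤ x.1)) ?_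
      (Computable.succ.comp Computable.fst)
    refine cp_or (cp_le Computable.snd (Computable.snd.comp Computable.fst)) ?_
    exact ComputablePred.not (cp_le (hN.comp Computable.snd)
      (Computable.fst.comp Computable.fst))
  · rintro ⟨n, m⟩
    simp only
    unfold lev
    rw [Nat.findGreatest_eq_iff]
    constructor
    · rintro ⟨h1, h2, h3⟩
      refine ⟨h1, ?_, ?_⟩
      · intro hm
        rcases h2 with h2 | h2
        · exact absurd h2 hm
        · exact h2
      · intro j hj hjn
        rcases h3 j (by omega) with h4 | h4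
        · omega
        · exact h4
    · rintro ⟨h1, h2, h3⟩
      refine ⟨h1, ?_, ?_⟩
      · by_cases hm : m = 0
        · exact Or.inl hm
        · exact Or.inr (h2 hm)
      · intro j hj
        by_cases hjm : j ≤ m
        · exact Or.inl hjm
        · exact Or.inr (h3 (by omega) (by omega))

theorem taskF : TaskF := by
  intro hG
  refine ⟨NSeq_computable hG, ?_⟩
  have hl := lev_computable hG
  have hi := iSeq_computable hG
  exact cp_comp good_computable (f := fun n : ℕ => (iSeq (lev n), lev n, n))
    ((hi.comp hl).pair (hl.pair Computable.id))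

end Pool.Agent.H784R3.USSF
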