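import Mathlib

set_option autoImplicit false

open scoped BigOperators Topology
open Filter

namespace Pool.Agent.H784R3.BR

variable {X : Type} [NormedAddCommGroup X] [NormedSpace ℝ X]

/-- graph elements -/
abbrev P (X : Type) [NormedAddCommGroup X] [NormedSpace ℝ X] : Type := X × (X →L[ℝ] ℝ)

/-- shifted sums -/
def YY (y : ℕ → X) : ℕ → X
  | 0 => y 0
  | (k + 1) => y (k + 1) + y k

/-- A set of pairs is monotone -/
def Mon (A : Set (P X)) : Prop := ∀ p ∈ A, ∀ q ∈ A, 0 ≤ (p.2 - q.2) (p.1 - q.1)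

/-- the constraint set -/
def VV (E : Submodule ℝ X) (y : ℕ → X) (ys : ℕ → X →L[ℝ] ℝ) : Set (P X) :=
  {p | p.1 ∈ E ∧ ∀ k, ys k p.1 = p.2 (YY y k)}

lemma dual_expand (F G : X →L[ℝ] ℝ) (d a : X) (t : ℝ) :
    (F + t • G) (d + t • a) = F d + t * (F a + G d) + t ^ 2 * G a := by
  have h1 : (F + t • G) (d + t • a) = F (d + t • a) + t * G (d + t • a) := rfl
  rw [h1, map_add, map_add, map_smul, map_smul]
  simp only [smul_eq_mul]
  ring

lemma lin_zero {a b : ℝ} (h : ∀ t : ℝ, 0 ≤ a + t * b) : b = 0 := by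
  by_contra hb
  have h1 := h (-(a + 1) / b)
  rw [div_mul_cancel₀ _ hb] at h1
  linarith

/-- main construction -/
theorem exists_max (E : Submodule ℝ X) (hE : IsClosed (E : Set X)) (y : ℕ → X)
    (ys : ℕ → X →L[ℝ] ℝ) (hyE : ∀ k, y k ∈ E)
    (hcross : ∀ j k, ys j (YY y k) + ys k (YY y j) = 2) :
    ∃ A : Set (P X), (0 : P X) ∈ A ∧ A ⊆ VV E y ys ∧ Mon A ∧
      ∀ z : P X, (∀ p ∈ A, 0 ≤ (z.2 - p.2) (z.1 - p.1)) → z ∈ A := by
  have hYE : ∀ k, YY y k ∈ E := by
    intro k
    cases k with
    | zero => exact hyE 0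
    | succ k => exact E.add_mem (hyE _) (hyE _)
  have hself : ∀ k, ys k (YY y k) = 1 := by
    intro k
    have := hcross k k
    linarith
  -- Zorn
  obtain ⟨A, hA0, hAmax⟩ := zorn_subset_nonempty {M : Set (P X) | M ⊆ VV E y ys ∧ Mon M}
    (by
      intro c hc hchain hne
      refine ⟨⋃₀ c, ⟨?_, ?_⟩, fun s hs => Set.subset_sUnion_of_mem hs⟩
      · exact Set.sUnion_subset fun s hs => (hc hs).1
      · rintro p ⟨s, hs, hps⟩ q ⟨t, ht, hqt⟩
        rcases hchain.total hs ht with h | h
        · exact (hc ht).2 p (h hps) q hqt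
        · exact (hc hs).2 p hps q (h hqt))
    {0} ⟨by
      intro p hp
      rw [Set.mem_singleton_iff] at hp
      subst hp
      refine ⟨E.zero_mem, fun k => ?_⟩
      simp, by
      intro p hp q hq
      rw [Set.mem_singleton_iff] at hp hq
      subst hp hq
      simp⟩
  have hAV : A ⊆ VV E y ys := hAmax.prop.1
  have hAM : Mon A := hAmax.prop.2
  have hmem0 : (0 : P X) ∈ A := hA0 rfl
  -- maximality inside V
  have hmaxV : ∀ z : P X, z ∈ VV E y ys → (∀ p ∈ A, 0 ≤ (z.2 - p.2) (z.1 - p.1)) → z ∈ A := by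
    intro z hzV hz
    have hsub : A ⊆ insert z A := Set.subset_insert _ _
    have hin : insert z A ∈ {M : Set (P X) | M ⊆ VV E y ys ∧ Mon M} := by
      refine ⟨Set.insert_subset hzV hAV, ?_⟩
      intro p hp q hq
      rcases Set.mem_insert_iff.1 hp with rfl | hp'
      · rcases Set.mem_insert_iff.1 hq with rfl | hq'
        · simp
        · exact hz q hq'
      · rcases Set.mem_insert_iff.1 hq with rfl | hq'
        · have := hz p hp'
          have e1 : (p.2 - q.2) (p.1 - q.1) = (q.2 - p.2) (q.1 - p.1) := by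
            have e2 : p.2 - q.2 = -(q.2 - p.2) := by abel
            have e3 : p.1 - q.1 = -(q.1 - p.1) := by abel
            rw [e2, e3, map_neg]
            change -(-((q.2 - p.2) (q.1 - p.1))) = _
            ring
          rw [e1]; exact this
        · exact hAM p hp' q hq'
    exact hAmax.le_of_ge hin hsub (Set.mem_insert _ _)
  refine ⟨A, hmem0, hAV, hAM, ?_⟩
  -- full maximality
  rintro ⟨z, g⟩ hz
  simp only at hz
  -- step 1: z ∈ E
  have hzE : z ∈ E := by
    by_contra hzn
    obtain ⟨f, u, hf1, hf2⟩ := geometric_hahn_banach_closed_point E.convex hE hzn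
    have hf0 : ∀ a ∈ E, f a = 0 := by
      intro a ha
      by_contra hfa
      have h1 := hf1 (((u + 1) / f a) • a) (E.smul_mem _ ha)
      rw [map_smul, smul_eq_mul, div_mul_cancel₀ _ hfa] at h1
      linarith
    have hu : 0 < u := by
      have := hf1 0 E.zero_mem
      rwa [map_zero] at this
    have hin : ∀ t : ℝ, ((0, t • f) : P X) ∈ A := by
      intro t
      apply hmaxV
      · refine ⟨E.zero_mem, fun k => ?_⟩
        change ys k 0 = t * f (YY y k)
        rw [hf0 _ (hYE k), map_zero, mul_zero]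
      · intro p hp
        have h1 := hAM 0 hmem0 p hp
        have h2 : (0 : X) - p.1 ∈ E := E.sub_mem E.zero_mem (hAV hp).1
        change 0 ≤ t * f (0 - p.1) - p.2 (0 - p.1)
        rw [hf0 _ h2]
        have h3 : ((0 : P X).2 - p.2) ((0 : P X).1 - p.1) = 0 - p.2 (0 - p.1) := rfl
        rw [h3] at h1
        linarith
    have hlin : ∀ t : ℝ, 0 ≤ g z + t * (-(f z)) := by
      intro t
      have := hz (0, t • f) (hin t)
      have e1 : (g - t • f) (z - 0) = g (z - 0) - t * f (z - 0) := rfl
      simp only at this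
      rw [e1, sub_zero] at this
      linarith
    have := lin_zero hlin
    linarith
  -- step 2: relations
  have hrel : ∀ k, ys k z - g (YY y k) = ys 0 z - g (YY y 0) := by
    intro k
    have hin : ∀ t : ℝ, ((t • (-(YY y k - YY y 0)), t • (ys k - ys 0)) : P X) ∈ A := by
      intro t
      apply hmaxV
      · refine ⟨E.smul_mem _ (E.neg_mem (E.sub_mem (hYE _) (hYE _))), fun j => ?_⟩
        change ys j (t • (-(YY y k - YY y 0))) = t * (ys k (YY y j) - ys 0 (YY y j))
        rw [map_smul, map_neg, map_sub, smul_eq_mul]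
        have h1 := hcross j k
        have h2 := hcross j 0
        have : -(ys j (YY y k) - ys j (YY y 0)) = ys k (YY y j) - ys 0 (YY y j) := by linarith
        rw [this]
      · intro p hp
        have hpV := hAV hp
        have h1 := hAM 0 hmem0 p hp
        have e0 : ((t • (-(YY y k - YY y 0)), t • (ys k - ys 0)) : P X).2 - p.2
            = ((0 : X →L[ℝ] ℝ) - p.2) + t • (ys k - ys 0) := by
          change t • (ys k - ys 0) - p.2 = _
          abel
        have e1 : ((t • (-(YY y k - YY y 0)), t • (ys k - ys 0)) : P X).1 - p.1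
            = ((0 : X) - p.1) + t • (-(YY y k - YY y 0)) := by
          change t • (-(YY y k - YY y 0)) - p.1 = _
          abel
        rw [e0, e1, dual_expand]
        have h3 : ((0 : X →L[ℝ] ℝ) - p.2) (-(YY y k - YY y 0)) + (ys k - ys 0) (0 - p.1) = 0 := by
          have e2 : ((0 : X →L[ℝ] ℝ) - p.2) (-(YY y k - YY y 0))
              = 0 - p.2 (-(YY y k - YY y 0)) := rfl
          have e3 : (ys k - ys 0) (0 - p.1) = ys k (0 - p.1) - ys 0 (0 - p.1) := rfl
          have e4 : ∀ j, ys j (0 - p.1) = -(ys j p.1) := fun j => by rw [zero_sub, map_neg]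
          rw [e2, e3, map_neg, map_sub, e4, e4]
          have := hpV.2 k
          have := hpV.2 0
          linarith
        have h4 : (ys k - ys 0) (-(YY y k - YY y 0)) = 0 := by
          have e3 : (ys k - ys 0) (-(YY y k - YY y 0))
            = ys k (-(YY y k - YY y 0)) - ys 0 (-(YY y k - YY y 0)) := rfl
          rw [e3, map_neg, map_neg, map_sub, map_sub, hself, hself]
          have := hcross k 0
          linarith
        rw [h3, h4]
        have h5 : ((0 : P X).2 - p.2) ((0 : P X).1 - p.1)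
          = ((0 : X →L[ℝ] ℝ) - p.2) (0 - p.1) := rfl
        rw [h5] at h1
        linarith
    have hlin : ∀ t : ℝ, 0 ≤ g z + t * (-(g (-(YY y k - YY y 0)) + (ys k - ys 0) z)) := by
      intro t
      have h1 := hz _ (hin t)
      have e0 : g - t • (ys k - ys 0) = g + (-t) • (ys k - ys 0) := by
        refine ContinuousLinearMap.ext fun x => ?_
        change g x - t * (ys k - ys 0) x = g x + (-t) * (ys k - ys 0) x
        ring
      have e1 : z - t • (-(YY y k - YY y 0)) = z + (-t) • (-(YY y k - YY y 0)) := by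
        rw [neg_smul]; abel
      simp only at h1
      rw [e0, e1, dual_expand] at h1
      have h4 : (ys k - ys 0) (-(YY y k - YY y 0)) = 0 := by
        have e3 : (ys k - ys 0) (-(YY y k - YY y 0))
          = ys k (-(YY y k - YY y 0)) - ys 0 (-(YY y k - YY y 0)) := rfl
        rw [e3, map_neg, map_neg, map_sub, map_sub, hself, hself]
        have := hcross k 0
        linarith
      rw [h4] at h1
      linarith
    have h5 := lin_zero hlin
    have e3 : (ys k - ys 0) z = ys k z - ys 0 z := rfl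
    rw [e3, map_neg, map_sub] at h5
    linarith
  -- step 3: projection
  set τ : ℝ := (g (YY y 0) - ys 0 z) / 2 with hτ
  have hzV : ((z + τ • YY y 0, g + τ • (-(ys 0))) : P X) ∈ VV E y ys := by
    refine ⟨E.add_mem hzE (E.smul_mem _ (hYE 0)), fun k => ?_⟩
    change ys k (z + τ • YY y 0) = g (YY y k) + τ * (-(ys 0 (YY y k)))
    rw [map_add, map_smul, smul_eq_mul]
    have h1 := hrel k
    have h2 := hcross k 0
    have h3 : g (YY y 0) - ys 0 z = 2 * τ := by rw [hτ]; ring
    have h4 : ys k z - g (YY y k) = -(2 * τ) := by linarith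
    have h5 : τ * (ys k (YY y 0) + ys 0 (YY y k)) = τ * 2 := by rw [h2]
    linarith
  have hform : ∀ p ∈ A, (g + τ • (-(ys 0)) - p.2) (z + τ • YY y 0 - p.1)
      = (g - p.2) (z - p.1) + τ ^ 2 := by
    intro p hp
    have hpV := (hAV hp).2 0
    have e0 : g + τ • (-(ys 0)) - p.2 = (g - p.2) + τ • (-(ys 0)) := by abel
    have e1 : z + τ • YY y 0 - p.1 = (z - p.1) + τ • YY y 0 := by abel
    rw [e0, e1, dual_expand]
    have e2 : (g - p.2) (YY y 0) = g (YY y 0) - p.2 (YY y 0) := rfl
    have e3 : (-(ys 0)) (z - p.1) = -(ys 0 (z - p.1)) := rfl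
    have e4 : (-(ys 0)) (YY y 0) = -(ys 0 (YY y 0)) := rfl
    rw [e2, e3, e4, map_sub (ys 0), hself]
    have h3 : g (YY y 0) - ys 0 z = 2 * τ := by rw [hτ]; ring
    have h6 : g (YY y 0) - p.2 (YY y 0) + -(ys 0 z - ys 0 p.1) = 2 * τ := by linarith
    rw [h6]; ring
  have hpA : ((z + τ • YY y 0, g + τ • (-(ys 0))) : P X) ∈ A := by
    apply hmaxV _ hzV
    intro p hp
    have h1 := hform p hp
    have h2 := hz p hp
    have h3 : 0 ≤ τ ^ 2 := sq_nonneg _
    change 0 ≤ (g + τ • (-(ys 0)) - p.2) (z + τ • YY y 0 - p.1)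
    rw [h1]
    linarith
  have hτ0 : τ = 0 := by
    have h1 := hz _ hpA
    simp only at h1
    have e0 : g - (g + τ • (-(ys 0))) = τ • (ys 0) := by
      refine ContinuousLinearMap.ext fun x => ?_
      change g x - (g x + τ * (-(ys 0 x))) = τ * (ys 0 x)
      ring
    have e1 : z - (z + τ • YY y 0) = -(τ • YY y 0) := by abel
    rw [e0, e1] at h1
    have e2 : (τ • (ys 0)) (-(τ • YY y 0)) = -(τ ^ 2) := by
      change τ * (ys 0) (-(τ • YY y 0)) = _
      rw [map_neg, map_smul, hself, smul_eq_mul]; ring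
    rw [e2] at h1
    have h3 : 0 ≤ τ ^ 2 := sq_nonneg _
    exact pow_eq_zero_iff (two_ne_zero) |>.1 (by linarith)
  rw [hτ0] at hpA
  simpa using hpA

end Pool.Agent.H784R3.BR
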