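import Mathlib

set_option autoImplicit false

open scoped BigOperators Topology
open Filter

namespace Pool.Agent.H784R3.BR

lemma finite_refl {V : Type} [NormedAddCommGroup V] [NormedSpace ℝ V] [FiniteDimensional ℝ V]
    (a : (V →L[ℝ] ℝ) →ₗ[ℝ] ℝ) : ∃ h : V, ∀ u : V →L[ℝ] ℝ, a u = u h := by
  let a' : Module.Dual ℝ (Module.Dual ℝ V) :=
    { toFun := fun u => a (LinearMap.toContinuousLinearMap u)
      map_add' := fun u v => by rw [map_add, map_add]
      map_smul' := fun c u => by rw [map_smul, map_smul]; rfl }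
  refine ⟨(Module.evalEquiv ℝ V).symm a', fun u => ?_⟩
  have h3 : a' (u : V →ₗ[ℝ] ℝ) = a u := by
    change a (LinearMap.toContinuousLinearMap (u : V →ₗ[ℝ] ℝ)) = a u
    congr 1
  have h4 := Module.apply_evalEquiv_symm_apply ℝ V (u : V →ₗ[ℝ] ℝ) a'
  rw [← h3, ← h4]
  rfl

variable {X : Type} [NormedAddCommGroup X] [NormedSpace ℝ X] [CompleteSpace X]

lemma hb {E : Type} [NormedAddCommGroup E] [NormedSpace ℝ E] (p : Submodule ℝ E) (F : E →L[ℝ] ℝ)
    {c : ℝ} (hc : 0 ≤ c) (h : ∀ g ∈ p, |F g| ≤ c * ‖g‖) :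
    ∃ ψ : E →L[ℝ] ℝ, (∀ g ∈ p, ψ g = F g) ∧ ‖ψ‖ ≤ c := by
  obtain ⟨ψ, h1, h2⟩ := exists_extension_norm_eq p (F.comp p.subtypeL)
  refine ⟨ψ, fun g hg => h1 ⟨g, hg⟩, ?_⟩
  rw [h2]
  apply ContinuousLinearMap.opNorm_le_bound _ hc
  intro g
  exact h g g.2

lemma sep_gen {Z : Type} [NormedAddCommGroup Z] [NormedSpace ℝ Z] [CompleteSpace Z]
    (T : X →L[ℝ] Z) (hsurj : Function.Surjective T) {C : ℝ} (v : Z)
    (hv : ¬ ∃ x, ‖x‖ < C ∧ T x = v) : ∃ a : Z →ₗ[ℝ] ℝ, ∀ x, ‖x‖ < C → a (T x) < a v := by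
  have hopen : IsOpen (T '' Metric.ball 0 C) := (T.isOpenMap hsurj) _ Metric.isOpen_ball
  have hconv : Convex ℝ (T '' Metric.ball 0 C) :=
    (convex_ball (0 : X) C).linear_image (T : X →ₗ[ℝ] Z)
  have hn : v ∉ T '' Metric.ball 0 C := by
    rintro ⟨x, hx, hxv⟩
    exact hv ⟨x, by simpa using hx, hxv⟩
  obtain ⟨a, ha⟩ := geometric_hahn_banach_open_point hconv hopen hn
  refine ⟨(a : Z →ₗ[ℝ] ℝ), fun x hx => ha (T x) ⟨x, by simpa using hx, rfl⟩⟩

lemma helly_gen {E : Type} [NormedAddCommGroup E] [NormedSpace ℝ E]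
    (ev : X →L[ℝ] (E →L[ℝ] ℝ)) (hsep : ∀ e : E, (∀ x, ev x e = 0) → e = 0)
    (hnorm : ∀ (e : E) (c : ℝ), 0 ≤ c → (∀ x, |ev x e| ≤ c * ‖x‖) → ‖e‖ ≤ c)
    (φ : E →L[ℝ] ℝ) {C : ℝ} (hC : ‖φ‖ < C) (G : Finset E) :
    ∃ y : X, ‖y‖ ≤ C ∧ ∀ g ∈ G, ev y g = φ g := by
  have hC0 : 0 < C := lt_of_le_of_lt φ.opNorm_nonneg hC
  obtain ⟨W, hfd, hGW⟩ : ∃ W : Submodule ℝ E, FiniteDimensional ℝ W ∧ ∀ g ∈ G, g ∈ W :=
    ⟨Submodule.span ℝ (G : Set E), FiniteDimensional.span_finset ℝ G,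
      fun g hg => Submodule.subset_span hg⟩
  obtain ⟨T, hT⟩ : ∃ T : X →L[ℝ] (W →L[ℝ] ℝ), ∀ (x : X) (w : W), T x w = ev x (w : E) :=
    ⟨((ContinuousLinearMap.compL ℝ W E ℝ).flip W.subtypeL).comp ev, fun x w => rfl⟩
  have hsurj : Function.Surjective T := by
    suffices htop : LinearMap.range (T : X →ₗ[ℝ] (W →L[ℝ] ℝ)) = ⊤ from
      LinearMap.range_eq_top.1 htop
    by_contra hne
    obtain ⟨a, ha0, ha⟩ := Submodule.exists_le_ker_of_lt_top _ (lt_top_iff_ne_top.2 hne)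
    obtain ⟨h, hh⟩ := finite_refl a
    have h0 : ∀ x : X, ev x (h : E) = 0 := by
      intro x
      have h1 : T x ∈ LinearMap.ker a := ha ⟨x, rfl⟩
      rw [LinearMap.mem_ker, hh, hT] at h1
      exact h1
    have h1 : h = 0 := by
      apply Subtype.ext
      exact hsep _ h0
    apply ha0
    apply LinearMap.ext
    intro u
    rw [hh, h1, map_zero]; rfl
  obtain ⟨v, hv⟩ : ∃ v : W →L[ℝ] ℝ, ∀ w : W, v w = φ (w : E) :=
    ⟨φ.comp W.subtypeL, fun w => rfl⟩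
  have hmem : ∃ x, ‖x‖ < C ∧ T x = v := by
    by_contra hn
    obtain ⟨a, ha⟩ := sep_gen T hsurj v hn
    obtain ⟨h, hh⟩ := finite_refl a
    have h1 : ∀ x : X, ‖x‖ < C → ev x (h : E) < φ (h : E) := by
      intro x hx
      have := ha x hx
      rwa [hh, hh, hT, hv] at this
    have hsm : ∀ (s : ℝ) (x : X), ev (s • x) (h : E) = s * ev x (h : E) := by
      intro s x
      rw [map_smul]; rfl
    have h2 : 0 < φ (h : E) := by
      have := h1 0 (by simpa using hC0)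
      rw [map_zero] at this
      exact this
    have h3 : ‖(h : E)‖ ≤ φ (h : E) / C := by
      apply hnorm _ _ (by positivity)
      intro x
      rcases eq_or_lt_of_le (norm_nonneg x) with hx0 | hx0
      · have hx1 : x = 0 := norm_eq_zero.1 hx0.symm
        have hx2 : ev x (h : E) = 0 := by rw [hx1, map_zero]; rfl
        rw [hx2, abs_zero]; positivity
      · -- scale x
        have key : ∀ s : ℝ, |s| = 1 → s * ev x (h : E) ≤ φ (h : E) / C * ‖x‖ := by
          intro s hs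
          by_contra hcon2
          push Not at hcon2
          set r := (s * ev x (h : E)) with hr
          have hrpos : 0 < r := lt_of_le_of_lt (by positivity) hcon2
          have ht : φ (h : E) / r < C / ‖x‖ := by
            rw [div_lt_div_iff₀ hrpos hx0]
            have : φ (h : E) / C * ‖x‖ * C < r * C := mul_lt_mul_of_pos_right hcon2 hC0
            have e1 : φ (h : E) / C * ‖x‖ * C = φ (h : E) * ‖x‖ := by
              field_simp
            linarith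
          have hlt := h1 ((φ (h : E) / r * s) • x) (by
            rw [norm_smul, norm_mul, Real.norm_eq_abs s, hs, mul_one, Real.norm_of_nonneg (by positivity)]
            rwa [lt_div_iff₀ hx0] at ht)
          rw [hsm] at hlt
          have e2 : φ (h : E) / r * s * ev x (h : E) = φ (h : E) := by
            have : φ (h : E) / r * s * ev x (h : E) = φ (h : E) / r * r := by
              rw [hr]; ring
            rw [this, div_mul_cancel₀ _ hrpos.ne']
          linarith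
        have k1 := key 1 (by simp)
        have k2 := key (-1) (by simp)
        rw [abs_le]
        constructor <;> linarith
    have h4 : φ (h : E) ≤ ‖φ‖ * ‖(h : E)‖ :=
      (le_abs_self _).trans (φ.le_opNorm _)
    have h5 : ‖φ‖ * ‖(h : E)‖ ≤ ‖φ‖ * (φ (h : E) / C) :=
      mul_le_mul_of_nonneg_left h3 φ.opNorm_nonneg
    have h6 : ‖φ‖ * (φ (h : E) / C) < φ (h : E) := by
      rw [← mul_div_assoc, div_lt_iff₀ hC0]
      nlinarith
    linarith
  obtain ⟨y, hy1, hy2⟩ := hmem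
  refine ⟨y, hy1.le, fun g hg => ?_⟩
  have hgW : g ∈ W := hGW g hg
  have h1 := hT y ⟨g, hgW⟩
  rw [hy2, hv] at h1
  exact h1.symm

lemma helly (φ : (X →L[ℝ] ℝ) →L[ℝ] ℝ) {C : ℝ} (hC : ‖φ‖ < C) (G : Finset (X →L[ℝ] ℝ)) :
    ∃ y : X, ‖y‖ ≤ C ∧ ∀ g ∈ G, g y = φ g :=
  helly_gen (E := X →L[ℝ] ℝ) (NormedSpace.inclusionInDoubleDual ℝ X)
    (fun e he => ContinuousLinearMap.ext he)
    (fun e c hc he => e.opNorm_le_bound hc he) φ hC G

lemma dist_pos (φ : (X →L[ℝ] ℝ) →L[ℝ] ℝ) (hφ : ∀ x : X, ∃ f : X →L[ℝ] ℝ, φ f ≠ f x) :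
    ∃ δ : ℝ, 0 < δ ∧ ∀ x : X, δ ≤ ‖φ - NormedSpace.inclusionInDoubleDual ℝ X x‖ := by
  by_contra hcon
  push Not at hcon
  have h1 : ∀ n : ℕ, ∃ x : X, ‖φ - NormedSpace.inclusionInDoubleDual ℝ X x‖ < 1 / ((n : ℝ) + 1) :=
    fun n => hcon _ (by positivity)
  choose x hx using h1
  have key : ∀ (f : X →L[ℝ] ℝ) (n : ℕ), |φ f - f (x n)| ≤ 1 / ((n : ℝ) + 1) * ‖f‖ := by
    intro f n
    have h2 := (φ - NormedSpace.inclusionInDoubleDual ℝ X (x n)).le_opNorm f
    have h3 : (φ - NormedSpace.inclusionInDoubleDual ℝ X (x n)) f = φ f - f (x n) := rfl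
    rw [h3, Real.norm_eq_abs] at h2
    exact h2.trans (mul_le_mul_of_nonneg_right (hx n).le f.opNorm_nonneg)
  have hlim : Tendsto (fun n : ℕ => 1 / ((n : ℝ) + 1)) atTop (𝓝 0) :=
    tendsto_one_div_add_atTop_nhds_zero_nat
  have hdist : ∀ n m : ℕ, n ≤ m → dist (x n) (x m) ≤ 2 * (1 / ((n : ℝ) + 1)) := by
    intro n m hnm
    rw [dist_eq_norm]
    obtain ⟨f, hf1, hf2⟩ := exists_dual_vector'' ℝ (x n - x m)
    have h2 := key f n
    have h3 := key f m
    have h4 : f (x n) - f (x m) = ‖x n - x m‖ := by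
      rw [← map_sub]; exact hf2
    have h5 : (1 : ℝ) / ((m : ℝ) + 1) ≤ 1 / ((n : ℝ) + 1) := by
      apply one_div_le_one_div_of_le (by positivity)
      have : (n : ℝ) ≤ m := by exact_mod_cast hnm
      linarith
    have h6 : 1 / ((n : ℝ) + 1) * ‖f‖ ≤ 1 / ((n : ℝ) + 1) * 1 :=
      mul_le_mul_of_nonneg_left hf1 (by positivity)
    have h7 : 1 / ((m : ℝ) + 1) * ‖f‖ ≤ 1 / ((m : ℝ) + 1) * 1 :=
      mul_le_mul_of_nonneg_left hf1 (by positivity)
    rw [abs_le] at h2 h3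
    linarith [h2.1, h2.2, h3.1, h3.2]
  have hcau : CauchySeq x := by
    apply cauchySeq_of_le_tendsto_0 (fun n : ℕ => 4 * (1 / ((n : ℝ) + 1)))
    · intro n m N hn hm
      have h1 := hdist N n hn
      have h2 := hdist N m hm
      have h3 := dist_triangle_left (x n) (x m) (x N)
      linarith
    · have := hlim.const_mul 4
      rwa [mul_zero] at this
  obtain ⟨z, hz⟩ := cauchySeq_tendsto_of_complete hcau
  obtain ⟨f, hf⟩ := hφ z
  apply hf
  have h2 : Tendsto (fun n => f (x n)) atTop (𝓝 (f z)) := (f.continuous.tendsto z).comp hz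
  have h3 : Tendsto (fun n => φ f - f (x n)) atTop (𝓝 0) := by
    apply squeeze_zero_norm (fun n => key f n)
    have := hlim.mul_const ‖f‖
    rwa [zero_mul] at this
  have h4 : Tendsto (fun n => φ f - f (x n)) atTop (𝓝 (φ f - f z)) := tendsto_const_nhds.sub h2
  have h5 := tendsto_nhds_unique h3 h4
  linarith

lemma annih (φ : (X →L[ℝ] ℝ) →L[ℝ] ℝ) (hφ : ∀ x : X, ∃ f : X →L[ℝ] ℝ, φ f ≠ f x) :
    ∃ K : ℝ, 0 < K ∧ ∀ F : Finset X, ∃ g : X →L[ℝ] ℝ, (∀ x ∈ F, g x = 0) ∧ φ g = 1 ∧ ‖g‖ ≤ K := by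
  obtain ⟨δ, hδ, hdist⟩ := dist_pos φ hφ
  refine ⟨2 / δ, by positivity, fun F => ?_⟩
  by_contra hcon
  push Not at hcon
  -- the annihilator
  let S : Submodule ℝ (X →L[ℝ] ℝ) :=
    { carrier := {g | ∀ x ∈ F, g x = 0}
      add_mem' := by
        intro g h hg hh x hx
        change g x + h x = 0
        rw [hg x hx, hh x hx, add_zero]
      zero_mem' := fun x _ => rfl
      smul_mem' := by
        intro c g hg x hx
        change c * g x = 0
        rw [hg x hx, mul_zero] }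
  have hS : ∀ g, g ∈ S ↔ ∀ x ∈ F, g x = 0 := fun g => Iff.rfl
  have hb0 : ∀ g ∈ S, |φ g| ≤ δ / 2 * ‖g‖ := by
    intro g hg
    by_contra hlt
    push Not at hlt
    have hne : φ g ≠ 0 := by
      intro h0
      rw [h0, abs_zero] at hlt
      have : 0 ≤ δ / 2 * ‖g‖ := by positivity
      linarith
    have h1 := hcon ((φ g)⁻¹ • g) (fun x hx => by
      change (φ g)⁻¹ * g x = 0
      rw [(hS g).1 hg x hx, mul_zero]) (by
      rw [map_smul, smul_eq_mul, inv_mul_cancel₀ hne])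
    rw [norm_smul, norm_inv, Real.norm_eq_abs, inv_mul_eq_div, div_lt_div_iff₀ hδ (abs_pos.2 hne)] at h1
    linarith
  obtain ⟨ψ, hψ1, hψ2⟩ := hb S φ (by positivity) hb0
  -- the difference is in the canonical image
  have hspan : ((φ - ψ : (X →L[ℝ] ℝ) →L[ℝ] ℝ) : (X →L[ℝ] ℝ) →ₗ[ℝ] ℝ) ∈
      Submodule.span ℝ (Set.range (fun x : F =>
        ((NormedSpace.inclusionInDoubleDual ℝ X (x : X) : (X →L[ℝ] ℝ) →L[ℝ] ℝ) :
          (X →L[ℝ] ℝ) →ₗ[ℝ] ℝ))) := by
    apply mem_span_of_iInf_ker_le_ker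
    intro g hg
    have hgS : g ∈ S := by
      rw [hS]
      intro x hx
      have := (Submodule.mem_iInf _).1 hg ⟨x, hx⟩
      exact this
    change φ g - ψ g = 0
    rw [hψ1 g hgS, sub_self]
  obtain ⟨c, hc⟩ := (Submodule.mem_span_range_iff_exists_fun ℝ).1 hspan
  have hx : ∀ g : X →L[ℝ] ℝ, φ g - ψ g = g (∑ i : F, c i • (i : X)) := by
    intro g
    have h1 := congrArg (fun L : (X →L[ℝ] ℝ) →ₗ[ℝ] ℝ => L g) hc
    simp only [LinearMap.sum_apply, LinearMap.smul_apply] at h1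
    rw [map_sum]
    simp only [map_smul]
    exact h1.symm
  have h2 := hdist (∑ i : F, c i • (i : X))
  have h3 : φ - NormedSpace.inclusionInDoubleDual ℝ X (∑ i : F, c i • (i : X)) = ψ := by
    refine ContinuousLinearMap.ext fun g => ?_
    change φ g - g (∑ i : F, c i • (i : X)) = ψ g
    rw [← hx g]; ring
  rw [h3] at h2
  linarith

end Pool.Agent.H784R3.BR
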