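import Pool.Agent.H784R3.BR
import Pool.Agent.H784R3.James

set_option autoImplicit false

open scoped BigOperators Topology
open Filter

namespace Pool.Agent.H784R3.BR

variable {X : Type} [NormedAddCommGroup X] [NormedSpace ℝ X]

open Classical in
/-- the recursion state -/
noncomputable def st (G : Finset X → (X →L[ℝ] ℝ)) (Yc : Finset (X →L[ℝ] ℝ) → X) :
    ℕ → Finset X × Finset (X →L[ℝ] ℝ)
  | 0 => (∅, ∅)
  | (n + 1) => (insert (Yc (insert (G (st G Yc n).1) (st G Yc n).2)) (st G Yc n).1,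
      insert (G (st G Yc n).1) (st G Yc n).2)

theorem james_seq [CompleteSpace X] (φ : (X →L[ℝ] ℝ) →L[ℝ] ℝ)
    (hφ : ∀ x : X, ∃ f : X →L[ℝ] ℝ, φ f ≠ f x) :
    ∃ (C K : ℝ) (y : ℕ → X) (ys : ℕ → (X →L[ℝ] ℝ)), 0 < C ∧ 0 < K ∧ (∀ k, ‖y k‖ ≤ C) ∧
      (∀ k, ‖ys k‖ ≤ K) ∧ (∀ j k, j < k → ys k (y j) = 0) ∧ (∀ j k, k ≤ j → ys k (y j) = 1) := by
  classical
  obtain ⟨K, hK, hann⟩ := annih φ hφ
  have hhel := helly φ (lt_add_one ‖φ‖)
  choose G hG1 hG2 hG3 using hann
  choose Yc hY1 hY2 using hhel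
  let ys : ℕ → (X →L[ℝ] ℝ) := fun n => G (st G Yc n).1
  let y : ℕ → X := fun n => Yc (insert (G (st G Yc n).1) (st G Yc n).2)
  have hst : ∀ n, st G Yc (n + 1) = (insert (y n) (st G Yc n).1, insert (ys n) (st G Yc n).2) := by
    intro n
    rw [st]
  have hyin : ∀ n j, j < n → y j ∈ (st G Yc n).1 := by
    intro n
    induction n with
    | zero => intro j hj; omega
    | succ n ih =>
      intro j hj
      rw [hst]
      rcases Nat.lt_succ_iff_lt_or_eq.1 hj with h | h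
      · exact Finset.mem_insert_of_mem (ih j h)
      · rw [h]; exact Finset.mem_insert_self _ _
  have hsin : ∀ n j, j < n → ys j ∈ (st G Yc n).2 := by
    intro n
    induction n with
    | zero => intro j hj; omega
    | succ n ih =>
      intro j hj
      rw [hst]
      rcases Nat.lt_succ_iff_lt_or_eq.1 hj with h | h
      · exact Finset.mem_insert_of_mem (ih j h)
      · rw [h]; exact Finset.mem_insert_self _ _
  refine ⟨‖φ‖ + 1, K, y, ys, ?_, hK, fun k => hY1 _, fun k => hG3 _, ?_, ?_⟩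
  · have := φ.opNorm_nonneg
    linarith
  · intro j k hjk
    exact hG1 _ _ (hyin k j hjk)
  · intro j k hkj
    have h1 : ys k ∈ insert (G (st G Yc j).1) (st G Yc j).2 := by
      rcases lt_or_eq_of_le hkj with h | h
      · exact Finset.mem_insert_of_mem (hsin j k h)
      · rw [h]; exact Finset.mem_insert_self _ _
    have h2 := hY2 _ _ h1
    have h3 : φ (ys k) = 1 := hG2 _
    rw [h3] at h2
    exact h2

lemma cross_of {y : ℕ → X} {ys : ℕ → (X →L[ℝ] ℝ)} (h0 : ∀ j k, j < k → ys k (y j) = 0)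
    (h1 : ∀ j k, k ≤ j → ys k (y j) = 1) (j k : ℕ) : ys j (YY y k) + ys k (YY y j) = 2 := by
  have hlt : ∀ j k, j < k → ys j (YY y k) = 2 := by
    intro j k hjk
    obtain ⟨k', rfl⟩ : ∃ k', k = k' + 1 := ⟨k - 1, by omega⟩
    change ys j (y (k' + 1) + y k') = 2
    rw [map_add, h1 _ _ (by omega), h1 _ _ (by omega)]; norm_num
  have hgt : ∀ j k, k < j → ys j (YY y k) = 0 := by
    intro j k hjk
    cases k with
    | zero => exact h0 _ _ hjk
    | succ k =>
      change ys j (y (k + 1) + y k) = 0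
      rw [map_add, h0 _ _ (by omega), h0 _ _ (by omega)]; norm_num
  have heq : ∀ j, ys j (YY y j) = 1 := by
    intro j
    cases j with
    | zero => exact h1 _ _ le_rfl
    | succ k =>
      change ys (k + 1) (y (k + 1) + y k) = 1
      rw [map_add, h1 _ _ (by omega), h0 _ _ (by omega)]; norm_num
  rcases lt_trichotomy j k with h | h | h
  · rw [hlt j k h, hgt k j h]; norm_num
  · subst h; rw [heq]; norm_num
  · rw [hgt j k h, hlt k j h]; norm_num

lemma tendsto_on_closure {y : ℕ → X} {ys : ℕ → (X →L[ℝ] ℝ)} {K : ℝ} (hK : 0 < K)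
    (hysK : ∀ k, ‖ys k‖ ≤ K) (h0 : ∀ j k, j < k → ys k (y j) = 0) {z : X}
    (hz : z ∈ (Submodule.span ℝ (Set.range y)).topologicalClosure) :
    Tendsto (fun n => ys n z) atTop (𝓝 0) := by
  have hspan : ∀ w ∈ Submodule.span ℝ (Set.range y), Tendsto (fun n => ys n w) atTop (𝓝 0) := by
    intro w hw
    induction hw using Submodule.span_induction with
    | mem x hx =>
      obtain ⟨j, rfl⟩ := hx
      apply tendsto_nhds_of_eventually_eq
      filter_upwards [eventually_gt_atTop j] with n hn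
      exact h0 j n hn
    | zero => simp
    | add a b _ _ ha hb =>
      have := ha.add hb
      simpa using this
    | smul c a _ ha =>
      have := ha.const_mul c
      simpa using this
  rw [Metric.tendsto_nhds]
  intro ε hε
  have hz' : z ∈ closure ((Submodule.span ℝ (Set.range y) : Submodule ℝ X) : Set X) := hz
  rw [Metric.mem_closure_iff] at hz'
  obtain ⟨w, hw, hzw⟩ := hz' (ε / (2 * K)) (by positivity)
  have h1 := Metric.tendsto_nhds.1 (hspan w hw) (ε / 2) (by positivity)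
  filter_upwards [h1] with n hn
  rw [Real.dist_eq, sub_zero] at hn ⊢
  have h2 : |ys n (z - w)| ≤ K * ‖z - w‖ :=
    ((ys n).le_opNorm _).trans (mul_le_mul_of_nonneg_right (hysK n) (norm_nonneg _))
  rw [dist_eq_norm] at hzw
  have h3 : K * ‖z - w‖ < ε / 2 := by
    calc K * ‖z - w‖ < K * (ε / (2 * K)) := mul_lt_mul_of_pos_left hzw hK
      _ = ε / 2 := by field_simp
  have h4 : ys n z = ys n (z - w) + ys n w := by rw [map_sub]; ring
  rw [h4]
  exact (abs_add_le _ _).trans_lt (by linarith)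

theorem main [CompleteSpace X] (hX : ∃ φ : (X →L[ℝ] ℝ) →L[ℝ] ℝ, ∀ x : X, ∃ f : X →L[ℝ] ℝ, φ f ≠ f x) :
    ∃ A : Set (X × (X →L[ℝ] ℝ)),
        (∀ p ∈ A, ∀ q ∈ A, 0 ≤ (p.2 - q.2) (p.1 - q.1)) ∧
        (∀ z : X × (X →L[ℝ] ℝ), (∀ p ∈ A, 0 ≤ (z.2 - p.2) (z.1 - p.1)) → z ∈ A) ∧
        ∃ (x : X) (xs : X →L[ℝ] ℝ) (α β : ℝ), 0 < α ∧ 0 < β ∧
          (∃ c : ℝ, -(α * β) < c ∧ ∀ p ∈ A, c ≤ (p.2 - xs) (p.1 - x)) ∧
          ∀ p ∈ A, ¬ (‖p.1 - x‖ < α ∧ ‖p.2 - xs‖ < β) := by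
  obtain ⟨φ, hφ⟩ := hX
  obtain ⟨C, K, y, ys, hC, hK, hyC, hysK, h0, h1⟩ := james_seq φ hφ
  set E : Submodule ℝ X := (Submodule.span ℝ (Set.range y)).topologicalClosure with hE
  have hyE : ∀ k, y k ∈ E := fun k =>
    Submodule.le_topologicalClosure _ (Submodule.subset_span ⟨k, rfl⟩)
  obtain ⟨A, hA0, hAV, hAM, hAmax⟩ := exists_max E
    (Submodule.isClosed_topologicalClosure _) y ys hyE (cross_of h0 h1)
  refine ⟨A, hAM, hAmax, -(y 0), ys 0, 2 * C, 1 / C, by positivity, by positivity,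
    ⟨-1, ?_, ?_⟩, ?_⟩
  · have : 2 * C * (1 / C) = 2 := by field_simp
    rw [this]; norm_num
  · intro p hp
    have hpV := hAV hp
    have e1 : (p.2 - ys 0) (p.1 - -(y 0)) = p.2 p.1 + p.2 (y 0) - ys 0 p.1 - ys 0 (y 0) := by
      have e2 : (p.2 - ys 0) (p.1 - -(y 0)) = p.2 (p.1 - -(y 0)) - ys 0 (p.1 - -(y 0)) := rfl
      rw [e2, sub_neg_eq_add, map_add, map_add]; ring
    have e3 : ys 0 p.1 = p.2 (y 0) := hpV.2 0
    have e4 : ys 0 (y 0) = 1 := h1 0 0 le_rfl
    have e5 := hAM p hp 0 hA0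
    have e6 : (p.2 - (0 : P X).2) (p.1 - (0 : P X).1) = p.2 p.1 := by
      have : p.1 - (0 : P X).1 = p.1 := sub_zero p.1
      rw [this]
      change p.2 p.1 - 0 = _
      ring
    rw [e6] at e5
    rw [e1, e3, e4]; linarith
  · rintro p hp ⟨-, hlt⟩
    have hpV := hAV hp
    have hlim := tendsto_on_closure hK hysK h0 hpV.1
    have hbound : ∀ k : ℕ, 2 - ys (k + 1) p.1 ≤ ‖p.2 - ys 0‖ * (2 * C) := by
      intro k
      have e1 : (p.2 - ys 0) (YY y (k + 1)) = ys (k + 1) p.1 - 2 := by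
        have e2 : (p.2 - ys 0) (YY y (k + 1)) = p.2 (YY y (k + 1)) - ys 0 (YY y (k + 1)) := rfl
        have e3 : ys 0 (YY y (k + 1)) = 2 := by
          change ys 0 (y (k + 1) + y k) = 2
          rw [map_add, h1 _ _ (by omega), h1 _ _ (by omega)]; norm_num
        rw [e2, e3, hpV.2 (k + 1)]
      have e4 : ‖YY y (k + 1)‖ ≤ 2 * C := by
        change ‖y (k + 1) + y k‖ ≤ 2 * C
        refine (norm_add_le _ _).trans ?_
        have := hyC (k + 1)
        have := hyC k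
        linarith
      have e5 : -((p.2 - ys 0) (YY y (k + 1))) ≤ ‖p.2 - ys 0‖ * (2 * C) := by
        refine (neg_le_abs _).trans (((p.2 - ys 0).le_opNorm _).trans ?_)
        exact mul_le_mul_of_nonneg_left e4 (p.2 - ys 0).opNorm_nonneg
      rw [e1] at e5
      linarith
    have hlim2 : Tendsto (fun k : ℕ => 2 - ys (k + 1) p.1) atTop (𝓝 (2 - 0)) :=
      tendsto_const_nhds.sub (hlim.comp (tendsto_add_atTop_nat 1))
    have h2 := le_of_tendsto' hlim2 hbound
    have h3 : ‖p.2 - ys 0‖ * (2 * C) < 1 / C * (2 * C) :=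
      mul_lt_mul_of_pos_right hlt (by positivity)
    have h4 : 1 / C * (2 * C) = 2 := by field_simp
    linarith

end Pool.Agent.H784R3.BR
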