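import Pool.Agent.H784R3.Yzero

set_option autoImplicit false

open scoped ZeroAtInfty BigOperators Topology
open Filter

namespace Pool.Agent.H784R3

open Quad

/-- the convex domain -/
def DS (b : ℕ → ℝ) (s : ℝ) : Prop := Summable (fun n => |b n|) ∧ q b ≤ s ^ 2 ∧ 0 ≤ s

lemma DS.sq {b : ℕ → ℝ} {s : ℝ} (h : DS b s) : Summable (fun n => b n ^ 2) :=
  summable_sq_of_summable_abs h.1

/-- the operator -/
def B3 (p : X2) : Set D2 :=
  {F | InW p.1 (F1' F) ∧ (∀ n, sg (F1' F) n = p.2 n) ∧ DS p.2 p.1.2 ∧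
    ∀ (y : Y0) (s : ℝ), DS y s →
      F2' F (y - p.2) - ∑' n, p.2 n * (y n - p.2 n) + th (F1' F) * (s - p.1.2) ≤ 0}

lemma q_zero : q (fun _ => (0 : ℝ)) = 0 := by
  unfold q qt TT
  simp

lemma DS_zero {s : ℝ} (hs : 0 ≤ s) : DS (fun _ => 0) s := by
  refine ⟨?_, ?_, hs⟩
  · simp only [abs_zero]; exact summable_zero
  · rw [q_zero]; positivity

lemma coe_zeroY : ((0 : Y0) : ℕ → ℝ) = fun _ => 0 := rfl

lemma summable_prod_abs {b c : ℕ → ℝ} (hb : Summable (fun n => |b n|))
    (hc : Summable (fun n => |c n|)) : Summable (fun n => b n * c n) :=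
  summable_mul_of_sq (summable_sq_of_summable_abs hb) (summable_sq_of_summable_abs hc)

lemma B3_mono : ∀ p r : X2, ∀ F ∈ B3 p, ∀ G ∈ B3 r, 0 ≤ (F - G) (p - r) := by
  intro p r F hF G hG
  obtain ⟨f1, f2, f3, f4⟩ := hF
  obtain ⟨g1, g2, g3, g4⟩ := hG
  have h1 := f4 r.2 r.1.2 g3
  have h2 := g4 p.2 p.1.2 f3
  rw [sub_split, pairing_sub f1 g1]
  have h3 : (F2' F - F2' G) (p.2 - r.2) = -(F2' F (r.2 - p.2)) - F2' G (p.2 - r.2) := by
    have e1 : (F2' F - F2' G) (p.2 - r.2) = F2' F (p.2 - r.2) - F2' G (p.2 - r.2) := rfl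
    rw [e1, ← map_neg, neg_sub]
  rw [h3]
  have hp := f3.1
  have hr := g3.1
  have hpp := summable_prod_abs hp hp
  have hpr := summable_prod_abs hp hr
  have hrr := summable_prod_abs hr hr
  have hs1 : Summable (fun n => p.2 n * (r.2 n - p.2 n)) := by
    refine (hpr.sub hpp).congr fun n => ?_
    ring
  have hs2 : Summable (fun n => r.2 n * (p.2 n - r.2 n)) := by
    refine (hpr.sub hrr).congr fun n => ?_
    ring
  have h4 : ∑' n, (sg (F1' F) n - sg (F1' G) n) ^ 2
      = -(∑' n, p.2 n * (r.2 n - p.2 n)) - ∑' n, r.2 n * (p.2 n - r.2 n) := by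
    rw [← tsum_neg, ← hs1.neg.tsum_sub hs2]
    apply tsum_congr
    intro n
    rw [f2 n, g2 n]; ring
  rw [h4]
  nlinarith

lemma mem_B3_zero {x : X1} {f : D1} {b : Y0} (h1 : InW x f) (h2 : ∀ n, sg f n = b n)
    (h3 : DS b x.2) (h4 : th f = 0) : co f (pairL b h3.1) ∈ B3 (x, b) := by
  refine ⟨?_, ?_, h3, ?_⟩
  · rw [F1_co]; exact h1
  · rw [F1_co]; exact h2
  · intro y s _
    rw [F2_co, F1_co, h4, pairL_apply]
    change ∑' n, b n * (y - b) n - ∑' n, b n * (y n - b n) + 0 * (s - x.2) ≤ 0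
    have : ∑' n, b n * (y - b) n = ∑' n, b n * (y n - b n) := rfl
    rw [this]
    linarith

lemma zero_mem_B3 : (0 : D2) ∈ B3 0 := by
  refine ⟨?_, ?_, ?_, ?_⟩
  · have h0 : F1' (0 : D2) = 0 := rfl
    rw [h0]
    intro n k
    have : tl (0 : D1) n k = 0 := by
      have := tl_smul 0 (0 : D1) n k
      rw [zero_smul, zero_mul] at this
      exact this
    have h' : tl (0 : D1) n (k + 1) = 0 := by
      have := tl_smul 0 (0 : D1) n (k + 1)
      rw [zero_smul, zero_mul] at this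
      exact this
    rw [this, h']
    change (0 : ℝ) = _
    ring
  · intro n
    have h0 : F1' (0 : D2) = 0 := rfl
    rw [h0]
    have := sg_smul 0 (0 : D1) n
    rw [zero_smul, zero_mul] at this
    exact this
  · exact DS_zero le_rfl
  · intro y s _
    have h0 : F2' (0 : D2) (y - (0 : X2).2) = 0 := rfl
    have h1 : th (F1' (0 : D2)) = 0 := rfl
    have h2 : ∀ n, (0 : X2).2 n = 0 := fun n => rfl
    rw [h0, h1]
    simp only [h2]
    simp

lemma gen_mem_B3 (s : ℝ) (n k : ℕ) : co (s • gs n k) 0 ∈ B3 (s • ga n k, 0) := by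
  have hW := (InW_gen n k).smul s
  have h2 : (s • ga n k).2 = 0 := by
    change s * 0 = (0 : ℝ)
    ring
  refine ⟨?_, ?_, ?_, ?_⟩
  · rw [F1_co]; exact hW
  · intro m
    rw [F1_co, sg_smul, sg_gs, mul_zero]
    rfl
  · have h3 : DS (fun _ => 0) (s • ga n k).2 := by
      rw [h2]; exact DS_zero le_rfl
    exact h3
  · intro y t _
    rw [F1_co, F2_co, th_smul, th_gs]
    have h3 : ∀ m, ((s • ga n k, (0 : Y0)) : X2).2 m = 0 := fun m => rfl
    simp only [h3]
    simp

/-- related points lie in `W` -/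
lemma B3_related_W {Z : X2} {Φ : D2} (h : ∀ p : X2, ∀ F ∈ B3 p, 0 ≤ (Φ - F) (Z - p)) :
    InW Z.1 (F1' Φ) := by
  apply InW_of_gen
  intro n k
  have h1 : ∀ s : ℝ, 0 ≤ Φ Z - s * (gs n k Z.1 + F1' Φ (ga n k)) := by
    intro s
    have h2 := h _ _ (gen_mem_B3 s n k)
    rw [sub_split, F1_co, F2_co] at h2
    have e1 : (F1' Φ - s • gs n k) (Z.1 - ((s • ga n k, (0 : Y0)) : X2).1)
        = F1' Φ Z.1 - s * (gs n k Z.1 + F1' Φ (ga n k)) + s ^ 2 * gs n k (ga n k) :=
      expand _ _ _ _ _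
    have e2 : (F2' Φ - 0) (Z.2 - ((s • ga n k, (0 : Y0)) : X2).2) = F2' Φ Z.2 := by
      change F2' Φ (Z.2 - 0) - 0 = _
      rw [sub_zero, sub_zero]
    have h4 : gs n k (ga n k) = 0 := by
      rw [apply_ga]
      simp [cf, gs_apply]
    rw [e1, e2, h4] at h2
    have h5 := F_split Φ Z
    linarith
  have h5 := linear_nonneg h1
  rw [gs_apply, apply_ga] at h5
  linarith

/-- members over the apex -/
lemma apex_mem (θ : ℝ) (n : Y0 →L[ℝ] ℝ)
    (hn : ∀ (y : Y0) (s : ℝ), DS y s → n y + θ * s ≤ 0) :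
    ∃ (x : X1) (f : D1), co f n ∈ B3 (x, 0) ∧ InW x f ∧ x.2 = 0 ∧ th f = θ ∧ ∀ m, sg f m = 0 := by
  obtain ⟨x, f, h1, h2, h3, h4⟩ := exists_rep 0 θ (fun _ => 0) (by
    simp only [abs_zero]; exact summable_zero)
  refine ⟨x, f, ⟨?_, ?_, ?_, ?_⟩, h1, h2, h3, h4⟩
  · rw [F1_co]; exact h1
  · intro m
    rw [F1_co, h4]
    rfl
  · have h5 : DS (fun _ => 0) x.2 := by
      rw [h2]; exact DS_zero le_rfl
    exact h5
  · intro y t hy
    rw [F1_co, F2_co, h3]
    have h6 : ∀ m, ((x, (0 : Y0)) : X2).2 m = 0 := fun m => rfl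
    simp only [h6]
    change n (y - 0) - ∑' m, 0 * (y m - 0) + θ * (t - x.2) ≤ 0
    rw [sub_zero, h2]
    have := hn y t hy
    simpa using this

lemma B3_apex {Z : X2} {Φ : D2} (h : ∀ p : X2, ∀ F ∈ B3 p, 0 ≤ (Φ - F) (Z - p))
    (θ : ℝ) (n : Y0 →L[ℝ] ℝ)
    (hn : ∀ (y : Y0) (s : ℝ), DS y s → n y + θ * s ≤ 0) : n Z.2 + θ * Z.1.2 ≤ 0 := by
  have hW := B3_related_W h
  set C := Z.1.2 * th (F1' Φ) - ∑' m, (sg (F1' Φ) m) ^ 2 + F2' Φ Z.2 with hC
  have key : ∀ t : ℝ, 0 < t → t * (n Z.2 + θ * Z.1.2) ≤ C := by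
    intro t ht
    obtain ⟨x, f, hf, h1, h2, h3, h4⟩ := apex_mem (t * θ) (t • n) (by
      intro y s hy
      have := hn y s hy
      change t * n y + t * θ * s ≤ 0
      nlinarith)
    have h5 := h _ _ hf
    rw [sub_split, F1_co, F2_co] at h5
    have e1 : (F1' Φ - f) (Z.1 - ((x, (0 : Y0)) : X2).1)
        = (Z.1.2 - x.2) * (th (F1' Φ) - th f) - ∑' m, (sg (F1' Φ) m - sg f m) ^ 2 :=
      pairing_sub hW h1
    have e2 : (F2' Φ - t • n) (Z.2 - ((x, (0 : Y0)) : X2).2) = F2' Φ Z.2 - t * n Z.2 := by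
      change (F2' Φ - t • n) (Z.2 - 0) = _
      rw [sub_zero]; rfl
    rw [e1, e2, h2, h3] at h5
    simp only [h4, sub_zero] at h5
    rw [hC]
    nlinarith
  by_contra hcon
  push Not at hcon
  have h6 := key ((|C| + 1) / (n Z.2 + θ * Z.1.2)) (by positivity)
  rw [div_mul_cancel₀ _ hcon.ne'] at h6
  have := le_abs_self C
  linarith

/-- finite functional -/
noncomputable def nK (β : ℕ → ℝ) (K : ℕ) : Y0 →L[ℝ] ℝ :=
  ∑ m ∈ Finset.range K, (β m • evY m + TT β m • (evY m + kk m • evY (pp m)))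

lemma nK_apply (β : ℕ → ℝ) (K : ℕ) (y : Y0) :
    nK β K y = ∑ m ∈ Finset.range K, bt β y m := by
  unfold nK
  rw [sum_apply]
  refine Finset.sum_congr rfl fun m _ => ?_
  rfl

lemma B3_apex_bound {Z : X2} {Φ : D2} (h : ∀ p : X2, ∀ F ∈ B3 p, 0 ≤ (Φ - F) (Z - p)) :
    0 ≤ Z.1.2 ∧ Summable (fun n => Z.2 n ^ 2) ∧ q Z.2 ≤ Z.1.2 ^ 2 := by
  have h1 : 0 ≤ Z.1.2 := by
    have := B3_apex h (-1) 0 (by
      intro y s hy
      have := hy.2.2
      change (0 : ℝ) + -1 * s ≤ 0
      linarith)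
    have e : (0 : Y0 →L[ℝ] ℝ) Z.2 = 0 := rfl
    rw [e] at this
    linarith
  have h2 : ∀ K, ∑ m ∈ Finset.range K, qt Z.2 m ≤ Z.1.2 ^ 2 := by
    intro K
    set S := ∑ m ∈ Finset.range K, qt Z.2 m with hS
    have hS0 : 0 ≤ S := Finset.sum_nonneg fun m _ => qt_nonneg _ m
    have h3 := B3_apex h (-(Real.sqrt S)) (nK Z.2 K) (by
      intro y s hy
      rw [nK_apply]
      have := bK_le (b := Z.2) hy.sq K hy.2.1 hy.2.2
      rw [← hS] at this
      linarith)
    rw [nK_apply] at h3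
    have h4 : ∑ m ∈ Finset.range K, bt Z.2 Z.2 m = S := by
      rw [hS]
      refine Finset.sum_congr rfl fun m _ => ?_
      unfold bt qt; ring
    rw [h4] at h3
    have h5 := Real.mul_self_sqrt hS0
    have h6 := Real.sqrt_nonneg S
    rcases eq_or_lt_of_le h6 with h7 | h7
    · rw [← h7] at h5
      have : S = 0 := by linarith
      rw [this]; positivity
    · have h8 : Real.sqrt S ≤ Z.1.2 := by
        have h9 : Real.sqrt S * Real.sqrt S ≤ Real.sqrt S * Z.1.2 := by
          rw [h5]; linarith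
        exact le_of_mul_le_mul_left h9 h7
      nlinarith
  have hqs : Summable (qt Z.2) := summable_of_sum_range_le (qt_nonneg _) h2
  refine ⟨h1, ?_, ?_⟩
  · refine Summable.of_nonneg_of_le (fun n => sq_nonneg _) (fun n => ?_) hqs
    unfold qt
    have := sq_nonneg (TT Z.2 n)
    linarith
  · exact Real.tsum_le_of_sum_range_le (qt_nonneg _) h2


lemma trunc_tendsto {β : ℕ → ℝ} (K : ℕ) : Tendsto (trunc β K) cofinite (𝓝 0) := by
  apply tendsto_of_finite_support (Finset.range K)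
  intro n hn
  rw [Finset.mem_range] at hn
  simp [trunc, hn]

/-- truncation as an element of `Y0` -/
noncomputable def tr (β : Y0) (K : ℕ) : Y0 := mkY (trunc β K) (trunc_tendsto K)

lemma tr_apply (β : Y0) (K n : ℕ) : tr β K n = trunc β K n := rfl

lemma tr_coe (β : Y0) (K : ℕ) : ((tr β K : Y0) : ℕ → ℝ) = trunc β K := rfl

lemma tr_lim (β : Y0) : Tendsto (fun K => tr β K) atTop (𝓝 β) := by
  rw [Metric.tendsto_atTop]
  intro ε hε
  have h1 := tendsto_cofiniteY β
  rw [Nat.cofinite_eq_atTop, Metric.tendsto_atTop] at h1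
  obtain ⟨N, hN⟩ := h1 (ε / 2) (by positivity)
  refine ⟨N, fun K hK => ?_⟩
  rw [dist_eq_norm]
  refine lt_of_le_of_lt (norm_le_ofY _ (C := ε / 2) (by positivity) ?_) (by linarith)
  intro j
  have : (tr β K - β) j = tr β K j - β j := rfl
  rw [this, tr_apply]
  unfold trunc
  split_ifs with hj
  · rw [sub_self, abs_zero]; positivity
  · rw [zero_sub, abs_neg]
    have := hN j (by omega)
    rw [Real.dist_eq, sub_zero] at this
    exact this.le

/-- test with members having `θ = 0` -/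
lemma B3_test {Z : X2} {Φ : D2} (h : ∀ p : X2, ∀ F ∈ B3 p, 0 ≤ (Φ - F) (Z - p))
    {b : Y0} {s : ℝ} (hb : DS b s) :
    0 ≤ (Z.1.2 - s) * th (F1' Φ) - ∑' n, (sg (F1' Φ) n - b n) ^ 2 + F2' Φ (Z.2 - b)
      - ∑' n, b n * (Z.2 n - b n) := by
  have hW := B3_related_W h
  obtain ⟨x, f, h1, h2, h3, h4⟩ := exists_rep s 0 b hb.1
  have hb' : DS b x.2 := by rw [h2]; exact hb
  have h5 := h _ _ (mem_B3_zero h1 h4 hb' h3)
  rw [sub_split, F1_co, F2_co] at h5
  have e1 : (F1' Φ - f) (Z.1 - ((x, b) : X2).1)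
      = (Z.1.2 - x.2) * (th (F1' Φ) - th f) - ∑' m, (sg (F1' Φ) m - sg f m) ^ 2 :=
    pairing_sub hW h1
  have e2 : (F2' Φ - pairL b hb'.1) (Z.2 - ((x, b) : X2).2)
      = F2' Φ (Z.2 - b) - ∑' n, b n * (Z.2 n - b n) := rfl
  rw [e1, e2, h2, h3] at h5
  simp only [h4, sub_zero] at h5
  linarith

lemma B3_sg {Z : X2} {Φ : D2} (h : ∀ p : X2, ∀ F ∈ B3 p, 0 ≤ (Φ - F) (Z - p)) (n : ℕ) :
    sg (F1' Φ) n = Z.2 n := by
  obtain ⟨h0, h1, h2⟩ := B3_apex_bound h
  have hsg := summable_abs_sg (F1' Φ)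
  have hDS : ∀ K, DS (tr Z.2 K) (Real.sqrt (Z.1.2 ^ 2 + err Z.2 K)) := by
    intro K
    have he := err_nonneg h1 K
    refine ⟨trunc_abs_summable _ _, ?_, Real.sqrt_nonneg _⟩
    rw [Real.sq_sqrt (by positivity), tr_coe]
    exact (q_trunc_le h1 K).trans (by linarith)
  have hineq : ∀ K, n < K → (sg (F1' Φ) n - Z.2 n) ^ 2
      ≤ (Z.1.2 - Real.sqrt (Z.1.2 ^ 2 + err Z.2 K)) * th (F1' Φ) + F2' Φ (Z.2 - tr Z.2 K) := by
    intro K hK
    have h3 := B3_test h (hDS K)
    have h4 : ∑' m, tr Z.2 K m * (Z.2 m - tr Z.2 K m) = 0 := by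
      have : ∀ m, tr Z.2 K m * (Z.2 m - tr Z.2 K m) = 0 := by
        intro m
        rw [tr_apply]
        unfold trunc
        split_ifs <;> ring
      simp only [this]
      exact tsum_zero
    rw [h4] at h3
    have hs : Summable (fun m => (sg (F1' Φ) m - tr Z.2 K m) ^ 2) := by
      apply summable_sq_of_summable_abs
      refine Summable.of_nonneg_of_le (fun m => abs_nonneg _) (fun m => abs_sub _ _)
        (hsg.add (trunc_abs_summable Z.2 K))
    have h5 := hs.le_tsum n (fun m _ => sq_nonneg _)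
    have h6 : tr Z.2 K n = Z.2 n := by
      rw [tr_apply]
      unfold trunc
      rw [if_pos hK]
    rw [h6] at h5
    linarith
  have hlim : Tendsto (fun K => (Z.1.2 - Real.sqrt (Z.1.2 ^ 2 + err Z.2 K)) * th (F1' Φ)
      + F2' Φ (Z.2 - tr Z.2 K)) atTop
      (𝓝 ((Z.1.2 - Real.sqrt (Z.1.2 ^ 2 + 0)) * th (F1' Φ) + F2' Φ (Z.2 - Z.2))) := by
    refine Tendsto.add (Tendsto.mul_const _ (tendsto_const_nhds.sub ?_)) ?_
    · exact (Real.continuous_sqrt.tendsto _).comp (tendsto_const_nhds.add (err_tendsto h1))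
    · exact ((F2' Φ).continuous.tendsto _).comp (tendsto_const_nhds.sub (tr_lim Z.2))
  rw [add_zero, Real.sqrt_sq h0, sub_self, zero_mul, sub_self, map_zero, add_zero] at hlim
  have h7 : (sg (F1' Φ) n - Z.2 n) ^ 2 ≤ 0 := by
    refine ge_of_tendsto hlim ?_
    filter_upwards [eventually_gt_atTop n] with K hK
    exact hineq K hK
  have h8 : (sg (F1' Φ) n - Z.2 n) ^ 2 = 0 := le_antisymm h7 (sq_nonneg _)
  have h9 := pow_eq_zero_iff (two_ne_zero) |>.1 h8
  linarith

lemma B3_max : ∀ (Z : X2) (Φ : D2), (∀ p : X2, ∀ F ∈ B3 p, 0 ≤ (Φ - F) (Z - p)) → Φ ∈ B3 Z := by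
  intro Z Φ h
  obtain ⟨h0, h1, h2⟩ := B3_apex_bound h
  have hsg := B3_sg h
  have habs : Summable (fun n => |Z.2 n|) := by
    refine (summable_abs_sg (F1' Φ)).congr fun n => ?_
    rw [hsg n]
  refine ⟨B3_related_W h, hsg, ⟨habs, h2, h0⟩, ?_⟩
  intro y s hy
  have h3 := B3_test h hy
  have hs1 : Summable (fun n => (sg (F1' Φ) n - y n) ^ 2) := by
    apply summable_sq_of_summable_abs
    exact Summable.of_nonneg_of_le (fun m => abs_nonneg _) (fun m => abs_sub _ _)
      ((summable_abs_sg (F1' Φ)).add hy.1)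
  have hs2 : Summable (fun n => y n * (Z.2 n - y n)) := by
    refine ((summable_prod_abs hy.1 habs).sub (summable_prod_abs hy.1 hy.1)).congr fun n => ?_
    ring
  have h4 : ∑' n, (sg (F1' Φ) n - y n) ^ 2 + ∑' n, y n * (Z.2 n - y n)
      = - ∑' n, Z.2 n * (y n - Z.2 n) := by
    rw [← hs1.tsum_add hs2, ← tsum_neg]
    apply tsum_congr
    intro n
    rw [hsg n]; ring
  have h5 : F2' Φ (y - Z.2) = - F2' Φ (Z.2 - y) := by
    rw [← map_neg, neg_sub]
  rw [h5]
  nlinarith

lemma B3_dom_iff (p : X2) : (B3 p).Nonempty ↔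
    (∃ f : D1, InW p.1 f ∧ (∀ n, sg f n = p.2 n)) ∧ DS p.2 p.1.2 := by
  constructor
  · rintro ⟨F, h1, h2, h3, -⟩
    exact ⟨⟨F1' F, h1, h2⟩, h3⟩
  · rintro ⟨⟨f, h1, h2⟩, h3⟩
    set sn : D1 := ContinuousLinearMap.snd ℝ X0 ℝ with hsn
    have hc : ∀ i, cf sn i = 0 := fun i => rfl
    have ht : ∀ n k, tl sn n k = 0 := by
      intro n k
      unfold tl
      simp only [hc]
      exact tsum_zero
    have hth : th sn = 1 := rfl
    have hW : InW p.1 (f - (th f) • sn) := by
      intro n k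
      rw [tl_sub, tl_smul, ht, tl_sub, tl_smul, ht, h1 n k]; ring
    have hs : ∀ n, sg (f - (th f) • sn) n = p.2 n := by
      intro n
      rw [sg_sub, sg_smul, h2 n]
      unfold sg
      rw [ht]; ring
    have h4 : th (f - (th f) • sn) = 0 := by
      rw [th_sub, th_smul, hth]; ring
    exact ⟨_, mem_B3_zero hW hs h3 h4⟩

lemma DS_convex {b c : ℕ → ℝ} {s t u v : ℝ} (hb : DS b s) (hc : DS c t) (hu : 0 ≤ u)
    (hv : 0 ≤ v) : DS (fun n => u * b n + v * c n) (u * s + v * t) := by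
  have h1 := hb.2.2
  have h2 := hc.2.2
  refine ⟨?_, ?_, by positivity⟩
  · refine Summable.of_nonneg_of_le (fun n => abs_nonneg _) (fun n => ?_)
      ((hb.1.mul_left u).add (hc.1.mul_left v))
    refine (abs_add_le _ _).trans ?_
    rw [abs_mul, abs_mul, abs_of_nonneg hu, abs_of_nonneg hv]
  · rw [q_comb hb.sq hc.sq]
    have h3 := bf_le hb.sq hc.sq hb.2.1 hc.2.1 h1 h2
    have h4 := hb.2.1
    have h5 := hc.2.1
    have e1 : u ^ 2 * q b ≤ u ^ 2 * s ^ 2 := mul_le_mul_of_nonneg_left h4 (sq_nonneg _)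
    have e2 : v ^ 2 * q c ≤ v ^ 2 * t ^ 2 := mul_le_mul_of_nonneg_left h5 (sq_nonneg _)
    have e3 : 2 * u * v * bf b c ≤ 2 * u * v * (s * t) :=
      mul_le_mul_of_nonneg_left h3 (by positivity)
    nlinarith

lemma B3_dom_convex : Convex ℝ {p : X2 | (B3 p).Nonempty} := by
  intro p hp r hr u v hu hv _
  have hp' := (B3_dom_iff p).1 hp
  have hr' := (B3_dom_iff r).1 hr
  obtain ⟨⟨f, f1, f2⟩, f3⟩ := hp'
  obtain ⟨⟨g, g1, g2⟩, g3⟩ := hr'
  refine (B3_dom_iff _).2 ⟨⟨u • f + v • g, (f1.smul u).add (g1.smul v), ?_⟩, ?_⟩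
  · intro n
    rw [sg_add, sg_smul, sg_smul, f2, g2]
    rfl
  · exact DS_convex f3 g3 hu hv

/-- over the open half space the normal part vanishes -/
lemma interior_zero {b : Y0} {s θ : ℝ} {n : Y0 →L[ℝ] ℝ} (hb : DS b s) (hs : 0 < s)
    (hN : ∀ (y : Y0) (t : ℝ), DS y t → n (y - b) + θ * (t - s) ≤ 0) : n = 0 ∧ θ = 0 := by
  have hbs := hb.sq
  have e0 : n b + θ * s = 0 := by
    have h1 := hN 0 0 (DS_zero le_rfl)
    have h2 := hN ((2 : ℝ) • b) (2 * s) (by
      have := DS_convex hb hb (zero_le_one) (zero_le_one)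
      have e1 : (fun n => 1 * b n + 1 * b n) = (((2 : ℝ) • b : Y0) : ℕ → ℝ) := by
        funext n
        change 1 * b n + 1 * b n = 2 * b n
        ring
      have e2 : 1 * s + 1 * s = 2 * s := by ring
      rw [e1, e2] at this
      exact this)
    rw [map_sub, map_zero] at h1
    rw [map_sub, map_smul, smul_eq_mul] at h2
    linarith
  have hN2 : ∀ (y : Y0) (t : ℝ), DS y t → n y + θ * t ≤ 0 := by
    intro y t hy
    have := hN y t hy
    rw [map_sub] at this
    linarith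
  have hθ : θ ≤ 0 := by
    have := hN2 0 1 (DS_zero zero_le_one)
    rw [map_zero] at this
    linarith
  set c := -θ with hc
  have hc0 : 0 ≤ c := by linarith
  have hlin : ∀ d : Y0, Summable (fun n => |d n|) → n d = c / s * bf b d := by
    intro d hd
    have hds := summable_sq_of_summable_abs hd
    have hquad : ∀ t : ℝ, t * (n d - c / s * bf b d) ≤ t ^ 2 * (c * q d / (2 * s)) := by
      intro t
      set s' := s / 2 + q (fun m => 1 * b m + t * d m) / (2 * s) with hs'
      have hq0 := q_nonneg (fun m => 1 * b m + t * d m)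
      have hs'0 : 0 ≤ s' := by positivity
      have hDS : DS (b + t • d : Y0) s' := by
        refine ⟨?_, ?_, hs'0⟩
        · refine Summable.of_nonneg_of_le (fun n => abs_nonneg _) (fun n => ?_)
            (hb.1.add (hd.mul_left |t|))
          change |b n + t * d n| ≤ _
          refine (abs_add_le _ _).trans ?_
          rw [abs_mul]
        · have e1 : ((b + t • d : Y0) : ℕ → ℝ) = fun m => 1 * b m + t * d m := by
            funext m
            change b m + t * d m = _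
            ring
          rw [e1]
          have e2 : 4 * (s / 2) * (q (fun m => 1 * b m + t * d m) / (2 * s))
              = q (fun m => 1 * b m + t * d m) := by
            field_simp
            try ring
          rw [hs']
          nlinarith [sq_nonneg (s / 2 - q (fun m => 1 * b m + t * d m) / (2 * s))]
      have h1 := hN2 _ _ hDS
      rw [map_add, map_smul, smul_eq_mul] at h1
      have h2 : q (fun m => 1 * b m + t * d m) ≤ s ^ 2 + 2 * t * bf b d + t ^ 2 * q d := by
        rw [q_comb hbs hds]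
        have := hb.2.1
        linarith
      have h3 : s' ≤ s + (2 * t * bf b d + t ^ 2 * q d) / (2 * s) := by
        rw [hs']
        have e3 : s + (2 * t * bf b d + t ^ 2 * q d) / (2 * s)
            = s / 2 + (s ^ 2 + 2 * t * bf b d + t ^ 2 * q d) / (2 * s) := by
          field_simp
          ring
        rw [e3]
        have := div_le_div_of_nonneg_right h2 (by positivity : (0:ℝ) ≤ 2 * s)
        linarith
      have h4 : c * s' ≤ c * (s + (2 * t * bf b d + t ^ 2 * q d) / (2 * s)) :=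
        mul_le_mul_of_nonneg_left h3 hc0
      have h5 : n b = c * s := by rw [hc]; linarith
      have h6 : t * n d ≤ c * ((2 * t * bf b d + t ^ 2 * q d) / (2 * s)) := by
        have : θ = -c := by rw [hc]; ring
        rw [this] at h1
        nlinarith
      have h7 : c * ((2 * t * bf b d + t ^ 2 * q d) / (2 * s))
          = t * (c / s * bf b d) + t ^ 2 * (c * q d / (2 * s)) := by
        field_simp
        try ring
      rw [h7] at h6
      linarith
    -- quadratic implies linear vanishes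
    by_contra hne
    set A := n d - c / s * bf b d with hA
    have hA0 : A ≠ 0 := by
      intro h0
      apply hne
      linarith
    set D := c * q d / (2 * s) with hD
    have hD0 : 0 ≤ D := by
      have := q_nonneg d
      positivity
    have h1 := hquad (A / (D + 1))
    have h2 : A / (D + 1) * A = A ^ 2 / (D + 1) := by ring
    have h3 : (A / (D + 1)) ^ 2 * D = A ^ 2 / (D + 1) * (D / (D + 1)) := by
      rw [div_pow]; field_simp
    rw [h2, h3] at h1
    have h4 : 0 < A ^ 2 / (D + 1) := by positivity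
    have h5 : D / (D + 1) < 1 := by
      rw [div_lt_one (by positivity)]; linarith
    nlinarith
  have hc00 : c = 0 := by
    by_contra hcne
    have hcpos : 0 < c := lt_of_le_of_ne hc0 (Ne.symm hcne)
    by_cases hb0 : ∃ l, b l ≠ 0
    · obtain ⟨l, hl⟩ := hb0
      obtain ⟨J, hJ⟩ := bf_unbounded hb.1 hl (‖n‖ * s / c)
      set d : Y0 := mkY (dd l J) (tendsto_of_finite_support
        ((Finset.range J).image (fun j => Nat.pair l j)) (fun m hm => by
          by_contra h0
          exact hm (dd_support l J m h0))) with hd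
      have hdd : (d : ℕ → ℝ) = dd l J := rfl
      have hdabs : Summable (fun n => |d n|) := by
        rw [hdd]
        apply summable_of_ne_finset_zero (s := (Finset.range J).image (fun j => Nat.pair l j))
        intro m hm
        by_contra h0
        apply hm
        apply dd_support l J m
        intro h1
        rw [h1, abs_zero] at h0
        exact h0 rfl
      have h1 := hlin d hdabs
      rw [hdd] at h1
      have h2 : ‖d‖ ≤ 1 := norm_le_ofY d zero_le_one (fun i => dd_abs_le l J i)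
      have h3 : |n d| ≤ ‖n‖ := by
        have := n.le_opNorm d
        rw [Real.norm_eq_abs] at this
        exact this.trans (mul_le_of_le_one_right n.opNorm_nonneg h2)
      rw [h1, abs_mul, abs_of_pos (by positivity)] at h3
      rw [div_lt_iff₀ hcpos] at hJ
      rw [div_mul_eq_mul_div, div_le_iff₀ hs] at h3
      linarith
    · push Not at hb0
      have hbz : b = 0 := by
        ext m
        exact hb0 m
      rw [hbz, map_zero] at e0
      have : θ * s = 0 := by linarith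
      rcases mul_eq_zero.1 this with h | h
      · apply hcne
        rw [hc, h, neg_zero]
      · exact absurd h hs.ne'
  refine ⟨functional_zero fun i => ?_, by rw [hc] at hc00; linarith⟩
  have h1 := hlin (eY i) (by
    apply summable_of_ne_finset_zero (s := {i})
    intro m hm
    rw [Finset.mem_singleton] at hm
    rw [eY_apply, if_neg hm, abs_zero])
  rw [hc00, zero_div, zero_mul] at h1
  exact h1

lemma B3_interior {p : X2} {F : D2} (h : F ∈ B3 p) (hs : 1 < p.1.2) :
    th (F1' F) = 0 ∧ F2' F = pairL p.2 h.2.2.1.1 := by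
  obtain ⟨h1, h2, h3, h4⟩ := h
  have := interior_zero (b := p.2) (s := p.1.2) (θ := th (F1' F)) (n := F2' F - pairL p.2 h3.1)
    h3 (by linarith) (by
      intro y t hy
      have h5 := h4 y t hy
      have e1 : (F2' F - pairL p.2 h3.1) (y - p.2)
          = F2' F (y - p.2) - ∑' n, p.2 n * (y n - p.2 n) := rfl
      rw [e1]
      exact h5)
  exact ⟨this.2, sub_eq_zero.1 this.1⟩

/-- the bad point -/
lemma B3_bad : ∃ (Z : X2) (Φ : D2), Z.1.2 = 2 ∧ Φ ∉ B3 Z ∧
    ∀ p : X2, 1 < p.1.2 → ∀ F ∈ B3 p, 0 ≤ (Φ - F) (Z - p) := by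
  set b0 : Y0 := (3 : ℝ) • eY 0 with hb0
  have hb0f : ∀ n, b0 n = if n = 0 then 3 else 0 := by
    intro n
    change 3 * eY 0 n = _
    rw [eY_apply]
    split_ifs <;> ring
  have habs : Summable (fun n => |b0 n|) := by
    apply summable_of_ne_finset_zero (s := {0})
    intro m hm
    rw [Finset.mem_singleton] at hm
    rw [hb0f, if_neg hm, abs_zero]
  obtain ⟨x, f, h1, h2, h3, h4⟩ := exists_rep 2 0 b0 habs
  refine ⟨(x, b0), co f (pairL b0 habs), h2, ?_, ?_⟩
  · intro hmem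
    have h5 : q b0 ≤ x.2 ^ 2 := hmem.2.2.1.2.1
    have h6 : qt b0 0 ≤ q b0 :=
      (summable_qt (summable_sq_of_summable_abs habs)).le_tsum 0 (fun m _ => qt_nonneg _ m)
    have h7 : 9 ≤ qt b0 0 := by
      unfold qt
      rw [hb0f]
      have := sq_nonneg (TT b0 0)
      norm_num
      linarith
    rw [h2] at h5
    linarith
  · intro p hp F hF
    obtain ⟨g1, g2⟩ := B3_interior hF hp
    obtain ⟨q1, q2, q3, q4⟩ := hF
    rw [sub_split, F1_co, F2_co]
    have e1 : (f - F1' F) (((x, b0) : X2).1 - p.1)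
        = (x.2 - p.1.2) * (th f - th (F1' F)) - ∑' m, (sg f m - sg (F1' F) m) ^ 2 :=
      pairing_sub h1 q1
    have e2 : (pairL b0 habs - F2' F) (((x, b0) : X2).2 - p.2)
        = ∑' n, b0 n * (b0 n - p.2 n) - ∑' n, p.2 n * (b0 n - p.2 n) := by
      rw [g2]; rfl
    have s1 : Summable (fun n => b0 n * (b0 n - p.2 n)) := by
      refine ((summable_prod_abs habs habs).sub (summable_prod_abs habs q3.1)).congr fun n => ?_
      ring
    have s2 : Summable (fun n => p.2 n * (b0 n - p.2 n)) := by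
      refine ((summable_prod_abs q3.1 habs).sub (summable_prod_abs q3.1 q3.1)).congr fun n => ?_
      ring
    have e3 : ∑' m, (sg f m - sg (F1' F) m) ^ 2
        = ∑' n, b0 n * (b0 n - p.2 n) - ∑' n, p.2 n * (b0 n - p.2 n) := by
      rw [← s1.tsum_sub s2]
      apply tsum_congr
      intro n
      rw [h4, q2]; ring
    rw [e1, e2, e3, h3, g1]
    linarith

lemma half_open : IsOpen {p : X2 | 1 < p.1.2} :=
  isOpen_lt continuous_const (continuous_snd.comp continuous_fst)

lemma half_convex : Convex ℝ {p : X2 | 1 < p.1.2} := by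
  intro p hp r hr u v hu hv huv
  have hp' : 1 < p.1.2 := hp
  have hr' : 1 < r.1.2 := hr
  change 1 < u * p.1.2 + v * r.1.2
  rcases eq_or_lt_of_le hu with h | h
  · have hv1 : v = 1 := by linarith
    rw [← h, hv1]; linarith
  · nlinarith

lemma half_meets : ({p : X2 | 1 < p.1.2} ∩ {p : X2 | (B3 p).Nonempty}).Nonempty := by
  obtain ⟨x, f, h1, h2, h3, h4⟩ := exists_rep 2 0 (fun _ => 0) (by
    simp only [abs_zero]; exact summable_zero)
  refine ⟨(x, 0), ?_, ?_⟩
  · change 1 < x.2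
    rw [h2]; norm_num
  · refine (B3_dom_iff _).2 ⟨⟨f, h1, fun n => by rw [h4]; rfl⟩, ?_⟩
    have : DS (fun _ => 0) x.2 := by
      rw [h2]; exact DS_zero (by norm_num)
    exact this

end Pool.Agent.H784R3
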