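import Mathlib

set_option autoImplicit false

open scoped ZeroAtInfty BigOperators Topology
open Filter

namespace Pool.Agent.H784R3

/-- The space `c₀(ℕ × ℕ)`. -/
abbrev X0 : Type := C₀(ℕ × ℕ, ℝ)

/-- The space `c₀(ℕ × ℕ) × ℝ`. -/
abbrev X1 : Type := X0 × ℝ

/-- The dual of `X1`. -/
abbrev D1 : Type := X1 →L[ℝ] ℝ

/-- build an element of `c₀` -/
def mk0 (f : ℕ × ℕ → ℝ) (hf : Tendsto f cofinite (𝓝 0)) : X0 where
  toFun := f
  continuous_toFun := continuous_of_discreteTopology
  zero_at_infty' := by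
    rw [Filter.cocompact_eq_cofinite]
    exact hf

@[simp] lemma mk0_apply (f : ℕ × ℕ → ℝ) (hf : Tendsto f cofinite (𝓝 0)) (i : ℕ × ℕ) :
    mk0 f hf i = f i := rfl

lemma tendsto_cofinite (x : X0) : Tendsto (fun i => x i) cofinite (𝓝 0) := by
  have := x.zero_at_infty'
  rw [Filter.cocompact_eq_cofinite] at this
  exact this

lemma abs_apply_le (x : X0) (i : ℕ × ℕ) : |x i| ≤ ‖x‖ := by
  have := (x.toBCF).norm_coe_le_norm i
  rw [ZeroAtInftyContinuousMap.norm_toBCF_eq_norm] at this
  exact this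

lemma norm_le_of (x : X0) {C : ℝ} (hC : 0 ≤ C) (h : ∀ i, |x i| ≤ C) : ‖x‖ ≤ C := by
  rw [← ZeroAtInftyContinuousMap.norm_toBCF_eq_norm]
  rw [BoundedContinuousFunction.norm_le hC]
  exact h

/-- evaluation functional -/
noncomputable def ev (i : ℕ × ℕ) : X0 →L[ℝ] ℝ :=
  LinearMap.mkContinuous
    { toFun := fun x => x i
      map_add' := fun x y => rfl
      map_smul' := fun c x => rfl } 1 (fun x => by
        simpa using abs_apply_le x i)

@[simp] lemma ev_apply (i : ℕ × ℕ) (x : X0) : ev i x = x i := rfl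

lemma tendsto_single (i : ℕ × ℕ) : Tendsto (fun j => if j = i then (1 : ℝ) else 0) cofinite (𝓝 0) := by
  apply tendsto_nhds_of_eventually_eq
  have : ({i} : Set (ℕ × ℕ))ᶜ ∈ (cofinite : Filter (ℕ × ℕ)) := (Set.finite_singleton i).compl_mem_cofinite
  filter_upwards [this] with j hj
  have hne : j ≠ i := hj
  simp [hne]

/-- basis vectors -/
noncomputable def e (i : ℕ × ℕ) : X0 := mk0 (fun j => if j = i then (1 : ℝ) else 0) (tendsto_single i)

@[simp] lemma e_apply (i j : ℕ × ℕ) : e i j = if j = i then (1 : ℝ) else 0 := rfl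

lemma sum_e_apply (s : Finset (ℕ × ℕ)) (c : ℕ × ℕ → ℝ) (j : ℕ × ℕ) :
    (∑ i ∈ s, c i • e i) j = if j ∈ s then c j else 0 := by
  have h : (∑ i ∈ s, c i • e i) j = ev j (∑ i ∈ s, c i • e i) := rfl
  rw [h, map_sum]
  simp only [map_smul, ev_apply, e_apply, smul_eq_mul, mul_ite, mul_one, mul_zero]
  rw [Finset.sum_ite_eq]

lemma hasSum_e (x : X0) : HasSum (fun i => x i • e i) x := by
  rw [HasSum, SummationFilter.unconditional_filter, Metric.tendsto_atTop]
  intro ε hε
  have h1 := tendsto_cofinite x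
  rw [Metric.tendsto_nhds] at h1
  have h2 := h1 (ε / 2) (by positivity)
  have hfin : {i : ℕ × ℕ | ¬ dist (x i) 0 < ε / 2}.Finite := h2
  refine ⟨hfin.toFinset, fun s hs => ?_⟩
  rw [dist_eq_norm]
  refine lt_of_le_of_lt (norm_le_of _ (C := ε / 2) (by positivity) ?_) (by linarith)
  intro j
  have : (∑ i ∈ s, x i • e i - x) j = (∑ i ∈ s, x i • e i) j - x j := rfl
  rw [this, sum_e_apply s (fun i => x i)]
  by_cases hj : j ∈ s
  · simp [hj]; positivity
  · simp only [hj, if_false, zero_sub, abs_neg]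
    have hj2 : j ∉ hfin.toFinset := fun h => hj (hs h)
    simp only [Set.Finite.mem_toFinset, Set.mem_ofPred_eq, not_not, Real.dist_eq, sub_zero] at hj2
    exact hj2.le

/-- coefficients of a functional -/
noncomputable def cf (f : D1) (i : ℕ × ℕ) : ℝ := f (e i, 0)

/-- last coordinate of a functional -/
noncomputable def th (f : D1) : ℝ := f (0, 1)

lemma cf_add (f g : D1) (i : ℕ × ℕ) : cf (f + g) i = cf f i + cf g i := rfl
lemma cf_sub (f g : D1) (i : ℕ × ℕ) : cf (f - g) i = cf f i - cf g i := rfl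
lemma cf_smul (c : ℝ) (f : D1) (i : ℕ × ℕ) : cf (c • f) i = c * cf f i := rfl
lemma th_add (f g : D1) : th (f + g) = th f + th g := rfl
lemma th_sub (f g : D1) : th (f - g) = th f - th g := rfl
lemma th_smul (c : ℝ) (f : D1) : th (c • f) = c * th f := rfl

lemma summable_abs_cf (f : D1) : Summable (fun i => |cf f i|) := by
  apply summable_of_sum_le (c := ‖f‖) (fun i => abs_nonneg _)
  intro s
  have h1 : ∑ i ∈ s, |cf f i| = f (∑ i ∈ s, (SignType.sign (cf f i) : ℝ) • e i, 0) := by
    have h2 : ((∑ i ∈ s, (SignType.sign (cf f i) : ℝ) • e i, 0) : X1)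
        = ∑ i ∈ s, (SignType.sign (cf f i) : ℝ) • ((e i, 0) : X1) := by
      ext1
      · rw [Prod.fst_sum]; rfl
      · rw [Prod.snd_sum]; simp
    rw [h2, map_sum]
    refine Finset.sum_congr rfl fun i _ => ?_
    rw [map_smul]
    change |cf f i| = (SignType.sign (cf f i) : ℝ) * cf f i
    rw [sign_mul_self]
  rw [h1]
  refine (le_abs_self _).trans ((f.le_opNorm _).trans ?_)
  have h3 : ‖((∑ i ∈ s, (SignType.sign (cf f i) : ℝ) • e i, 0) : X1)‖ ≤ 1 := by
    rw [Prod.norm_def]
    apply max_le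
    · apply norm_le_of _ zero_le_one
      intro j
      change |(∑ i ∈ s, (SignType.sign (cf f i) : ℝ) • e i) j| ≤ 1
      rw [sum_e_apply s (fun i => (SignType.sign (cf f i) : ℝ))]
      by_cases hj : j ∈ s
      · simp only [hj, if_true]
        rcases lt_trichotomy (cf f j) 0 with h | h | h
        · simp [sign_neg h]
        · simp [h]
        · simp [sign_pos h]
      · simp [hj]
    · simp
  calc ‖f‖ * ‖((∑ i ∈ s, (SignType.sign (cf f i) : ℝ) • e i, 0) : X1)‖ ≤ ‖f‖ * 1 :=
        mul_le_mul_of_nonneg_left h3 f.opNorm_nonneg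
    _ = ‖f‖ := mul_one _

lemma summable_cf (f : D1) : Summable (fun i => cf f i) := (summable_abs_cf f).of_abs

lemma hasSum_apply (f : D1) (x : X1) : HasSum (fun i => x.1 i * cf f i) (f x - x.2 * th f) := by
  have h1 := (hasSum_e x.1).mapL (f.comp (ContinuousLinearMap.inl ℝ X0 ℝ))
  have h2 : f x - x.2 * th f = (f.comp (ContinuousLinearMap.inl ℝ X0 ℝ)) x.1 := by
    have h3 : x = (x.1, (0:ℝ)) + x.2 • ((0, 1) : X1) := by
      ext1 <;> simp
    have h4 : f x = f (x.1, 0) + x.2 * th f := by
      conv_lhs => rw [h3]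
      rw [map_add, map_smul]; rfl
    rw [h4]; simp
  rw [h2]
  convert h1 using 1
  funext i
  rw [map_smul]
  rfl

lemma summable_row (f : D1) (n k : ℕ) : Summable (fun m => cf f (n, k + m)) := by
  have hinj : Function.Injective (fun m : ℕ => ((n, k + m) : ℕ × ℕ)) := by
    intro a b h; simpa using h
  exact (summable_cf f).comp_injective hinj

lemma summable_abs_row (f : D1) (n k : ℕ) : Summable (fun m => |cf f (n, k + m)|) := by
  have hinj : Function.Injective (fun m : ℕ => ((n, k + m) : ℕ × ℕ)) := by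
    intro a b h; simpa using h
  exact (summable_abs_cf f).comp_injective hinj

/-- tail sums -/
noncomputable def tl (f : D1) (n k : ℕ) : ℝ := ∑' m, cf f (n, k + m)

lemma tl_succ (f : D1) (n k : ℕ) : tl f n k = cf f (n, k) + tl f n (k + 1) := by
  unfold tl
  rw [(summable_row f n k).tsum_eq_zero_add]
  simp only [add_zero]
  congr 1
  apply tsum_congr
  intro m
  congr 2
  ring

lemma tl_tendsto (f : D1) (n : ℕ) : Tendsto (fun k => tl f n k) atTop (𝓝 0) := by
  have := tendsto_sum_nat_add (fun m => cf f (n, m))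
  refine this.congr fun k => ?_
  unfold tl
  apply tsum_congr
  intro m
  rw [add_comm]

lemma tl_add (f g : D1) (n k : ℕ) : tl (f + g) n k = tl f n k + tl g n k := by
  unfold tl
  rw [← (summable_row f n k).tsum_add (summable_row g n k)]
  rfl

lemma tl_smul (c : ℝ) (f : D1) (n k : ℕ) : tl (c • f) n k = c * tl f n k := by
  unfold tl
  rw [← tsum_mul_left]
  rfl

lemma tl_sub (f g : D1) (n k : ℕ) : tl (f - g) n k = tl f n k - tl g n k := by
  unfold tl
  rw [← (summable_row f n k).tsum_sub (summable_row g n k)]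
  rfl

lemma tl_unique (f : D1) (n : ℕ) (T : ℕ → ℝ) (h1 : ∀ j, T j = cf f (n, j) + T (j + 1))
    (h2 : Tendsto T atTop (𝓝 0)) (j : ℕ) : tl f n j = T j := by
  have hconst : ∀ k, tl f n k - T k = tl f n 0 - T 0 := by
    intro k
    induction k with
    | zero => rfl
    | succ k ih =>
      rw [← ih]
      have a := tl_succ f n k
      have b := h1 k
      linarith
  have hlim : Tendsto (fun k => tl f n k - T k) atTop (𝓝 (0 - 0)) := (tl_tendsto f n).sub h2
  have hlim2 : Tendsto (fun _ : ℕ => tl f n 0 - T 0) atTop (𝓝 (0 - 0)) := by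
    refine hlim.congr fun k => hconst k
  have h3 : tl f n 0 - T 0 = 0 := by
    have := tendsto_nhds_unique hlim2 tendsto_const_nhds
    linarith
  have := hconst j
  linarith

/-- the sequence of block sums -/
noncomputable def sg (f : D1) (n : ℕ) : ℝ := tl f n 0

lemma sg_add (f g : D1) (n : ℕ) : sg (f + g) n = sg f n + sg g n := tl_add f g n 0
lemma sg_sub (f g : D1) (n : ℕ) : sg (f - g) n = sg f n - sg g n := tl_sub f g n 0
lemma sg_smul (c : ℝ) (f : D1) (n : ℕ) : sg (c • f) n = c * sg f n := tl_smul c f n 0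

lemma summable_abs_sg (f : D1) : Summable (fun n => |sg f n|) := by
  have h1 : Summable (fun n => ∑' m, |cf f (n, m)|) := (summable_abs_cf f).prod
  refine Summable.of_nonneg_of_le (fun n => abs_nonneg _) (fun n => ?_) h1
  unfold sg tl
  have h2 : Summable (fun m => |cf f (n, 0 + m)|) := summable_abs_row f n 0
  have := norm_tsum_le_tsum_norm (f := fun m => cf f (n, 0 + m)) h2
  simpa using this

lemma summable_sg (f : D1) : Summable (fun n => sg f n) := (summable_abs_sg f).of_abs

lemma summable_sq_of_summable_abs {u : ℕ → ℝ} (hu : Summable (fun n => |u n|)) :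
    Summable (fun n => (u n) ^ 2) := by
  have h0 : Tendsto (fun n => |u n|) cofinite (𝓝 0) := hu.tendsto_cofinite_zero
  have h1 : ∀ᶠ n in cofinite, |u n| < 1 := h0.eventually (gt_mem_nhds zero_lt_one)
  refine hu.of_norm_bounded_eventually ?_
  filter_upwards [h1] with n hn
  rw [Real.norm_eq_abs, abs_pow]
  have := abs_nonneg (u n)
  nlinarith

/-- The subspace `W`. -/
def InW (x : X1) (f : D1) : Prop := ∀ n k, x.1 (n, k) = -(tl f n k + tl f n (k + 1))

lemma InW.add {x y : X1} {f g : D1} (h : InW x f) (h' : InW y g) : InW (x + y) (f + g) := by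
  intro n k
  have : (x + y).1 (n, k) = x.1 (n, k) + y.1 (n, k) := rfl
  rw [this, h n k, h' n k, tl_add, tl_add]; ring

lemma InW.sub {x y : X1} {f g : D1} (h : InW x f) (h' : InW y g) : InW (x - y) (f - g) := by
  intro n k
  have : (x - y).1 (n, k) = x.1 (n, k) - y.1 (n, k) := rfl
  rw [this, h n k, h' n k, tl_sub, tl_sub]; ring

lemma InW.smul {x : X1} {f : D1} (c : ℝ) (h : InW x f) : InW (c • x) (c • f) := by
  intro n k
  have : (c • x).1 (n, k) = c * x.1 (n, k) := rfl
  rw [this, h n k, tl_smul, tl_smul]; ring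

lemma pairing {x : X1} {f : D1} (h : InW x f) : f x = x.2 * th f - ∑' n, (sg f n) ^ 2 := by
  have h1 := hasSum_apply f x
  have hs : Summable (fun i : ℕ × ℕ => x.1 i * cf f i) := h1.summable
  have h2 : ∑' i : ℕ × ℕ, x.1 i * cf f i = ∑' n, ∑' k, x.1 (n, k) * cf f (n, k) := hs.tsum_prod
  have h3 : ∀ n, ∑' k, x.1 (n, k) * cf f (n, k) = -(sg f n) ^ 2 := by
    intro n
    have hsn : Summable (fun k => x.1 (n, k) * cf f (n, k)) := hs.prod_factor n
    have hlim := hsn.hasSum.tendsto_sum_nat
    have hpart : ∀ K, ∑ k ∈ Finset.range K, x.1 (n, k) * cf f (n, k)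
        = (tl f n K) ^ 2 - (tl f n 0) ^ 2 := by
      intro K
      rw [← Finset.sum_range_sub (fun k => (tl f n k) ^ 2)]
      refine Finset.sum_congr rfl fun k _ => ?_
      rw [h n k]
      have := tl_succ f n k
      have h5 : cf f (n, k) = tl f n k - tl f n (k + 1) := by linarith
      rw [h5]; ring
    have hlim2 : Tendsto (fun K => (tl f n K) ^ 2 - (tl f n 0) ^ 2) atTop
        (𝓝 ((0:ℝ) ^ 2 - (tl f n 0) ^ 2)) := ((tl_tendsto f n).pow 2).sub tendsto_const_nhds
    have hlim3 := hlim.congr hpart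
    have := tendsto_nhds_unique hlim3 hlim2
    rw [this]; unfold sg; ring
  have h4 : f x - x.2 * th f = ∑' n, -(sg f n) ^ 2 := by
    rw [← h1.tsum_eq, h2]
    exact tsum_congr h3
  rw [tsum_neg] at h4
  linarith

lemma InW_of_gen {x : X1} {f : D1}
    (h : ∀ n k, x.1 (n, k) - x.1 (n, k + 1) + cf f (n, k) + cf f (n, k + 1) = 0) : InW x f := by
  intro n k
  have hrow : Tendsto (fun k => x.1 (n, k)) atTop (𝓝 0) := by
    have h1 := tendsto_cofinite x.1
    have hinj : Function.Injective (fun m : ℕ => ((n, m) : ℕ × ℕ)) := by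
      intro a b h; simpa using h
    have h2 := h1.comp hinj.tendsto_cofinite
    rw [Nat.cofinite_eq_atTop] at h2
    exact h2
  have hconst : ∀ k, x.1 (n, k) + tl f n k + tl f n (k + 1)
      = x.1 (n, 0) + tl f n 0 + tl f n (0 + 1) := by
    intro k
    induction k with
    | zero => rfl
    | succ k ih =>
      rw [← ih]
      have a := tl_succ f n k
      have b := tl_succ f n (k + 1)
      have c := h n k
      linarith
  have hlim : Tendsto (fun k => x.1 (n, k) + tl f n k + tl f n (k + 1)) atTop (𝓝 (0 + 0 + 0)) :=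
    (hrow.add (tl_tendsto f n)).add ((tl_tendsto f n).comp (tendsto_add_atTop_nat 1))
  have hlim2 := hlim.congr hconst
  have h3 := tendsto_nhds_unique hlim2 tendsto_const_nhds
  have h4 := hconst k
  linarith

/-- generators: vectors -/
noncomputable def ga (n k : ℕ) : X1 := (e (n, k) + e (n, k + 1), 0)

/-- generators: functionals -/
noncomputable def gs (n k : ℕ) : D1 := (ev (n, k) - ev (n, k + 1)).comp (ContinuousLinearMap.fst ℝ X0 ℝ)

lemma gs_apply (n k : ℕ) (x : X1) : gs n k x = x.1 (n, k) - x.1 (n, k + 1) := rfl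

lemma apply_ga (f : D1) (n k : ℕ) : f (ga n k) = cf f (n, k) + cf f (n, k + 1) := by
  unfold cf ga
  rw [← map_add]
  simp

lemma th_gs (n k : ℕ) : th (gs n k) = 0 := by
  unfold th; rw [gs_apply]; simp

lemma tl_gs (n k n' j : ℕ) : tl (gs n k) n' j = if n' = n ∧ j = k + 1 then -1 else 0 := by
  refine tl_unique (gs n k) n' (fun j => if n' = n ∧ j = k + 1 then -1 else 0) ?_ ?_ j
  · intro j
    simp only [cf, gs_apply, e_apply, Prod.mk.injEq]
    by_cases hn : n' = n
    · subst hn
      simp only [true_and]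
      by_cases h1 : j = k + 1
      · subst h1; simp
      · by_cases h2 : j = k
        · subst h2; simp
        · have h3 : k ≠ j := fun h => h2 h.symm
          have h4 : k + 1 ≠ j := fun h => h1 h.symm
          simp [h1, h2, h3, h4]
    · have hn' : n ≠ n' := fun h => hn h.symm
      simp [hn, hn']
  · apply tendsto_nhds_of_eventually_eq
    filter_upwards [eventually_gt_atTop (k + 1)] with j hj
    have : j ≠ k + 1 := by omega
    simp [this]

lemma sg_gs (n k n' : ℕ) : sg (gs n k) n' = 0 := by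
  unfold sg; rw [tl_gs]; simp

lemma InW_gen (n k : ℕ) : InW (ga n k) (gs n k) := by
  intro n' j
  rw [tl_gs, tl_gs]
  change (e (n, k) + e (n, k + 1)) (n', j) = _
  change e (n, k) (n', j) + e (n, k + 1) (n', j) = _
  simp only [e_apply, Prod.mk.injEq]
  by_cases hn : n' = n
  · subst hn
    simp only [true_and]
    by_cases h1 : j = k + 1
    · subst h1; simp
    · by_cases h2 : j = k
      · subst h2; simp
      · simp [h1, h2]
  · simp [hn]

/-- existence of representatives -/
lemma exists_rep (a b : ℝ) (ν : ℕ → ℝ) (hν : Summable (fun n => |ν n|)) :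
    ∃ (x : X1) (f : D1), InW x f ∧ x.2 = a ∧ th f = b ∧ ∀ n, sg f n = ν n := by
  -- the functional
  have hsum : ∀ x : X0, Summable (fun n => ν n * x (n, 0)) := by
    intro x
    refine Summable.of_norm_bounded (g := fun n => |ν n| * ‖x‖) (hν.mul_right _) ?_
    intro n
    rw [norm_mul]
    exact mul_le_mul_of_nonneg_left (abs_apply_le x _) (abs_nonneg _)
  let L : X0 →ₗ[ℝ] ℝ :=
    { toFun := fun x => ∑' n, ν n * x (n, 0)
      map_add' := by
        intro x y
        rw [← (hsum x).tsum_add (hsum y)]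
        apply tsum_congr
        intro n
        have : (x + y) (n, 0) = x (n, 0) + y (n, 0) := rfl
        rw [this]; ring
      map_smul' := by
        intro c x
        rw [RingHom.id_apply, smul_eq_mul, ← tsum_mul_left]
        apply tsum_congr
        intro n
        have : (c • x) (n, 0) = c * x (n, 0) := rfl
        rw [this]; ring }
  have hL : ∀ x, L x = ∑' n, ν n * x (n, 0) := fun x => rfl
  let Lc : X0 →L[ℝ] ℝ := L.mkContinuous (∑' n, |ν n|) (by
    intro x
    rw [hL, ← tsum_mul_right]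
    have h1 : Summable (fun n => ‖ν n * x (n, 0)‖) := by
      refine Summable.of_norm_bounded (g := fun n => |ν n| * ‖x‖) (hν.mul_right _) ?_
      intro n
      rw [norm_norm, norm_mul]
      exact mul_le_mul_of_nonneg_left (abs_apply_le x _) (abs_nonneg _)
    refine (norm_tsum_le_tsum_norm h1).trans ?_
    refine h1.tsum_le_tsum ?_ (hν.mul_right _)
    intro n
    rw [norm_mul]
    exact mul_le_mul_of_nonneg_left (abs_apply_le x _) (abs_nonneg _))
  have hLc : ∀ x, Lc x = ∑' n, ν n * x (n, 0) := fun x => rfl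
  let f : D1 := Lc.comp (ContinuousLinearMap.fst ℝ X0 ℝ) + b • (ContinuousLinearMap.snd ℝ X0 ℝ)
  have hf : ∀ x : X1, f x = ∑' n, ν n * x.1 (n, 0) + b * x.2 := fun x => rfl
  have hcf : ∀ n k, cf f (n, k) = if k = 0 then ν n else 0 := by
    intro n k
    unfold cf
    rw [hf]
    simp only [e_apply, Prod.mk.injEq, mul_zero, add_zero]
    by_cases hk : k = 0
    · subst hk
      simp only [and_true, if_true]
      rw [tsum_eq_single n]
      · simp
      · intro m hm
        simp [hm]
    · have hk' : ¬ (0 = k) := fun h => hk h.symm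
      simp [hk, hk']
  have htl : ∀ n j, tl f n j = if j = 0 then ν n else 0 := by
    intro n j
    refine tl_unique f n (fun j => if j = 0 then ν n else 0) ?_ ?_ j
    · intro j
      rw [hcf]
      by_cases hj : j = 0
      · subst hj; simp
      · simp [hj]
    · apply tendsto_nhds_of_eventually_eq
      filter_upwards [eventually_gt_atTop 0] with j hj
      have : j ≠ 0 := by omega
      simp [this]
  have hx0 : Tendsto (fun i : ℕ × ℕ => if i.2 = 0 then -ν i.1 else 0) cofinite (𝓝 0) := by
    have hν0 : Tendsto (fun n => |ν n|) cofinite (𝓝 0) := hν.tendsto_cofinite_zero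
    rw [Metric.tendsto_nhds]
    intro ε hε
    have h1 : ∀ᶠ n in cofinite, |ν n| < ε := hν0.eventually (gt_mem_nhds hε)
    have hfin : {n | ¬ |ν n| < ε}.Finite := h1
    have hfin2 : ((fun n : ℕ => ((n, 0) : ℕ × ℕ)) '' {n | ¬ |ν n| < ε}).Finite := hfin.image _
    have : ((fun n : ℕ => ((n, 0) : ℕ × ℕ)) '' {n | ¬ |ν n| < ε})ᶜ ∈ (cofinite : Filter (ℕ × ℕ)) :=
      hfin2.compl_mem_cofinite
    filter_upwards [this] with i hi
    rw [Real.dist_eq, sub_zero]
    by_cases h0 : i.2 = 0
    · simp only [h0, if_true, abs_neg]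
      by_contra hcon
      apply hi
      refine ⟨i.1, hcon, ?_⟩
      ext <;> simp [h0]
    · simp [h0, hε]
  refine ⟨(mk0 _ hx0, a), f, ?_, rfl, ?_, ?_⟩
  · intro n k
    rw [htl, htl]
    change mk0 _ hx0 (n, k) = _
    rw [mk0_apply]
    by_cases hk : k = 0
    · subst hk; simp
    · simp [hk]
  · unfold th
    rw [hf]; simp
  · intro n
    unfold sg
    rw [htl]; simp

end Pool.Agent.H784R3
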