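import Pool.Agent.H784R3.Seq

set_option autoImplicit false

open scoped BigOperators Topology
open Filter

namespace Pool.Agent.H784R3

/-- pairs with vanishing block sums and vanishing last coordinates -/
def SS : Submodule ℝ (X1 × D1) where
  carrier := {p | InW p.1 p.2 ∧ p.1.2 = 0 ∧ th p.2 = 0 ∧ ∀ n, sg p.2 n = 0}
  zero_mem' := by
    refine ⟨?_, rfl, rfl, ?_⟩
    · intro n k
      have h1 : ∀ k, tl (0 : D1) n k = 0 := fun k => by
        have := tl_smul 0 (0 : D1) n k
        rw [zero_smul, zero_mul] at this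
        exact this
      change (0 : ℝ) = -(tl (0 : D1) n k + tl (0 : D1) n (k + 1))
      rw [h1, h1]; ring
    · intro n
      have := tl_smul 0 (0 : D1) n 0
      rw [zero_smul, zero_mul] at this
      exact this
  add_mem' := by
    rintro p q ⟨h1, h2, h3, h4⟩ ⟨h1', h2', h3', h4'⟩
    refine ⟨h1.add h1', ?_, ?_, ?_⟩
    · change p.1.2 + q.1.2 = 0
      rw [h2, h2']; ring
    · change th (p.2 + q.2) = 0
      rw [th_add, h3, h3']; ring
    · intro n
      change sg (p.2 + q.2) n = 0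
      rw [sg_add, h4, h4']; ring
  smul_mem' := by
    rintro c p ⟨h1, h2, h3, h4⟩
    refine ⟨h1.smul c, ?_, ?_, ?_⟩
    · change c * p.1.2 = 0
      rw [h2]; ring
    · change th (c • p.2) = 0
      rw [th_smul, h3]; ring
    · intro n
      change sg (c • p.2) n = 0
      rw [sg_smul, h4]; ring

lemma gen_mem (n k : ℕ) : (ga n k, gs n k) ∈ SS :=
  ⟨InW_gen n k, rfl, th_gs n k, fun m => sg_gs n k m⟩

lemma SS_self {a : X1} {b : D1} (h : (a, b) ∈ SS) : b a = 0 := by
  obtain ⟨h1, h2, h3, h4⟩ := h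
  simp only at h1 h2 h3 h4
  rw [pairing h1, h2, h3]
  simp only [h4]
  simp

lemma SS_cross {a : X1} {b : D1} (h : (a, b) ∈ SS) {w : X1} {f : D1} (hw : InW w f) :
    b w + f a = 0 := by
  have h0 := SS_self h
  obtain ⟨h1, h2, h3, h4⟩ := h
  simp only at h1 h2 h3 h4
  have e1 := pairing (hw.add h1)
  have e2 := pairing hw
  have e3 : (w + a).2 = w.2 := by
    change w.2 + a.2 = w.2
    rw [h2]; ring
  have e4 : th (f + b) = th f := by rw [th_add, h3]; ring
  have e5 : ∀ n, sg (f + b) n = sg f n := fun n => by rw [sg_add, h4]; ring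
  rw [e3, e4] at e1
  simp only [e5] at e1
  rw [← e2] at e1
  have e6 : (f + b) (w + a) = f w + f a + (b w + b a) := by
    have : (f + b) (w + a) = f (w + a) + b (w + a) := rfl
    rw [this, map_add, map_add]
  rw [e6, h0] at e1
  linarith

/-- the first projection of `SS` -/
noncomputable def DD : Submodule ℝ X0 :=
  SS.map ((LinearMap.fst ℝ X0 ℝ).comp (LinearMap.fst ℝ X1 D1))

lemma gen_mem_DD (n k : ℕ) : e (n, k) + e (n, k + 1) ∈ DD :=
  ⟨(ga n k, gs n k), gen_mem n k, rfl⟩

lemma DD_dense : Dense (DD : Set X0) := by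
  rw [dense_iff_closure_eq]
  by_contra hne
  obtain ⟨x, hx⟩ := (Set.ne_univ_iff_exists_notMem _).1 hne
  have hconv : Convex ℝ (closure (DD : Set X0)) := DD.convex.closure
  obtain ⟨f, u, hf1, hf2⟩ := geometric_hahn_banach_closed_point hconv isClosed_closure hx
  have hf0 : ∀ a ∈ DD, f a = 0 := by
    intro a ha
    by_contra hfa
    have h1 := hf1 (((u + 1) / f a) • a) (subset_closure (DD.smul_mem _ ha))
    rw [map_smul, smul_eq_mul, div_mul_cancel₀ _ hfa] at h1
    linarith
  have hu : 0 < u := by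
    have := hf1 0 (subset_closure DD.zero_mem)
    rwa [map_zero] at this
  set g : D1 := f.comp (ContinuousLinearMap.fst ℝ X0 ℝ) with hg
  have hcf : ∀ i, cf g i = f (e i) := fun i => rfl
  have hcf1 : ∀ n k, cf g (n, k) + cf g (n, k + 1) = 0 := by
    intro n k
    rw [hcf, hcf, ← map_add]
    exact hf0 _ (gen_mem_DD n k)
  have habs : ∀ n k, |cf g (n, k)| = |cf g (n, 0)| := by
    intro n k
    induction k with
    | zero => rfl
    | succ k ih =>
      rw [← ih]
      have := hcf1 n k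
      have h2 : cf g (n, k + 1) = - cf g (n, k) := by linarith
      rw [h2, abs_neg]
  have hzero : ∀ n, cf g (n, 0) = 0 := by
    intro n
    have h1 := (summable_abs_row g n 0).tendsto_atTop_zero
    have h2 : Tendsto (fun _ : ℕ => |cf g (n, 0)|) atTop (𝓝 0) := by
      refine h1.congr fun k => ?_
      rw [zero_add]; exact habs n k
    have h3 := tendsto_nhds_unique h2 tendsto_const_nhds
    exact abs_eq_zero.1 h3.symm
  have hall : ∀ i, cf g i = 0 := by
    rintro ⟨n, k⟩
    have h1 := habs n k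
    rw [hzero n, abs_zero] at h1
    exact abs_eq_zero.1 h1
  have h4 := hasSum_apply g (x, 0)
  have h5 : (fun i => (x, (0:ℝ)).1 i * cf g i) = fun _ => 0 := by
    funext i
    rw [hall i, mul_zero]
  rw [h5] at h4
  have h6 := h4.unique hasSum_zero
  have h7 : f x = 0 := by
    have : g (x, 0) = f x := rfl
    rw [this] at h6
    simpa using h6
  linarith

/-- density of representatives -/
lemma exists_rep_near (v : X0) (a b : ℝ) (ν : ℕ → ℝ) (hν : Summable (fun n => |ν n|)) {ε : ℝ}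
    (hε : 0 < ε) :
    ∃ (x : X1) (f : D1), InW x f ∧ x.2 = a ∧ th f = b ∧ (∀ n, sg f n = ν n) ∧ ‖x.1 - v‖ < ε := by
  obtain ⟨x, f, h1, h2, h3, h4⟩ := exists_rep a b ν hν
  have hd := DD_dense (v - x.1)
  rw [Metric.mem_closure_iff] at hd
  obtain ⟨d, hd1, hd2⟩ := hd ε hε
  obtain ⟨p, hp, rfl⟩ := hd1
  obtain ⟨q1, q2, q3, q4⟩ := hp
  refine ⟨x + p.1, f + p.2, h1.add q1, ?_, ?_, ?_, ?_⟩
  · change x.2 + p.1.2 = a
    rw [q2, h2]; ring
  · rw [th_add, q3, h3]; ring
  · intro n
    rw [sg_add, q4, h4]; ring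
  · rw [dist_eq_norm] at hd2
    have : (x + p.1).1 - v = -(v - x.1 - p.1.1) := by
      change x.1 + p.1.1 - v = _
      abel
    rw [this, norm_neg]
    exact hd2

/-- functional extension -/
lemma exists_functional {z : X1} {g : D1} {C : ℝ} (hC : 0 ≤ C)
    (h : ∀ a b, (a, b) ∈ SS → b z + g a ≤ C * ‖a‖) :
    ∃ k : D1, ∀ a b, (a, b) ∈ SS → k a = b z + g a := by
  let Lf : X1 × D1 →ₗ[ℝ] ℝ :=
    { toFun := fun p => p.2 z + g p.1
      map_add' := by
        intro p q
        change (p.2 + q.2) z + g (p.1 + q.1) = _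
        have : (p.2 + q.2) z = p.2 z + q.2 z := rfl
        rw [this, map_add]; ring
      map_smul' := by
        intro c p
        change (c • p.2) z + g (c • p.1) = c * (p.2 z + g p.1)
        have : (c • p.2) z = c * p.2 z := rfl
        rw [this, map_smul, smul_eq_mul]; ring }
  let P : (X1 × D1) →ₗ.[ℝ] ℝ := ⟨SS, Lf.domRestrict SS⟩
  obtain ⟨G, hG1, hG2⟩ := exists_extension_of_le_sublinear P (fun p => C * ‖p.1‖)
    (by
      intro c hc p
      change C * ‖c • p.1‖ = c * (C * ‖p.1‖)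
      rw [norm_smul, Real.norm_of_nonneg hc.le]; ring)
    (by
      intro p q
      change C * ‖p.1 + q.1‖ ≤ C * ‖p.1‖ + C * ‖q.1‖
      have := mul_le_mul_of_nonneg_left (norm_add_le p.1 q.1) hC
      linarith)
    (by
      rintro ⟨⟨a, b⟩, hab⟩
      exact h a b hab)
  have hG0 : ∀ b : D1, G (0, b) = 0 := by
    intro b
    have h1 : ∀ b : D1, G (0, b) ≤ 0 := by
      intro b
      have := hG2 (0, b)
      simpa using this
    have h2 := h1 ((-1 : ℝ) • b)
    have h3 : ((0, (-1 : ℝ) • b) : X1 × D1) = (-1 : ℝ) • ((0, b) : X1 × D1) := by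
      rw [Prod.smul_mk, smul_zero]
    rw [h3, map_smul, smul_eq_mul] at h2
    linarith [h1 b]
  let k0 : X1 →ₗ[ℝ] ℝ := G.comp (LinearMap.inl ℝ X1 D1)
  let k : D1 := k0.mkContinuous C (by
    intro x
    have e1 : k0 x = G (x, 0) := rfl
    have e2 := hG2 (x, 0)
    have e3 := hG2 ((-1 : ℝ) • x, 0)
    have e4 : (((-1 : ℝ) • x, 0) : X1 × D1) = (-1 : ℝ) • ((x, 0) : X1 × D1) := by
      refine Prod.ext rfl ?_
      exact (smul_zero (-1 : ℝ)).symm
    simp only [norm_smul, norm_neg, norm_one, one_mul] at e3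
    rw [e4, map_smul, smul_eq_mul] at e3
    simp only at e2
    rw [e1, Real.norm_eq_abs, abs_le]
    constructor <;> linarith)
  refine ⟨k, fun a b hab => ?_⟩
  have e1 : k a = G (a, 0) := rfl
  have e2 : G (a, b) = G (a, 0) + G (0, b) := by
    rw [← map_add]; simp
  have e3 : G (a, b) = b z + g a := hG1 ⟨(a, b), hab⟩
  rw [e1, ← e3, e2, hG0]; ring

end Pool.Agent.H784R3
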