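import Pool.Agent.H784R3.Two

set_option autoImplicit false

open scoped BigOperators Topology
open Filter

namespace Pool.Agent.H784R3

/-- second coordinate functional -/
noncomputable def sn : D1 := ContinuousLinearMap.snd ℝ X0 ℝ

@[simp] lemma sn_apply (x : X1) : sn x = x.2 := rfl

/-- the rank one operator `x ↦ x.2 • sn` -/
noncomputable def LL : X1 →L[ℝ] (X1 →L[ℝ] ℝ) := sn.smulRight sn

lemma LL_apply (x : X1) : LL x = x.2 • sn := rfl

lemma LL_apply2 (x y : X1) : LL x y = x.2 * y.2 := rfl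

/-- the test sequence -/
noncomputable def ss : ℕ → ℝ
  | 0 => 0
  | (n + 1) => GG 1 n

lemma summable_ss : Summable (fun n => |ss n|) := by
  rw [← summable_nat_add_iff 1]
  exact summable_abs_GG one_pos

lemma ss_dist (z : ℝ) (hz : 1 < |z|) : ∑' n, (ss n - FF z n) ^ 2 ≤ 2 * z ^ 2 := by
  have hs : Summable (fun n => (ss (n + 1) - FF z (n + 1)) ^ 2) :=
    summable_GG_sq 1 (|z| - 1)
  rw [tsum_shift hs]
  have h1 : ∑' n, (ss (n + 1) - FF z (n + 1)) ^ 2 ≤ (1 - (|z| - 1)) ^ 2 :=
    tsum_GG_sq 1 (|z| - 1)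
  have h2 : (ss 0 - FF z 0) ^ 2 ≤ 1 := by
    rw [FF_zero]
    change (0 - (SignType.sign z : ℝ)) ^ 2 ≤ 1
    rcases lt_trichotomy z 0 with h | h | h
    · simp [sign_neg h]
    · simp [h]
    · simp [sign_pos h]
  have h3 : z ^ 2 = |z| ^ 2 := (sq_abs z).symm
  rw [h3]
  nlinarith

/-- a point related to `B2 + LL` over the hyperplane `ζ = 0`. -/
lemma exists_bad : ∃ (z : X1) (w : D1), z.2 = 0 ∧
    ∀ (y : X1) (v : D1), v ∈ B2 y → 0 ≤ (w - (LL y + v)) (z - y) := by
  obtain ⟨z, w, hW, hz, hw, hs⟩ := exists_rep 0 0 ss summable_ss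
  refine ⟨z, w, hz, ?_⟩
  intro y v hv
  obtain ⟨h1, h2, h3, h4⟩ := B2_data hv
  have h5 : (w - (LL y + v)) (z - y) = (w - v) (z - y) - LL y (z - y) := by
    have : w - (LL y + v) = (w - v) - LL y := by abel
    rw [this]; rfl
  rw [h5, pairing_sub hW h1, LL_apply2, hz, hw, h3, h4]
  have h6 : (z - y).2 = - y.2 := by
    change z.2 - y.2 = _
    rw [hz]; ring
  rw [h6]
  have h7 : ∑' n, (sg w n - FF y.2 n) ^ 2 ≤ 2 * y.2 ^ 2 := by
    have := ss_dist y.2 h2
    simpa only [hs] using this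
  nlinarith

lemma B2_empty {z : X1} (hz : |z.2| ≤ 1) (u : D1) : u ∉ B2 z := by
  intro h
  have := B2_dom ⟨u, h⟩
  linarith

/-- the rank one operator as a set valued map -/
noncomputable def LS (x : X1) : Set D1 := {LL x}

lemma LS_mono : ∀ (x y : X1) (f g : D1), f ∈ LS x → g ∈ LS y → 0 ≤ (f - g) (x - y) := by
  intro x y f g hf hg
  rw [LS, Set.mem_singleton_iff] at hf hg
  subst hf hg
  have h1 : (LL x - LL y) (x - y) = (x.2 - y.2) * (x.2 - y.2) := by
    have h2 : (LL x - LL y) (x - y) = LL x (x - y) - LL y (x - y) := rfl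
    rw [h2, LL_apply2, LL_apply2]
    have h3 : (x - y).2 = x.2 - y.2 := rfl
    rw [h3]; ring
  rw [h1]
  exact mul_self_nonneg _

lemma LS_max : ∀ (x : X1) (f : D1),
    (∀ (y : X1) (g : D1), g ∈ LS y → 0 ≤ (f - g) (x - y)) → f ∈ LS x := by
  intro x f h
  rw [LS, Set.mem_singleton_iff]
  refine ContinuousLinearMap.ext fun d => ?_
  have h1 : ∀ s : ℝ, 0 ≤ s * (f d - LL x d) + s ^ 2 * (d.2 * d.2) := by
    intro s
    have h2 := h (x - s • d) (LL (x - s • d)) rfl
    have h3 : x - (x - s • d) = s • d := by abel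
    rw [h3] at h2
    have h4 : (f - LL (x - s • d)) (s • d) = s * (f d - LL x d) + s ^ 2 * (d.2 * d.2) := by
      have h5 : (f - LL (x - s • d)) (s • d) = f (s • d) - LL (x - s • d) (s • d) := rfl
      rw [h5, map_smul, LL_apply2, LL_apply2]
      have h6 : (x - s • d).2 = x.2 - s * d.2 := rfl
      have h7 : (s • d).2 = s * d.2 := rfl
      rw [h6, h7, smul_eq_mul]
      ring
    rw [h4] at h2
    exact h2
  -- a quadratic with zero constant term that is nonnegative has zero linear term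
  have h8 : f d - LL x d = 0 := by
    by_contra hne
    set A := f d - LL x d with hA
    set C := d.2 * d.2 with hC
    have hC0 : 0 ≤ C := mul_self_nonneg _
    have h9 := h1 (-A / (C + 1))
    have h10 : -A / (C + 1) * A + (-A / (C + 1)) ^ 2 * C = -(A ^ 2) / (C + 1) ^ 2 := by
      have : C + 1 ≠ 0 := by positivity
      field_simp
      ring
    rw [h10] at h9
    have h11 : 0 < A ^ 2 / (C + 1) ^ 2 := by positivity
    rw [neg_div] at h9
    linarith
  linarith

end Pool.Agent.H784R3
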