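import Pool.Agent.H784R3.One

set_option autoImplicit false

open scoped BigOperators Topology
open Filter

namespace Pool.Agent.H784R3

/-- second coordinate functional -/
noncomputable def sn' : D1 := ContinuousLinearMap.snd ℝ X0 ℝ

lemma sn'_apply (x : X1) : sn' x = x.2 := rfl

/-- the normal cone operator of the half space `ζ ≤ 0` -/
noncomputable def NC (x : X1) : Set D1 := {f | x.2 ≤ 0 ∧ ∃ c : ℝ, 0 ≤ c ∧ c * x.2 = 0 ∧ f = c • sn'}

lemma NC_mono : ∀ (x y : X1) (f g : D1), f ∈ NC x → g ∈ NC y → 0 ≤ (f - g) (x - y) := by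
  rintro x y f g ⟨hx, c, hc, hcx, rfl⟩ ⟨hy, d, hd, hdy, rfl⟩
  have h1 : (c • sn' - d • sn') (x - y) = (c - d) * (x.2 - y.2) := by
    change c * (x.2 - y.2) - d * (x.2 - y.2) = _
    ring
  rw [h1]
  nlinarith [mul_nonneg hc (neg_nonneg.2 hy), mul_nonneg hd (neg_nonneg.2 hx)]

lemma NC_max : ∀ (x : X1) (f : D1),
    (∀ (y : X1) (g : D1), g ∈ NC y → 0 ≤ (f - g) (x - y)) → f ∈ NC x := by
  intro z g h
  have h0 : ∀ x : X1, x.2 ≤ 0 → 0 ≤ g (z - x) := by
    intro x hx
    have := h x 0 ⟨hx, 0, le_refl 0, by ring, by rw [zero_smul]⟩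
    have e1 : (g - 0) (z - x) = g (z - x) - 0 := rfl
    rw [e1, sub_zero] at this
    exact this
  have hz : z.2 ≤ 0 := by
    by_contra hcon
    push Not at hcon
    have hgz := h0 0 (le_refl 0)
    rw [sub_zero] at hgz
    have := h 0 (((g z + 1) / z.2) • sn') ⟨le_refl 0, (g z + 1) / z.2, by positivity, by simp, rfl⟩
    have e1 : (g - ((g z + 1) / z.2) • sn') (z - 0) = g (z - 0) - ((g z + 1) / z.2) * (z - 0).2 := rfl
    rw [e1, sub_zero, div_mul_cancel₀ _ hcon.ne'] at this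
    linarith
  have hpos : ∀ d : X1, 0 ≤ d.2 → 0 ≤ g d := by
    intro d hd
    have := h0 (z - d) (by
      change z.2 - d.2 ≤ 0
      linarith)
    have e1 : z - (z - d) = d := by abel
    rwa [e1] at this
  have hfst : ∀ u : X0, g (u, 0) = 0 := by
    intro u
    have h1 := hpos (u, 0) (le_refl 0)
    have h2 := hpos ((-1 : ℝ) • u, 0) (le_refl 0)
    have e1 : (((-1 : ℝ) • u, 0) : X1) = (-1 : ℝ) • (u, 0) := by
      refine Prod.ext rfl ?_
      exact (smul_zero (-1 : ℝ)).symm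
    rw [e1, map_smul, smul_eq_mul] at h2
    linarith
  have hc : 0 ≤ th g := hpos (0, 1) zero_le_one
  have hg : ∀ x : X1, g x = th g * x.2 := by
    intro x
    have h3 : x = (x.1, (0:ℝ)) + x.2 • ((0, 1) : X1) := by
      ext1 <;> simp
    have h4 : g x = g (x.1, 0) + x.2 * th g := by
      conv_lhs => rw [h3]
      rw [map_add, map_smul]; rfl
    rw [h4, hfst]; ring
  refine ⟨hz, th g, hc, ?_, ?_⟩
  · have h1 := h0 (z.1, 0) (le_refl 0)
    rw [hg] at h1
    have e1 : (z - (z.1, (0:ℝ))).2 = z.2 := by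
      change z.2 - 0 = z.2
      ring
    rw [e1] at h1
    nlinarith [mul_nonneg hc (neg_nonneg.2 hz)]
  · refine ContinuousLinearMap.ext fun x => ?_
    rw [hg]; rfl

end Pool.Agent.H784R3
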