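import Pool.Agent.H784R3.Dens

set_option autoImplicit false

open scoped BigOperators Topology
open Filter

namespace Pool.Agent.H784R3

/-- the curve on `ζ ≠ 0` -/
noncomputable def F1 (z : ℝ) (n : ℕ) : ℝ := GG |z| n

/-- the reduced graph -/
def M1 : Set Q := {p | p.1 ≠ 0 ∧ p.2.1 = p.1 ∧ p.2.2 = F1 p.1}

lemma summable_F1 {z : ℝ} (hz : z ≠ 0) : Summable (fun n => |F1 z n|) :=
  summable_abs_GG (abs_pos.2 hz)

lemma M1_summable : ∀ p ∈ M1, Summable (fun n => |p.2.2 n|) := by
  rintro ⟨a, b, ν⟩ ⟨h1, h2, h3⟩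
  simp only at h1 h2 h3
  subst h3
  exact summable_F1 h1

lemma mem_M1 {z : ℝ} (hz : z ≠ 0) : ((z, z, F1 z) : Q) ∈ M1 := ⟨hz, rfl, rfl⟩

lemma M1_nonempty : M1.Nonempty := ⟨(2, 2, F1 2), mem_M1 (by norm_num)⟩

lemma F1_dist (z w : ℝ) : ∑' n, (F1 z n - F1 w n) ^ 2 ≤ (z - w) ^ 2 := by
  have h1 : ∑' n, (F1 z n - F1 w n) ^ 2 ≤ (|z| - |w|) ^ 2 := tsum_GG_sq |z| |w|
  have h2 : (|z| - |w|) ^ 2 ≤ (z - w) ^ 2 := by
    rw [← sq_abs (z - w), ← sq_abs (|z| - |w|)]
    exact pow_le_pow_left₀ (abs_nonneg _) (abs_abs_sub_abs_le_abs_sub z w) 2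
  linarith

lemma M1_mono : ∀ p ∈ M1, ∀ q ∈ M1, Rel p q := by
  rintro ⟨a, b, ν⟩ ⟨h1, h2, h3⟩ ⟨a', b', ν'⟩ ⟨h1', h2', h3'⟩
  simp only at h1 h2 h3 h1' h2' h3'
  subst h3 h3' h2 h2'
  unfold Rel
  simp only
  rw [← sq]
  exact F1_dist _ _

lemma summable_sq_sub' {u v : ℕ → ℝ} (hu : Summable (fun n => |u n|))
    (hv : Summable (fun n => |v n|)) : Summable (fun n => (u n - v n) ^ 2) := by
  apply summable_sq_of_summable_abs
  refine Summable.of_nonneg_of_le (fun n => abs_nonneg _) (fun n => ?_) (hu.add hv)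
  exact abs_sub (u n) (v n)

lemma eq_of_tsum_sq {u v : ℕ → ℝ} (hs : Summable (fun n => (u n - v n) ^ 2))
    (h : ∑' n, (u n - v n) ^ 2 ≤ 0) : u = v := by
  funext n
  have h8 : (u n - v n) ^ 2 ≤ ∑' n, (u n - v n) ^ 2 := hs.le_tsum n (fun m _ => sq_nonneg _)
  have h9 := pow_eq_zero_iff (two_ne_zero) |>.1 (le_antisymm (h8.trans h) (sq_nonneg (u n - v n)))
  linarith

lemma M1_max : ∀ q : Q, Summable (fun n => |q.2.2 n|) → (∀ p ∈ M1, Rel q p) → q ∈ M1 := by
  rintro ⟨a, b, s⟩ hs hrel
  simp only at hs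
  have key : ∀ z : ℝ, z ≠ 0 → ∑' n, (s n - F1 z n) ^ 2 ≤ (a - z) * (b - z) := by
    intro z hz
    exact hrel (z, z, F1 z) (mem_M1 hz)
  have hsum : ∀ z : ℝ, z ≠ 0 → Summable (fun n => (s n - F1 z n) ^ 2) := by
    intro z hz
    exact summable_sq_sub' hs (summable_F1 hz)
  have fact : ∀ z, (a - z) * (b - z) = ((a + b) / 2 - z) ^ 2 - ((a - b) / 2) ^ 2 := by
    intro z; ring
  rcases ne_or_eq ((a + b) / 2) 0 with hx | hx
  · have h1 := key _ hx
    rw [fact] at h1
    have h2 : 0 ≤ ∑' n, (s n - F1 ((a + b) / 2) n) ^ 2 := tsum_nonneg fun n => sq_nonneg _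
    have h3 : ((a - b) / 2) ^ 2 ≤ 0 := by nlinarith
    have h4 : (a - b) / 2 = 0 := by
      have := sq_nonneg ((a - b) / 2)
      exact pow_eq_zero_iff (two_ne_zero) |>.1 (le_antisymm h3 this)
    have h5 : a = b := by linarith
    subst h5
    have h6 : (a + a) / 2 = a := by ring
    rw [h6] at h1 h2 hx
    have h7 : ∑' n, (s n - F1 a n) ^ 2 ≤ 0 := by
      rw [sub_self] at h1
      simpa using h1
    exact ⟨hx, rfl, eq_of_tsum_sq (hsum a hx) h7⟩
  · exfalso
    obtain ⟨n, hn⟩ := not_summable_of_eq_al hs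
    have hR : 0 < (s n - al n) ^ 2 := by
      have : s n - al n ≠ 0 := sub_ne_zero.2 hn
      positivity
    have hp : (s n - al n) ^ 2 ≤ 0 := by
      have := lim_le (f := fun t => (s n - GG t n) ^ 2)
        (g := fun t => (0 - t) ^ 2)
        (by have := GG_continuous n; fun_prop) (by fun_prop) (by
          intro t ht
          have h1 := key t ht.ne'
          rw [fact, hx] at h1
          have h2 : (s n - F1 t n) ^ 2 ≤ ∑' n, (s n - F1 t n) ^ 2 :=
            (hsum t ht.ne').le_tsum n (fun m _ => sq_nonneg _)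
          have h3 : F1 t n = GG t n := by
            unfold F1; rw [abs_of_pos ht]
          rw [h3] at h2
          nlinarith [sq_nonneg ((a - b) / 2)])
      simpa [GG_zero] using this
    linarith

/-- The second example: domain dense in the whole space, of type (FPV). -/
noncomputable def B1 : X1 → Set D1 := Op M1

lemma B1_mono : ∀ (x y : X1) (f g : D1), f ∈ B1 x → g ∈ B1 y → 0 ≤ (f - g) (x - y) :=
  op_mono M1_mono

lemma B1_max : ∀ (x : X1) (f : D1),
    (∀ (y : X1) (g : D1), g ∈ B1 y → 0 ≤ (f - g) (x - y)) → f ∈ B1 x :=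
  op_max M1_summable M1_nonempty M1_max

lemma B1_data {x : X1} {f : D1} (h : f ∈ B1 x) :
    InW x f ∧ x.2 ≠ 0 ∧ th f = x.2 ∧ sg f = F1 x.2 := ⟨h.1, h.2.1, h.2.2.1, h.2.2.2⟩

lemma mem_B1 {x : X1} {f : D1} (h1 : InW x f) (h2 : x.2 ≠ 0) (h3 : th f = x.2)
    (h4 : sg f = F1 x.2) : f ∈ B1 x := ⟨h1, h2, h3, h4⟩

lemma B1_exists_near (v : X0) {z : ℝ} (hz : z ≠ 0) {ε : ℝ} (hε : 0 < ε) :
    ∃ (x : X1) (f : D1), f ∈ B1 x ∧ x.2 = z ∧ ‖x.1 - v‖ < ε := by
  obtain ⟨x, f, h1, h2, h3, h4, h5⟩ := exists_rep_near v z z (F1 z) (summable_F1 hz) hε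
  refine ⟨x, f, mem_B1 h1 (by rw [h2]; exact hz) (by rw [h3, h2]) ?_, h2, h5⟩
  rw [h2]; exact funext h4

lemma SS_add {x : X1} {f : D1} (h : f ∈ B1 x) {a : X1} {b : D1} (hab : (a, b) ∈ SS) :
    f + b ∈ B1 (x + a) := by
  obtain ⟨h1, h2, h3, h4⟩ := B1_data h
  obtain ⟨q1, q2, q3, q4⟩ := hab
  simp only at q1 q2 q3 q4
  have e1 : (x + a).2 = x.2 := by
    change x.2 + a.2 = x.2
    rw [q2]; ring
  refine mem_B1 (h1.add q1) (by rw [e1]; exact h2) ?_ ?_
  · rw [th_add, q3, h3, e1]; ring
  · rw [e1, ← h4]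
    funext n
    rw [sg_add, q4]; ring

/-- local maximality: the key estimate -/
lemma B1_local {z : X1} {g : D1} {r : ℝ} (hr : 0 < r)
    (h : ∀ (y : X1) (f : D1), f ∈ B1 y → ‖y - z‖ < r → 0 ≤ (g - f) (z - y)) : g ∈ B1 z := by
  -- choose a nearby point of the graph
  obtain ⟨ζ, hζ0, hζ1⟩ : ∃ ζ : ℝ, ζ ≠ 0 ∧ |ζ - z.2| < r / 2 := by
    by_cases hz : z.2 = 0
    · refine ⟨r / 4, by positivity, ?_⟩
      rw [hz, sub_zero, abs_of_pos (by positivity)]; linarith
    · exact ⟨z.2, hz, by rw [sub_self, abs_zero]; positivity⟩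
  obtain ⟨w, f, hf, hw1, hw2⟩ := B1_exists_near z.1 hζ0 (ε := r / 2) (by positivity)
  have hwz : ‖w - z‖ < r / 2 := by
    rw [Prod.norm_def]
    apply max_lt
    · exact hw2
    · change |w.2 - z.2| < r / 2
      rw [hw1]; exact hζ1
  set C0 := (g - f) (z - w) with hC0
  have hC0n : 0 ≤ C0 := h w f hf (by linarith)
  have hbound : ∀ a b, (a, b) ∈ SS → ‖a‖ < r / 2 → b z + g a ≤ C0 := by
    intro a b hab ha
    have h1 := h (w + a) (f + b) (SS_add hf hab) (by
      have : w + a - z = (w - z) + a := by abel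
      rw [this]
      exact (norm_add_le _ _).trans_lt (by linarith))
    have h2 : (g - (f + b)) (z - (w + a)) = (g - f) (z - w) - (b (z - w) + (g - f) a) + b a := by
      have e1 : g - (f + b) = (g - f) - (1 : ℝ) • b := by rw [one_smul]; abel
      have e2 : z - (w + a) = (z - w) - (1 : ℝ) • a := by rw [one_smul]; abel
      rw [e1, e2, expand]; ring
    have h3 := SS_self hab
    have h4 := SS_cross hab (B1_data hf).1
    have h5 : b (z - w) = b z - b w := map_sub b z w
    have h6 : (g - f) a = g a - f a := rfl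
    rw [h2, h3, h5, h6] at h1
    linarith
  have hbound2 : ∀ a b, (a, b) ∈ SS → b z + g a ≤ (4 * C0 / r) * ‖a‖ := by
    intro a b hab
    have hscale : ∀ t : ℝ, ‖t • a‖ < r / 2 → t * (b z + g a) ≤ C0 := by
      intro t ht
      have h1 := hbound (t • a) (t • b) (SS.smul_mem t hab) ht
      have h2 : (t • b) z = t * b z := rfl
      have h3 : g (t • a) = t * g a := by rw [map_smul, smul_eq_mul]
      rw [h2, h3] at h1
      linarith
    rcases eq_or_lt_of_le (norm_nonneg a) with h0 | h0
    · have h1 : ∀ t : ℝ, t * (b z + g a) ≤ C0 := by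
        intro t
        apply hscale
        rw [norm_smul, ← h0, mul_zero]; positivity
      rw [← h0, mul_zero]
      by_contra hcon
      push Not at hcon
      have h2 := h1 ((C0 + 1) / (b z + g a))
      rw [div_mul_cancel₀ _ hcon.ne'] at h2
      linarith
    · have h1 := hscale ((r / 4) / ‖a‖) (by
        rw [norm_smul, Real.norm_of_nonneg (by positivity), div_mul_cancel₀ _ h0.ne']
        linarith)
      rw [div_mul_eq_mul_div, div_le_iff₀ h0] at h1
      have h2 : b z + g a = (4 / r) * (r / 4 * (b z + g a)) := by field_simp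
      rw [h2]
      calc (4 / r) * (r / 4 * (b z + g a)) ≤ (4 / r) * (C0 * ‖a‖) :=
            mul_le_mul_of_nonneg_left h1 (by positivity)
        _ = 4 * C0 / r * ‖a‖ := by ring
  obtain ⟨k0, hk0⟩ := exists_functional (by positivity) hbound2
  -- restrict the functional to the first factor
  set k : D1 := (k0.comp (ContinuousLinearMap.inl ℝ X0 ℝ)).comp (ContinuousLinearMap.fst ℝ X0 ℝ)
    with hk
  have hkapp : ∀ x : X1, k x = k0 (x.1, 0) := fun x => rfl
  have hkS : ∀ a b, (a, b) ∈ SS → k a = b z + g a := by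
    intro a b hab
    rw [← hk0 a b hab, hkapp]
    have : a = (a.1, 0) := by
      ext1
      · rfl
      · exact hab.2.1
    rw [← this]
  have hthk : th k = 0 := by
    unfold th
    rw [hkapp]
    exact map_zero k0
  have hW : InW z (g - k) := by
    apply InW_of_gen
    intro n j
    have h1 := hkS _ _ (gen_mem n j)
    rw [gs_apply, apply_ga, apply_ga] at h1
    rw [cf_sub, cf_sub]
    linarith
  have hthg : th (g - k) = th g := by rw [th_sub, hthk, sub_zero]
  -- main inequality
  have main : ∀ (ζ : ℝ) (v : X0), ζ ≠ 0 → |ζ - z.2| < r → ‖v - z.1‖ < r →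
      ∑' n, (sg (g - k) n - F1 ζ n) ^ 2 ≤ (z.2 - ζ) * (th g - ζ) + k (z.1 - v, 0) := by
    intro ζ v hζ hζr hv
    refine le_of_forall_pos_le_add fun ε hε => ?_
    have hk1 : 0 < ‖k‖ + 1 := by
      have := k.opNorm_nonneg
      linarith
    obtain ⟨w, f, hf, hw1, hw2⟩ := B1_exists_near v hζ
      (ε := min (r - ‖v - z.1‖) (ε / (‖k‖ + 1))) (lt_min (by linarith) (by positivity))
    have hw3 : ‖w.1 - v‖ < r - ‖v - z.1‖ := lt_of_lt_of_le hw2 (min_le_left _ _)
    have hw4 : ‖w.1 - v‖ < ε / (‖k‖ + 1) := lt_of_lt_of_le hw2 (min_le_right _ _)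
    have h1 := h w f hf (by
      rw [Prod.norm_def]
      apply max_lt
      · change ‖w.1 - z.1‖ < r
        have : w.1 - z.1 = (w.1 - v) + (v - z.1) := by abel
        rw [this]
        exact (norm_add_le _ _).trans_lt (by linarith)
      · change |w.2 - z.2| < r
        rw [hw1]; exact hζr)
    obtain ⟨q1, q2, q3, q4⟩ := B1_data hf
    have h2 : (g - f) (z - w) = ((g - k) - f) (z - w) + k (z - w) := by
      have : g - f = ((g - k) - f) + k := by abel
      rw [this]; rfl
    rw [h2, pairing_sub hW q1, hthg, q3, q4, hw1] at h1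
    have h3 : k (z - w) = k (z.1 - v, 0) + k (v - w.1, 0) := by
      have e0 : ∀ u u' : X0, k (u, 0) + k (u', 0) = k (u + u', 0) := by
        intro u u'
        rw [← map_add]; simp
      rw [e0, hkapp, hkapp]
      congr 2
      change z.1 - w.1 = z.1 - v + (v - w.1)
      abel
    have h4 : k (v - w.1, 0) ≤ ε := by
      refine (le_abs_self _).trans ((k.le_opNorm _).trans ?_)
      have h5 : ‖((v - w.1, 0) : X1)‖ ≤ ε / (‖k‖ + 1) := by
        rw [Prod.norm_def]
        apply max_le
        · change ‖v - w.1‖ ≤ _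
          rw [norm_sub_rev]; exact hw4.le
        · simp; positivity
      calc ‖k‖ * ‖((v - w.1, 0) : X1)‖ ≤ (‖k‖ + 1) * (ε / (‖k‖ + 1)) := by
            apply mul_le_mul (by linarith) h5 (norm_nonneg _) hk1.le
        _ = ε := by field_simp
    rw [h3] at h1
    linarith
  have hzero : ∀ ζ : ℝ, ζ ≠ 0 → |ζ - z.2| < r →
      ∑' n, (sg (g - k) n - F1 ζ n) ^ 2 ≤ (z.2 - ζ) * (th g - ζ) := by
    intro ζ hζ hζr
    have h1 := main ζ z.1 hζ hζr (by rw [sub_self, norm_zero]; exact hr)
    rw [sub_self] at h1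
    have : k ((0 : X0), (0 : ℝ)) = 0 := map_zero k
    rw [this, add_zero] at h1
    exact h1
  have hsgs : Summable (fun n => |sg (g - k) n|) := summable_abs_sg (g - k)
  by_cases hz : z.2 = 0
  · exfalso
    obtain ⟨n, hn⟩ := not_summable_of_eq_al hsgs
    have hR : 0 < (sg (g - k) n - al n) ^ 2 := by
      have : sg (g - k) n - al n ≠ 0 := sub_ne_zero.2 hn
      positivity
    have hp : (sg (g - k) n - GG (r * 0) n) ^ 2 ≤ (0 - min (r / 2) 0) * (th g - min (r / 2) 0) := by
      have := lim_le (f := fun t => (sg (g - k) n - GG (min (r / 2) t) n) ^ 2)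
        (g := fun t => (0 - min (r / 2) t) * (th g - min (r / 2) t))
        (by have := GG_continuous n; fun_prop) (by fun_prop) (by
          intro t ht
          have hm : 0 < min (r / 2) t := lt_min (by positivity) ht
          have hm2 : min (r / 2) t ≤ r / 2 := min_le_left _ _
          have h1 := hzero (min (r / 2) t) hm.ne' (by
            rw [hz, sub_zero, abs_of_pos hm]; linarith)
          rw [hz] at h1
          have h2 : (sg (g - k) n - F1 (min (r / 2) t) n) ^ 2
              ≤ ∑' n, (sg (g - k) n - F1 (min (r / 2) t) n) ^ 2 :=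
            (summable_sq_sub' hsgs (summable_F1 hm.ne')).le_tsum n (fun m _ => sq_nonneg _)
          have h3 : F1 (min (r / 2) t) n = GG (min (r / 2) t) n := by
            unfold F1; rw [abs_of_pos hm]
          rw [h3] at h2
          exact h2.trans h1)
      have hr0 : min (r / 2) 0 = 0 := min_eq_right (by positivity)
      rw [hr0] at this ⊢
      rw [mul_zero]
      simpa [hr0] using this
    have hr0 : min (r / 2) 0 = 0 := min_eq_right (by positivity)
    rw [hr0, mul_zero, GG_zero] at hp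
    linarith
  · have h1 : sg (g - k) = F1 z.2 := by
      apply eq_of_tsum_sq (summable_sq_sub' hsgs (summable_F1 hz))
      have := hzero z.2 hz (by rw [sub_self, abs_zero]; exact hr)
      rw [sub_self, zero_mul] at this
      exact this
    have hsum0 : ∀ u : X0, ‖u‖ < r → 0 ≤ k (u, 0) := by
      intro u hu
      have h2 := main z.2 (z.1 - u) hz (by rw [sub_self, abs_zero]; exact hr) (by
        have : z.1 - u - z.1 = -u := by abel
        rw [this, norm_neg]; exact hu)
      rw [h1] at h2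
      have h3 : z.1 - (z.1 - u) = u := by abel
      rw [h3] at h2
      simpa using h2
    have hk00 : k = 0 := by
      refine ContinuousLinearMap.ext fun x => ?_
      change k x = 0
      have hx : k x = k (x.1, 0) := rfl
      rw [hx]
      have hN : 0 < ‖x.1‖ + 1 := by positivity
      set t := r / 2 / (‖x.1‖ + 1) with ht
      have htpos : 0 < t := by positivity
      have hsmall : ‖t • x.1‖ < r := by
        rw [norm_smul, Real.norm_of_nonneg htpos.le, ht, div_mul_eq_mul_div, div_lt_iff₀ hN]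
        nlinarith [norm_nonneg x.1]
      have h2 := hsum0 (t • x.1) hsmall
      have h3 := hsum0 ((-t) • x.1) (by rw [norm_smul, norm_neg, ← norm_smul]; exact hsmall)
      have e1 : ∀ c : ℝ, k (c • x.1, 0) = c * k (x.1, 0) := by
        intro c
        have : ((c • x.1, 0) : X1) = c • (x.1, 0) := by
          refine Prod.ext rfl ?_
          exact (smul_zero c).symm
        rw [this, map_smul, smul_eq_mul]
      rw [e1] at h2 h3
      have h4 : 0 ≤ k (x.1, 0) := by
        by_contra hcon
        push Not at hcon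
        nlinarith
      have h5 : k (x.1, 0) ≤ 0 := by
        by_contra hcon
        push Not at hcon
        nlinarith
      linarith
    have hgk : g - k = g := by
      rw [hk00]
      refine ContinuousLinearMap.ext fun x => ?_
      change g x - 0 = g x
      ring
    rw [hgk] at h1 hW
    have hthz : ∀ ζ : ℝ, ζ ≠ 0 → |ζ - z.2| < r → 0 ≤ (z.2 - ζ) * (th g - ζ) := by
      intro ζ hζ hζr
      exact (tsum_nonneg fun n => sq_nonneg _).trans (hzero ζ hζ hζr)
    have hth : th g = z.2 := by
      have hz' : 0 < |z.2| := abs_pos.2 hz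
      -- both one sided limits
      have hA : 0 ≤ z.2 - th g := by
        by_contra hcon
        push Not at hcon
        set δ := min (min (r / 2) (|z.2| / 2)) ((th g - z.2) / 2) with hδ
        have hδ0 : 0 < δ := lt_min (lt_min (by positivity) (by positivity)) (by linarith)
        have hδ1 : δ ≤ r / 2 := (min_le_left _ _).trans (min_le_left _ _)
        have hδ2 : δ ≤ |z.2| / 2 := (min_le_left _ _).trans (min_le_right _ _)
        have hδ3 : δ ≤ (th g - z.2) / 2 := min_le_right _ _
        have hne : z.2 + δ ≠ 0 := by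
          intro h0
          have : |z.2| = δ := by
            have : z.2 = -δ := by linarith
            rw [this, abs_neg, abs_of_pos hδ0]
          linarith
        have := hthz (z.2 + δ) hne (by
          have : z.2 + δ - z.2 = δ := by ring
          rw [this, abs_of_pos hδ0]; linarith)
        nlinarith
      have hB : z.2 - th g ≤ 0 := by
        by_contra hcon
        push Not at hcon
        set δ := min (min (r / 2) (|z.2| / 2)) ((z.2 - th g) / 2) with hδ
        have hδ0 : 0 < δ := lt_min (lt_min (by positivity) (by positivity)) (by linarith)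
        have hδ1 : δ ≤ r / 2 := (min_le_left _ _).trans (min_le_left _ _)
        have hδ2 : δ ≤ |z.2| / 2 := (min_le_left _ _).trans (min_le_right _ _)
        have hδ3 : δ ≤ (z.2 - th g) / 2 := min_le_right _ _
        have hne : z.2 - δ ≠ 0 := by
          intro h0
          have : |z.2| = δ := by
            have : z.2 = δ := by linarith
            rw [this, abs_of_pos hδ0]
          linarith
        have := hthz (z.2 - δ) hne (by
          have : z.2 - δ - z.2 = -δ := by ring
          rw [this, abs_neg, abs_of_pos hδ0]; linarith)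
        nlinarith
      linarith
    exact mem_B1 hW hz hth h1

end Pool.Agent.H784R3
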