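import Mathlib

set_option autoImplicit false

open scoped BigOperators Topology
open Filter

namespace Pool.Agent.H784R3.Quad

/-- weights -/
noncomputable def kk (m : ℕ) : ℝ := 1 / (((Nat.unpair m).2 : ℝ) + 1)

/-- parent map -/
def pp (m : ℕ) : ℕ := (Nat.unpair m).1

lemma pp_le (m : ℕ) : pp m ≤ m := Nat.unpair_left_le m

lemma kk_pos (m : ℕ) : 0 < kk m := by unfold kk; positivity

lemma kk_le_one (m : ℕ) : kk m ≤ 1 := by
  unfold kk
  rw [div_le_one (by positivity)]
  have : (0 : ℝ) ≤ ((Nat.unpair m).2 : ℝ) := Nat.cast_nonneg _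
  linarith

/-- the operator `T` -/
noncomputable def TT (b : ℕ → ℝ) (m : ℕ) : ℝ := b m + kk m * b (pp m)

lemma summable_kk_mul {u : ℕ → ℝ} (hu : Summable u) (hu0 : ∀ n, 0 ≤ u n) :
    Summable (fun m => kk m ^ 2 * u (pp m)) := by
  rw [← Nat.pairEquiv.summable_iff]
  have h1 : Summable (fun j : ℕ => (1 / ((j : ℝ) + 1)) ^ 2) := by
    have h2 := (summable_nat_add_iff (f := fun n : ℕ => (1:ℝ) / (n : ℝ) ^ 2) 1).2
      (Real.summable_one_div_nat_pow.2 (by norm_num))
    refine h2.congr fun n => ?_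
    push_cast
    rw [div_pow, one_pow]
  have h3 := hu.mul_of_nonneg h1 hu0 (fun n => sq_nonneg _)
  refine h3.congr fun x => ?_
  simp only [Function.comp, Nat.pairEquiv_apply, kk, pp]
  simp only [Nat.unpair_pair, Function.uncurry]
  ring

lemma summable_TT_sq {b : ℕ → ℝ} (hb : Summable (fun n => b n ^ 2)) :
    Summable (fun n => TT b n ^ 2) := by
  have h1 := summable_kk_mul hb (fun n => sq_nonneg _)
  refine Summable.of_nonneg_of_le (fun n => sq_nonneg _) (fun n => ?_)
    ((hb.mul_left 2).add (h1.mul_left 2))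
  unfold TT
  nlinarith [sq_nonneg (b n - kk n * b (pp n))]

/-- terms of the quadratic form -/
noncomputable def qt (b : ℕ → ℝ) (m : ℕ) : ℝ := b m ^ 2 + TT b m ^ 2

/-- terms of the bilinear form -/
noncomputable def bt (b d : ℕ → ℝ) (m : ℕ) : ℝ := b m * d m + TT b m * TT d m

lemma qt_nonneg (b : ℕ → ℝ) (m : ℕ) : 0 ≤ qt b m := by unfold qt; positivity

/-- the quadratic form -/
noncomputable def q (b : ℕ → ℝ) : ℝ := ∑' m, qt b m

/-- the bilinear form -/
noncomputable def bf (b d : ℕ → ℝ) : ℝ := ∑' m, bt b d m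

lemma q_nonneg (b : ℕ → ℝ) : 0 ≤ q b := tsum_nonneg (qt_nonneg b)

lemma summable_qt {b : ℕ → ℝ} (hb : Summable (fun n => b n ^ 2)) : Summable (qt b) :=
  hb.add (summable_TT_sq hb)

lemma summable_mul_of_sq {u v : ℕ → ℝ} (hu : Summable (fun n => u n ^ 2))
    (hv : Summable (fun n => v n ^ 2)) : Summable (fun n => u n * v n) := by
  refine Summable.of_norm_bounded (g := fun n => u n ^ 2 + v n ^ 2) (hu.add hv) fun n => ?_
  rw [Real.norm_eq_abs, abs_le]
  constructor <;> nlinarith [sq_nonneg (u n + v n), sq_nonneg (u n - v n), sq_nonneg (u n), sq_nonneg (v n)]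

lemma summable_bt {b d : ℕ → ℝ} (hb : Summable (fun n => b n ^ 2))
    (hd : Summable (fun n => d n ^ 2)) : Summable (bt b d) :=
  (summable_mul_of_sq hb hd).add (summable_mul_of_sq (summable_TT_sq hb) (summable_TT_sq hd))

lemma TT_comb (b d : ℕ → ℝ) (s t : ℝ) (m : ℕ) :
    TT (fun n => s * b n + t * d n) m = s * TT b m + t * TT d m := by
  unfold TT; ring

lemma qt_comb (b d : ℕ → ℝ) (s t : ℝ) (m : ℕ) :
    qt (fun n => s * b n + t * d n) m = s ^ 2 * qt b m + 2 * s * t * bt b d m + t ^ 2 * qt d m := by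
  unfold qt bt
  rw [TT_comb]; ring

lemma q_comb {b d : ℕ → ℝ} (hb : Summable (fun n => b n ^ 2))
    (hd : Summable (fun n => d n ^ 2)) (s t : ℝ) :
    q (fun n => s * b n + t * d n) = s ^ 2 * q b + 2 * s * t * bf b d + t ^ 2 * q d := by
  unfold q bf
  rw [← tsum_mul_left, ← tsum_mul_left, ← tsum_mul_left]
  rw [← Summable.tsum_add ((summable_qt hb).mul_left _) ((summable_bt hb hd).mul_left _)]
  rw [← Summable.tsum_add (((summable_qt hb).mul_left _).add ((summable_bt hb hd).mul_left _))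
    ((summable_qt hd).mul_left _)]
  exact tsum_congr fun m => qt_comb b d s t m

/-- abstract Cauchy Schwarz -/
lemma cs_abstract {A B C s s' : ℝ} (h : ∀ t : ℝ, 0 ≤ t ^ 2 * A - 2 * t * B + C)
    (hA : A ≤ s ^ 2) (hC : C ≤ s' ^ 2) (hs : 0 ≤ s) (hs' : 0 ≤ s') : B ≤ s * s' := by
  have key : ∀ ε : ℝ, 0 < ε → B ≤ (s + ε) * (s' + ε) := by
    intro ε hε
    have h1 : 0 < s + ε := by linarith
    have h2 : 0 < s' + ε := by linarith
    have h3 := h ((s' + ε) / (s + ε))
    have hA' : A ≤ (s + ε) ^ 2 := by nlinarith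
    have hC' : C ≤ (s' + ε) ^ 2 := by nlinarith
    have h4 : ((s' + ε) / (s + ε)) ^ 2 * A ≤ (s' + ε) ^ 2 := by
      rw [div_pow, div_mul_eq_mul_div, div_le_iff₀ (by positivity)]
      nlinarith [sq_nonneg (s' + ε)]
    have h5 : 2 * ((s' + ε) / (s + ε)) * B ≤ 2 * (s' + ε) ^ 2 := by linarith
    have h6 : (s' + ε) / (s + ε) * B ≤ (s' + ε) ^ 2 := by linarith
    rw [div_mul_eq_mul_div, div_le_iff₀ h1] at h6
    have h7 : (s' + ε) * B ≤ (s' + ε) * ((s + ε) * (s' + ε)) := by
      calc (s' + ε) * B ≤ (s' + ε) ^ 2 * (s + ε) := h6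
        _ = (s' + ε) * ((s + ε) * (s' + ε)) := by ring
    exact le_of_mul_le_mul_left h7 h2
  have hlim : Tendsto (fun ε : ℝ => (s + ε) * (s' + ε)) (𝓝[>] 0) (𝓝 ((s + 0) * (s' + 0))) := by
    have : Continuous (fun ε : ℝ => (s + ε) * (s' + ε)) := by fun_prop
    exact (this.tendsto 0).mono_left nhdsWithin_le_nhds
  rw [add_zero, add_zero] at hlim
  refine ge_of_tendsto hlim ?_
  filter_upwards [self_mem_nhdsWithin] with ε hε
  exact key ε hε

lemma bf_le {b d : ℕ → ℝ} (hb : Summable (fun n => b n ^ 2))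
    (hd : Summable (fun n => d n ^ 2)) {s s' : ℝ} (h1 : q b ≤ s ^ 2) (h2 : q d ≤ s' ^ 2)
    (hs : 0 ≤ s) (hs' : 0 ≤ s') : bf b d ≤ s * s' := by
  refine cs_abstract (fun t => ?_) h1 h2 hs hs'
  have h3 := q_nonneg (fun n => t * b n + (-1) * d n)
  rw [q_comb hb hd] at h3
  linarith

/-- finite partial sums -/
lemma qK_le {b : ℕ → ℝ} (hb : Summable (fun n => b n ^ 2)) (K : ℕ) :
    ∑ m ∈ Finset.range K, qt b m ≤ q b :=
  (summable_qt hb).sum_le_tsum _ (fun m _ => qt_nonneg b m)

lemma bK_le {b d : ℕ → ℝ} (hd : Summable (fun n => d n ^ 2)) (K : ℕ) {s' : ℝ}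
    (h2 : q d ≤ s' ^ 2) (hs' : 0 ≤ s') :
    ∑ m ∈ Finset.range K, bt b d m ≤ Real.sqrt (∑ m ∈ Finset.range K, qt b m) * s' := by
  have hnn : 0 ≤ ∑ m ∈ Finset.range K, qt b m := Finset.sum_nonneg fun m _ => qt_nonneg b m
  refine cs_abstract (A := ∑ m ∈ Finset.range K, qt b m) (C := ∑ m ∈ Finset.range K, qt d m)
    (fun t => ?_) (by rw [Real.sq_sqrt hnn]) ((qK_le hd K).trans h2) (Real.sqrt_nonneg _) hs'
  have h3 : 0 ≤ ∑ m ∈ Finset.range K, qt (fun n => t * b n + (-1) * d n) m :=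
    Finset.sum_nonneg fun m _ => qt_nonneg _ m
  have h4 : ∑ m ∈ Finset.range K, qt (fun n => t * b n + (-1) * d n) m
      = t ^ 2 * (∑ m ∈ Finset.range K, qt b m) - 2 * t * (∑ m ∈ Finset.range K, bt b d m)
        + ∑ m ∈ Finset.range K, qt d m := by
    rw [Finset.mul_sum, Finset.mul_sum, ← Finset.sum_sub_distrib, ← Finset.sum_add_distrib]
    refine Finset.sum_congr rfl fun m _ => ?_
    rw [qt_comb]; ring
  rw [h4] at h3
  exact h3

/-- truncation -/
def trunc (b : ℕ → ℝ) (K : ℕ) (m : ℕ) : ℝ := if m < K then b m else 0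

lemma trunc_sq_summable (b : ℕ → ℝ) (K : ℕ) : Summable (fun n => trunc b K n ^ 2) := by
  apply summable_of_ne_finset_zero (s := Finset.range K)
  intro n hn
  rw [Finset.mem_range] at hn
  simp [trunc, hn]

lemma trunc_abs_summable (b : ℕ → ℝ) (K : ℕ) : Summable (fun n => |trunc b K n|) := by
  apply summable_of_ne_finset_zero (s := Finset.range K)
  intro n hn
  rw [Finset.mem_range] at hn
  simp [trunc, hn]

/-- error term -/
noncomputable def err (b : ℕ → ℝ) (K : ℕ) : ℝ :=
  (∑' m, kk m ^ 2 * b (pp m) ^ 2) - ∑ m ∈ Finset.range K, kk m ^ 2 * b (pp m) ^ 2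

lemma err_tendsto {b : ℕ → ℝ} (hb : Summable (fun n => b n ^ 2)) :
    Tendsto (err b) atTop (𝓝 0) := by
  have h1 := (summable_kk_mul hb (fun n => sq_nonneg _)).hasSum.tendsto_sum_nat
  have h2 := (tendsto_const_nhds (x := ∑' m, kk m ^ 2 * b (pp m) ^ 2)).sub h1
  rw [sub_self] at h2
  exact h2

lemma err_nonneg {b : ℕ → ℝ} (hb : Summable (fun n => b n ^ 2)) (K : ℕ) : 0 ≤ err b K := by
  unfold err
  have h1 := (summable_kk_mul hb (fun n => sq_nonneg _)).sum_le_tsum (Finset.range K)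
    (fun m _ => by positivity)
  linarith

lemma q_trunc_le {b : ℕ → ℝ} (hb : Summable (fun n => b n ^ 2)) (K : ℕ) :
    q (trunc b K) ≤ q b + err b K := by
  have hk := summable_kk_mul hb (fun n => sq_nonneg _)
  have hfin : Summable (fun m => if m < K then kk m ^ 2 * b (pp m) ^ 2 else 0) := by
    apply summable_of_ne_finset_zero (s := Finset.range K)
    intro n hn
    rw [Finset.mem_range] at hn
    simp [hn]
  have hfs : ∑' m, (if m < K then kk m ^ 2 * b (pp m) ^ 2 else 0)
      = ∑ m ∈ Finset.range K, kk m ^ 2 * b (pp m) ^ 2 := by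
    rw [tsum_eq_sum (s := Finset.range K)]
    · refine Finset.sum_congr rfl fun m hm => ?_
      rw [Finset.mem_range] at hm
      simp [hm]
    · intro n hn
      rw [Finset.mem_range] at hn
      simp [hn]
  have herr : err b K = ∑' m, (kk m ^ 2 * b (pp m) ^ 2
      - if m < K then kk m ^ 2 * b (pp m) ^ 2 else 0) := by
    rw [hk.tsum_sub hfin, hfs]; rfl
  rw [herr]
  unfold q
  rw [← Summable.tsum_add (summable_qt hb) (hk.sub hfin)]
  refine (summable_qt (trunc_sq_summable b K)).tsum_le_tsum ?_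
    ((summable_qt hb).add (hk.sub hfin))
  intro m
  unfold qt TT
  by_cases hm : m < K
  · have hp : pp m < K := lt_of_le_of_lt (pp_le m) hm
    simp [trunc, hm, hp]
  · have h1 : trunc b K m = 0 := by simp [trunc, hm]
    have h2 : (trunc b K (pp m)) ^ 2 ≤ b (pp m) ^ 2 := by
      unfold trunc
      split_ifs
      · exact le_rfl
      · have := sq_nonneg (b (pp m)); simpa using this
    rw [h1]
    simp only [hm, if_false, sub_zero, zero_add]
    have h3 : (kk m * trunc b K (pp m)) ^ 2 ≤ kk m ^ 2 * b (pp m) ^ 2 := by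
      rw [mul_pow]
      exact mul_le_mul_of_nonneg_left h2 (sq_nonneg _)
    nlinarith [sq_nonneg (b m), sq_nonneg (b m + kk m * b (pp m))]

/-- the test vectors -/
def dd (l J m : ℕ) : ℝ := if pp m = l ∧ (Nat.unpair m).2 < J then 1 else 0

lemma dd_abs_le (l J m : ℕ) : |dd l J m| ≤ 1 := by
  unfold dd; split_ifs <;> simp

lemma dd_support (l J m : ℕ) (h : dd l J m ≠ 0) : m ∈ (Finset.range J).image (fun j => Nat.pair l j) := by
  unfold dd at h
  split_ifs at h with h1
  · rw [Finset.mem_image]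
    refine ⟨(Nat.unpair m).2, Finset.mem_range.2 h1.2, ?_⟩
    have := Nat.pair_unpair m
    rw [← h1.1]
    exact this
  · exact absurd rfl h

lemma dd_sq_summable (l J : ℕ) : Summable (fun n => dd l J n ^ 2) := by
  apply summable_of_ne_finset_zero (s := (Finset.range J).image (fun j => Nat.pair l j))
  intro n hn
  by_contra h
  apply hn
  apply dd_support l J n
  intro h0
  rw [h0] at h
  norm_num at h

lemma bf_dd {b : ℕ → ℝ} (hb : Summable (fun n => |b n|)) (l J : ℕ) :
    |bf b (dd l J) - b l * ∑ j ∈ Finset.range J, 1 / ((j : ℝ) + 1)|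
      ≤ ∑' m, (3 * |b m| + kk m ^ 2 * |b (pp m)|) := by
  have hmain : HasSum (fun m => kk m * b (pp m) * dd l J m)
      (b l * ∑ j ∈ Finset.range J, 1 / ((j : ℝ) + 1)) := by
    have h1 : ∑ m ∈ (Finset.range J).image (fun j => Nat.pair l j), kk m * b (pp m) * dd l J m
        = b l * ∑ j ∈ Finset.range J, 1 / ((j : ℝ) + 1) := by
      rw [Finset.sum_image]
      · rw [Finset.mul_sum]
        refine Finset.sum_congr rfl fun j hj => ?_
        rw [Finset.mem_range] at hj
        simp only [kk, pp, dd, Nat.unpair_pair, true_and, hj, if_true]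
        ring
      · intro i _ j _ hij
        have := (Nat.pair_eq_pair.1 hij).2
        exact this
    rw [← h1]
    apply hasSum_sum_of_ne_finset_zero
    intro m hm
    by_contra h
    apply hm
    apply dd_support l J m
    intro h0
    rw [h0, mul_zero] at h
    exact h rfl
  have hbk : Summable (fun m => kk m ^ 2 * |b (pp m)|) := summable_kk_mul hb (fun n => abs_nonneg _)
  have hR : Summable (fun m => 3 * |b m| + kk m ^ 2 * |b (pp m)|) := (hb.mul_left 3).add hbk
  have hrest : ∀ m, |bt b (dd l J) m - kk m * b (pp m) * dd l J m|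
      ≤ 3 * |b m| + kk m ^ 2 * |b (pp m)| := by
    intro m
    have e1 : bt b (dd l J) m - kk m * b (pp m) * dd l J m
        = 2 * (b m * dd l J m) + b m * (kk m * dd l J (pp m))
          + kk m ^ 2 * b (pp m) * dd l J (pp m) := by
      unfold bt TT; ring
    rw [e1]
    have h1 := dd_abs_le l J m
    have h2 := dd_abs_le l J (pp m)
    have h3 := kk_pos m
    have h4 := kk_le_one m
    refine (abs_add_le _ _).trans ?_
    have a1 : |2 * (b m * dd l J m) + b m * (kk m * dd l J (pp m))| ≤ 3 * |b m| := by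
      refine (abs_add_le _ _).trans ?_
      rw [abs_mul, abs_mul, abs_mul, abs_mul, abs_two, abs_of_pos h3]
      have b1 : |b m| * |dd l J m| ≤ |b m| * 1 := mul_le_mul_of_nonneg_left h1 (abs_nonneg _)
      have b2 : |b m| * (kk m * |dd l J (pp m)|) ≤ |b m| * 1 := by
        apply mul_le_mul_of_nonneg_left _ (abs_nonneg _)
        nlinarith [abs_nonneg (dd l J (pp m))]
      linarith
    have a2 : |kk m ^ 2 * b (pp m) * dd l J (pp m)| ≤ kk m ^ 2 * |b (pp m)| := by
      rw [abs_mul, abs_mul, abs_of_nonneg (sq_nonneg (kk m))]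
      have : 0 ≤ kk m ^ 2 * |b (pp m)| := by positivity
      nlinarith
    linarith
  have hbsq : Summable (fun n => b n ^ 2) := by
    have h0 : Tendsto (fun n => |b n|) cofinite (𝓝 0) := hb.tendsto_cofinite_zero
    have h1 : ∀ᶠ n in cofinite, |b n| < 1 := h0.eventually (gt_mem_nhds zero_lt_one)
    refine hb.of_norm_bounded_eventually ?_
    filter_upwards [h1] with n hn
    rw [Real.norm_eq_abs, abs_pow]
    have := abs_nonneg (b n)
    nlinarith
  have hbt := summable_bt hbsq (dd_sq_summable l J)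
  have e2 : bf b (dd l J) - b l * ∑ j ∈ Finset.range J, 1 / ((j : ℝ) + 1)
      = ∑' m, (bt b (dd l J) m - kk m * b (pp m) * dd l J m) := by
    rw [hbt.tsum_sub hmain.summable, hmain.tsum_eq]; rfl
  rw [e2]
  have hsn : Summable (fun m => ‖bt b (dd l J) m - kk m * b (pp m) * dd l J m‖) :=
    Summable.of_nonneg_of_le (fun m => norm_nonneg _) hrest hR
  refine (norm_tsum_le_tsum_norm hsn).trans ?_
  exact hsn.tsum_le_tsum hrest hR

lemma harmonic_unbounded (c : ℝ) : ∃ J : ℕ, c < ∑ j ∈ Finset.range J, 1 / ((j : ℝ) + 1) := by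
  have h1 := Real.tendsto_sum_range_one_div_nat_succ_atTop
  have h2 := h1.eventually (eventually_gt_atTop c)
  obtain ⟨J, hJ⟩ := h2.exists
  exact ⟨J, hJ⟩

/-- unboundedness of the form against bounded test vectors -/
lemma bf_unbounded {b : ℕ → ℝ} (hb : Summable (fun n => |b n|)) {l : ℕ} (hl : b l ≠ 0) (c : ℝ) :
    ∃ J, c < |bf b (dd l J)| := by
  set R := ∑' m, (3 * |b m| + kk m ^ 2 * |b (pp m)|) with hR
  obtain ⟨J, hJ⟩ := harmonic_unbounded ((c + R) / |b l|)
  refine ⟨J, ?_⟩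
  have h1 := bf_dd hb l J
  rw [← hR] at h1
  have hbl : 0 < |b l| := abs_pos.2 hl
  rw [div_lt_iff₀ hbl] at hJ
  have h2 : |b l * ∑ j ∈ Finset.range J, 1 / ((j : ℝ) + 1)|
      = (∑ j ∈ Finset.range J, 1 / ((j : ℝ) + 1)) * |b l| := by
    rw [abs_mul, mul_comm, abs_of_nonneg]
    exact Finset.sum_nonneg fun j _ => by positivity
  have h3 := abs_sub_abs_le_abs_sub (b l * ∑ j ∈ Finset.range J, 1 / ((j : ℝ) + 1)) (bf b (dd l J))
  rw [abs_sub_comm (b l * _) _] at h3
  linarith

end Pool.Agent.H784R3.Quad
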