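import Pool.Agent.H784R3.Core

set_option autoImplicit false

open scoped ZeroAtInfty BigOperators Topology
open Filter

namespace Pool.Agent.H784R3

/-- The reduced space: `(ζ, ζ*, ν)`. -/
abbrev Q : Type := ℝ × ℝ × (ℕ → ℝ)

/-- the reduced point of a pair -/
noncomputable def red (x : X1) (f : D1) : Q := (x.2, th f, sg f)

/-- the operator attached to a subset of the reduced space -/
def Op (M : Set Q) (x : X1) : Set D1 := {f | InW x f ∧ red x f ∈ M}

/-- monotone relatedness in the reduced space -/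
def Rel (p q : Q) : Prop := ∑' n, (p.2.2 n - q.2.2 n) ^ 2 ≤ (p.1 - q.1) * (p.2.1 - q.2.1)

lemma pairing_sub {x y : X1} {f g : D1} (h : InW x f) (h' : InW y g) :
    (f - g) (x - y) = (x.2 - y.2) * (th f - th g) - ∑' n, (sg f n - sg g n) ^ 2 := by
  rw [pairing (h.sub h'), th_sub]
  simp only [sg_sub]
  rfl

lemma rel_iff {x y : X1} {f g : D1} (h : InW x f) (h' : InW y g) :
    0 ≤ (f - g) (x - y) ↔ Rel (red x f) (red y g) := by
  rw [pairing_sub h h']
  unfold Rel red
  constructor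
  · intro h; simp only; linarith
  · intro h; simp only at h; linarith

lemma op_mono {M : Set Q} (hM : ∀ p ∈ M, ∀ q ∈ M, Rel p q) :
    ∀ (x y : X1) (f g : D1), f ∈ Op M x → g ∈ Op M y → 0 ≤ (f - g) (x - y) := by
  intro x y f g hf hg
  exact (rel_iff hf.1 hg.1).2 (hM _ hf.2 _ hg.2)

lemma red_add_gen (x : X1) (f : D1) (s : ℝ) (n k : ℕ) :
    red (x + s • ga n k) (f + s • gs n k) = red x f := by
  unfold red
  have h1 : (x + s • ga n k).2 = x.2 := by
    change x.2 + s * 0 = x.2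
    ring
  have h2 : th (f + s • gs n k) = th f := by
    rw [th_add, th_smul, th_gs]; ring
  have h3 : sg (f + s • gs n k) = sg f := by
    funext m
    rw [sg_add, sg_smul, sg_gs]; ring
  rw [h1, h2, h3]

lemma op_add_gen {M : Set Q} {x : X1} {f : D1} (hf : f ∈ Op M x) (s : ℝ) (n k : ℕ) :
    f + s • gs n k ∈ Op M (x + s • ga n k) := by
  refine ⟨hf.1.add ((InW_gen n k).smul s), ?_⟩
  rw [red_add_gen]; exact hf.2

lemma linear_nonneg {a b : ℝ} (h : ∀ s : ℝ, 0 ≤ a - s * b) : b = 0 := by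
  by_contra hb
  have h1 := h ((a + 1) / b)
  rw [div_mul_cancel₀ _ hb] at h1
  linarith

lemma expand (F G : D1) (d a : X1) (s : ℝ) :
    (F - s • G) (d - s • a) = F d - s * (G d + F a) + s ^ 2 * G a := by
  have h1 : (F - s • G) (d - s • a) = F (d - s • a) - s * G (d - s • a) := rfl
  rw [h1, map_sub, map_sub, map_smul, map_smul]
  simp only [smul_eq_mul]
  ring

/-- If `(z, g)` is related to the whole graph then it lies in `W`. -/
lemma inW_of_related {M : Set Q} {x : X1} {f : D1} (hf : f ∈ Op M x) {z : X1} {g : D1}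
    (h : ∀ (y : X1) (k : D1), k ∈ Op M y → 0 ≤ (g - k) (z - y)) : InW z g := by
  apply InW_of_gen
  intro n k
  have h1 : ∀ s : ℝ, 0 ≤ (g - f) (z - x) - s * (gs n k (z - x) + (g - f) (ga n k)) := by
    intro s
    have h2 := h _ _ (op_add_gen hf s n k)
    have h3 : (g - (f + s • gs n k)) (z - (x + s • ga n k))
        = (g - f) (z - x) - s * (gs n k (z - x) + (g - f) (ga n k)) + s ^ 2 * gs n k (ga n k) := by
      have e1 : g - (f + s • gs n k) = (g - f) - s • gs n k := by abel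
      have e2 : z - (x + s • ga n k) = (z - x) - s • ga n k := by abel
      rw [e1, e2, expand]
    have h4 : gs n k (ga n k) = 0 := by
      rw [apply_ga]
      simp [cf, gs_apply]
    rw [h3, h4] at h2
    linarith
  have h5 := linear_nonneg h1
  rw [gs_apply, apply_ga, cf_sub, cf_sub] at h5
  have h6 : (z - x).1 (n, k) = z.1 (n, k) - x.1 (n, k) := rfl
  have h7 : (z - x).1 (n, k + 1) = z.1 (n, k + 1) - x.1 (n, k + 1) := rfl
  rw [h6, h7] at h5
  have h8 := hf.1 n k
  have h9 := hf.1 n (k + 1)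
  have h10 := tl_succ f n k
  have h11 := tl_succ f n (k + 1)
  linarith

lemma op_nonempty {M : Set Q} {p : Q} (hp : p ∈ M) (hs : Summable (fun n => |p.2.2 n|)) :
    ∃ (x : X1) (f : D1), f ∈ Op M x ∧ red x f = p := by
  obtain ⟨x, f, h1, h2, h3, h4⟩ := exists_rep p.1 p.2.1 p.2.2 hs
  have : red x f = p := by
    unfold red
    have h5 : sg f = p.2.2 := funext h4
    rw [h2, h3, h5]
  exact ⟨x, f, ⟨h1, by rw [this]; exact hp⟩, this⟩

/-- Related points in the reduced space. -/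
lemma related_red {M : Set Q} (hMs : ∀ p ∈ M, Summable (fun n => |p.2.2 n|)) {z : X1} {g : D1}
    (hne : M.Nonempty)
    (h : ∀ (y : X1) (k : D1), k ∈ Op M y → 0 ≤ (g - k) (z - y)) :
    InW z g ∧ ∀ p ∈ M, Rel (red z g) p := by
  obtain ⟨p0, hp0⟩ := hne
  obtain ⟨x0, f0, hf0, -⟩ := op_nonempty hp0 (hMs p0 hp0)
  have hW := inW_of_related hf0 h
  refine ⟨hW, fun p hp => ?_⟩
  obtain ⟨x, f, hf, hr⟩ := op_nonempty hp (hMs p hp)
  rw [← hr]
  exact (rel_iff hW hf.1).1 (h x f hf)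

/-- maximality criterion -/
lemma op_max {M : Set Q} (hMs : ∀ p ∈ M, Summable (fun n => |p.2.2 n|)) (hne : M.Nonempty)
    (hmax : ∀ q : Q, Summable (fun n => |q.2.2 n|) → (∀ p ∈ M, Rel q p) → q ∈ M) :
    ∀ (x : X1) (f : D1), (∀ (y : X1) (g : D1), g ∈ Op M y → 0 ≤ (f - g) (x - y)) → f ∈ Op M x := by
  intro x f h
  obtain ⟨hW, hr⟩ := related_red hMs hne h
  exact ⟨hW, hmax _ (summable_abs_sg f) hr⟩

end Pool.Agent.H784R3
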