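import Pool.Agent.H784R3.Red

set_option autoImplicit false

open scoped BigOperators Topology
open Filter

namespace Pool.Agent.H784R3

/-- auxiliary: `(n+1)^(-1/4)` -/
noncomputable def bb (n : ℕ) : ℝ := ((n : ℝ) + 1) ^ (-(1 / 4) : ℝ)

lemma bb_pos (n : ℕ) : 0 < bb n := Real.rpow_pos_of_pos (by positivity) _

/-- `α n = 1/(n+1)` -/
noncomputable def al (n : ℕ) : ℝ := 1 / ((n : ℝ) + 1)

lemma al_pos (n : ℕ) : 0 < al n := by unfold al; positivity

lemma al_eq (n : ℕ) : al n = bb n ^ 4 := by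
  unfold al bb
  rw [← Real.rpow_natCast, ← Real.rpow_mul (by positivity)]
  norm_num
  rw [Real.rpow_neg_one]

lemma not_summable_al : ¬ Summable al := by
  unfold al
  intro h
  have h2 := (summable_nat_add_iff (f := fun n : ℕ => (1:ℝ) / (n : ℝ)) 1).1 (by
    refine h.congr fun n => ?_
    push_cast; rfl)
  exact Real.not_summable_one_div_natCast h2

lemma summable_bb6 : Summable (fun n => (bb n ^ 3) ^ 2) := by
  have h1 : Summable (fun n : ℕ => (1:ℝ) / (n : ℝ) ^ (3 / 2 : ℝ)) :=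
    Real.summable_one_div_nat_rpow.2 (by norm_num)
  have h2 := (summable_nat_add_iff (f := fun n : ℕ => (1:ℝ) / (n : ℝ) ^ (3 / 2 : ℝ)) 1).2 h1
  refine h2.congr fun n => ?_
  unfold bb
  rw [← pow_mul, ← Real.rpow_natCast, ← Real.rpow_mul (by positivity)]
  push_cast
  rw [one_div, ← Real.rpow_neg (by positivity)]
  norm_num

/-- normalising constant -/
noncomputable def KK : ℝ := 1 + ∑' n, (bb n ^ 3) ^ 2

lemma KK_ge : 1 ≤ KK := by
  unfold KK
  have : 0 ≤ ∑' n, (bb n ^ 3) ^ 2 := tsum_nonneg fun n => by positivity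
  linarith

/-- Lipschitz constants -/
noncomputable def cc (n : ℕ) : ℝ := bb n ^ 3 / KK

lemma cc_pos (n : ℕ) : 0 < cc n := by
  unfold cc
  have := KK_ge
  have := bb_pos n
  positivity

lemma summable_cc_sq : Summable (fun n => (cc n) ^ 2) := by
  unfold cc
  simp only [div_pow]
  exact summable_bb6.div_const _

lemma tsum_cc_sq : ∑' n, (cc n) ^ 2 ≤ 1 := by
  unfold cc
  simp only [div_pow]
  rw [tsum_div_const]
  have h1 := KK_ge
  have h2 : ∑' n, (bb n ^ 3) ^ 2 ≤ KK := by unfold KK; linarith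
  rw [div_le_one (by positivity)]
  nlinarith

/-- the soft threshold sequence -/
noncomputable def GG (s : ℝ) (n : ℕ) : ℝ := max (al n - cc n * s) 0

lemma GG_lip (s t : ℝ) (n : ℕ) : |GG s n - GG t n| ≤ cc n * |s - t| := by
  unfold GG
  refine (abs_max_sub_max_le_abs _ _ _).trans ?_
  have : al n - cc n * s - (al n - cc n * t) = cc n * (t - s) := by ring
  rw [this, abs_mul, abs_of_pos (cc_pos n), abs_sub_comm]

lemma GG_sq (s t : ℝ) (n : ℕ) : (GG s n - GG t n) ^ 2 ≤ (cc n) ^ 2 * (s - t) ^ 2 := by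
  have h := GG_lip s t n
  rw [← sq_abs (GG s n - GG t n), ← sq_abs (s - t), ← mul_pow]
  exact pow_le_pow_left₀ (abs_nonneg _) h 2

lemma summable_GG_sq (s t : ℝ) : Summable (fun n => (GG s n - GG t n) ^ 2) :=
  Summable.of_nonneg_of_le (fun n => sq_nonneg _) (GG_sq s t) (summable_cc_sq.mul_right _)

lemma tsum_GG_sq (s t : ℝ) : ∑' n, (GG s n - GG t n) ^ 2 ≤ (s - t) ^ 2 := by
  have h1 : ∑' n, (GG s n - GG t n) ^ 2 ≤ ∑' n, (cc n) ^ 2 * (s - t) ^ 2 :=
    (summable_GG_sq s t).tsum_le_tsum (GG_sq s t) (summable_cc_sq.mul_right _)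
  rw [tsum_mul_right] at h1
  have h2 := tsum_cc_sq
  have h3 : 0 ≤ (s - t) ^ 2 := sq_nonneg _
  nlinarith

lemma GG_zero (n : ℕ) : GG 0 n = al n := by
  unfold GG
  rw [mul_zero, sub_zero]
  exact max_eq_left (al_pos n).le

lemma GG_continuous (n : ℕ) : Continuous (fun s => GG s n) := by
  unfold GG
  fun_prop

lemma GG_eventually_zero {s : ℝ} (hs : 0 < s) : ∀ᶠ n in atTop, GG s n = 0 := by
  have h1 : Tendsto (fun n : ℕ => bb n) atTop (𝓝 0) := by
    unfold bb
    have h2 : Tendsto (fun x : ℝ => x ^ (-(1 / 4) : ℝ)) atTop (𝓝 0) :=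
      tendsto_rpow_neg_atTop (by norm_num)
    have h3 : Tendsto (fun n : ℕ => (n : ℝ) + 1) atTop atTop :=
      tendsto_atTop_add_const_right _ _ tendsto_natCast_atTop_atTop
    exact h2.comp h3
  have hK := KK_ge
  have h4 : ∀ᶠ n in atTop, bb n < s / KK := h1.eventually (gt_mem_nhds (by positivity))
  filter_upwards [h4] with n hn
  unfold GG
  apply max_eq_right
  rw [al_eq]
  unfold cc
  have h5 := bb_pos n
  have h6 : bb n ^ 3 / KK * s = bb n ^ 3 * (s / KK) := by ring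
  rw [h6]
  have h7 : bb n ^ 4 = bb n ^ 3 * bb n := by ring
  rw [h7]
  have h8 : bb n ^ 3 * bb n ≤ bb n ^ 3 * (s / KK) :=
    mul_le_mul_of_nonneg_left hn.le (by positivity)
  linarith

lemma summable_abs_GG {s : ℝ} (hs : 0 < s) : Summable (fun n => |GG s n|) := by
  obtain ⟨N, hN⟩ := eventually_atTop.1 (GG_eventually_zero hs)
  apply summable_of_ne_finset_zero (s := Finset.range N)
  intro n hn
  rw [Finset.mem_range, not_lt] at hn
  rw [hN n hn, abs_zero]

lemma not_summable_of_eq_al {u : ℕ → ℝ} (hu : Summable (fun n => |u n|)) : ∃ n, u n ≠ al n := by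
  by_contra h
  push Not at h
  apply not_summable_al
  refine hu.of_abs.congr h

lemma lim_le {f g : ℝ → ℝ} (hf : Continuous f) (hg : Continuous g) (h : ∀ t, 0 < t → f t ≤ g t) :
    f 0 ≤ g 0 := by
  have h1 : Tendsto f (𝓝[>] 0) (𝓝 (f 0)) := (hf.tendsto 0).mono_left nhdsWithin_le_nhds
  have h2 : Tendsto g (𝓝[>] 0) (𝓝 (g 0)) := (hg.tendsto 0).mono_left nhdsWithin_le_nhds
  refine le_of_tendsto_of_tendsto h1 h2 ?_
  filter_upwards [self_mem_nhdsWithin] with t ht
  exact h t ht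

end Pool.Agent.H784R3
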