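import Pool.Agent.H934R3.NP.Stmts

set_option autoImplicit false
set_option maxHeartbeats 4000000

/-!
# Task A1 of the NP project: area formula for the Hausdorff measure on `C¹` graphs
-/

namespace Pool.Agent.H784R3.NPA1

open MeasureTheory Set Filter Topology Module
open scoped ENNReal NNReal
open Pool.Agent.H934R3.NP

/-- local-to-global principle for inequalities between measures -/
theorem le_of_local {X : Type} [TopologicalSpace X] [MeasurableSpace X] [BorelSpace X]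
    [SecondCountableTopology X] (ν ρ : Measure X) (C : ℝ≥0∞)
    (h : ∀ x : X, ∃ U ∈ 𝓝 x, ∀ s ⊆ U, MeasurableSet s → ν s ≤ C * ρ s) (s : Set X)
    (hs : MeasurableSet s) : ν s ≤ C * ρ s := by
  choose U hU hle using h
  obtain ⟨T, hT, hcov⟩ := TopologicalSpace.countable_cover_nhds (fun x => interior_mem_nhds.2 (hU x))
  rcases T.eq_empty_or_nonempty with hTe | hTne
  · subst hTe
    have : (univ : Set X) = ∅ := by rw [← hcov]; simp
    have hs0 : s = ∅ := by
      apply Set.eq_empty_of_forall_notMem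
      intro x hx
      have : x ∈ (univ : Set X) := mem_univ x
      rw [‹(univ : Set X) = ∅›] at this
      exact this
    rw [hs0]; simp
  obtain ⟨e, he⟩ := hT.exists_eq_range hTne
  set V : ℕ → Set X := fun n => interior (U (e n)) with hV
  have hVm : ∀ n, MeasurableSet (V n) := fun n => isOpen_interior.measurableSet
  have hVc : (⋃ n, V n) = univ := by
    rw [← hcov, he]
    simp [hV]
  set D := disjointed V with hD
  have hDm : ∀ n, MeasurableSet (D n) := fun n => MeasurableSet.disjointed hVm n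
  have hDc : (⋃ n, D n) = univ := by rw [hD, iUnion_disjointed, hVc]
  have hDd : Pairwise (Function.onFun Disjoint fun n => s ∩ D n) := by
    intro i j hij
    exact ((disjoint_disjointed V) hij).mono inter_subset_right inter_subset_right
  have hsplit : ∀ m : Measure X, m s = ∑' n, m (s ∩ D n) := by
    intro m
    rw [← measure_iUnion hDd (fun n => hs.inter (hDm n)), ← inter_iUnion, hDc, inter_univ]
  rw [hsplit ν, hsplit ρ, ← ENNReal.tsum_mul_left]
  refine ENNReal.tsum_le_tsum fun n => ?_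
  refine hle (e n) _ ?_ (hs.inter (hDm n))
  exact (inter_subset_right.trans (disjointed_subset V n)).trans interior_subset

theorem Gr0 (f : P2 → ℝ) (u : P2) : Gr f u 0 = u 0 := rfl
theorem Gr1 (f : P2 → ℝ) (u : P2) : Gr f u 1 = u 1 := rfl
theorem Gr2 (f : P2 → ℝ) (u : P2) : Gr f u 2 = f u := rfl
theorem pr0 (z : E) : pr z 0 = z 0 := rfl
theorem pr1 (z : E) : pr z 1 = z 1 := rfl

theorem pr_Gr (f : P2 → ℝ) (u : P2) : pr (Gr f u) = u := by
  ext i
  fin_cases i
  · rfl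
  · rfl

theorem contDiff_Gr {f : P2 → ℝ} (hf : ContDiff ℝ 1 f) : ContDiff ℝ 1 (Gr f) := by
  rw [contDiff_euclidean]
  intro i
  fin_cases i
  · exact contDiff_euclidean.1 contDiff_id 0
  · exact contDiff_euclidean.1 contDiff_id 1
  · exact hf

theorem Gr_inj (f : P2 → ℝ) : Function.Injective (Gr f) := by
  intro u v h
  rw [← pr_Gr f u, ← pr_Gr f v, h]

theorem range_Gr (f : P2 → ℝ) : range (Gr f) = {z : E | z 2 = f (pr z)} := by
  ext z
  constructor
  · rintro ⟨u, rfl⟩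
    show Gr f u 2 = f (pr (Gr f u))
    rw [pr_Gr, Gr2]
  · intro hz
    refine ⟨pr z, ?_⟩
    ext i
    fin_cases i
    · rfl
    · rfl
    · exact hz.symm

theorem nsq2 (w : P2) : ‖w‖ ^ 2 = w 0 ^ 2 + w 1 ^ 2 := by
  rw [EuclideanSpace.norm_sq_eq]
  simp [Fin.sum_univ_two]

theorem nsq3 (z : E) : ‖z‖ ^ 2 = z 0 ^ 2 + z 1 ^ 2 + z 2 ^ 2 := by
  rw [EuclideanSpace.norm_sq_eq]
  simp [Fin.sum_univ_three]

/-- the Jacobian -/
noncomputable def J (f : P2 → ℝ) (u : P2) : ℝ := Real.sqrt (1 + ‖gradient f u‖ ^ 2)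

theorem one_le_J (f : P2 → ℝ) (u : P2) : 1 ≤ J f u := by
  unfold J
  rw [Real.one_le_sqrt]
  nlinarith [sq_nonneg ‖gradient f u‖]

theorem cont_J {f : P2 → ℝ} (hf : ContDiff ℝ 1 f) : Continuous (J f) := by
  unfold J
  have h1 : Continuous (gradient f) := by
    have h2 : Continuous (fderiv ℝ f) := hf.continuous_fderiv (by norm_num)
    exact (InnerProductSpace.toDual ℝ P2).symm.continuous.comp h2
  fun_prop

theorem grad_coord (f : P2 → ℝ) (u : P2) (i : Fin 2) :
    gradient f u i = fderiv ℝ f u (EuclideanSpace.single i 1) := by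
  have h : inner ℝ (gradient f u) (EuclideanSpace.single i (1 : ℝ)) =
      fderiv ℝ f u (EuclideanSpace.single i 1) := by
    unfold gradient
    rw [InnerProductSpace.toDual_symm_apply]
  rw [← h, EuclideanSpace.inner_single_right]
  simp

section
variable {f : P2 → ℝ} (hf : ContDiff ℝ 1 f) (x : P2)
include hf

theorem strict : HasStrictFDerivAt (Gr f) (fderiv ℝ (Gr f) x) x :=
  (contDiff_Gr hf).contDiffAt.hasStrictFDerivAt (by norm_num)

theorem A0 (w : P2) : fderiv ℝ (Gr f) x w 0 = w 0 := by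
  have h1 := (hasStrictFDerivAt_euclidean.1 (strict hf x) 0).hasFDerivAt
  have h2 : HasFDerivAt (fun u : P2 => Gr f u 0) (EuclideanSpace.proj (𝕜 := ℝ) 0 : P2 →L[ℝ] ℝ) x :=
    (EuclideanSpace.proj (𝕜 := ℝ) 0 : P2 →L[ℝ] ℝ).hasFDerivAt
  have h3 := h1.unique h2
  have h4 := DFunLike.congr_fun h3 w
  exact h4

theorem A1 (w : P2) : fderiv ℝ (Gr f) x w 1 = w 1 := by
  have h1 := (hasStrictFDerivAt_euclidean.1 (strict hf x) 1).hasFDerivAt
  have h2 : HasFDerivAt (fun u : P2 => Gr f u 1) (EuclideanSpace.proj (𝕜 := ℝ) 1 : P2 →L[ℝ] ℝ) x :=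
    (EuclideanSpace.proj (𝕜 := ℝ) 1 : P2 →L[ℝ] ℝ).hasFDerivAt
  have h3 := h1.unique h2
  have h4 := DFunLike.congr_fun h3 w
  exact h4

theorem A2 (w : P2) : fderiv ℝ (Gr f) x w 2 = fderiv ℝ f x w := by
  have h1 := (hasStrictFDerivAt_euclidean.1 (strict hf x) 2).hasFDerivAt
  have h2 : HasFDerivAt (fun u : P2 => Gr f u 2) (fderiv ℝ f x) x :=
    (hf.differentiable (by norm_num) x).hasFDerivAt
  have h3 := h1.unique h2
  have h4 := DFunLike.congr_fun h3 w
  exact h4

theorem pr_A (w : P2) : pr (fderiv ℝ (Gr f) x w) = w := by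
  ext i
  fin_cases i
  · exact A0 hf x w
  · exact A1 hf x w

theorem le_A (w : P2) : ‖w‖ ≤ ‖fderiv ℝ (Gr f) x w‖ := by
  have h1 := nsq2 w
  have h2 := nsq3 (fderiv ℝ (Gr f) x w)
  rw [A0 hf, A1 hf] at h2
  have h3 : ‖w‖ ^ 2 ≤ ‖fderiv ℝ (Gr f) x w‖ ^ 2 := by
    rw [h1, h2]
    nlinarith [sq_nonneg (fderiv ℝ (Gr f) x w 2)]
  exact le_of_sq_le_sq h3 (norm_nonneg _)

theorem normDet_A : (fderiv ℝ (Gr f) x : P2 →ₗ[ℝ] E).normDet = J f x := by
  have h := LinearMap.normDet_sq_eq_det_gram (fderiv ℝ (Gr f) x : P2 →ₗ[ℝ] E)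
    (EuclideanSpace.basisFun (Fin 2) ℝ)
  have hin : ∀ a b : P2, inner ℝ (fderiv ℝ (Gr f) x a) (fderiv ℝ (Gr f) x b) =
      a 0 * b 0 + a 1 * b 1 + fderiv ℝ f x a * fderiv ℝ f x b := by
    intro a b
    rw [PiLp.inner_apply, Fin.sum_univ_three]
    simp only [A0 hf, A1 hf, A2 hf]
    simp only [RCLike.inner_apply, conj_trivial]
    ring
  rw [Matrix.det_fin_two] at h
  simp only [Matrix.gram_apply, ContinuousLinearMap.coe_coe, hin,
    EuclideanSpace.basisFun_apply] at h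
  rw [← grad_coord, ← grad_coord] at h
  have hJ : J f x ^ 2 = 1 + (gradient f x 0 ^ 2 + gradient f x 1 ^ 2) := by
    unfold J
    rw [Real.sq_sqrt (by positivity), nsq2]
  have h0 := LinearMap.normDet_nonneg (fderiv ℝ (Gr f) x : P2 →ₗ[ℝ] E)
  have h1 : 0 ≤ J f x := le_trans zero_le_one (one_le_J f x)
  have h2 : ((fderiv ℝ (Gr f) x : P2 →ₗ[ℝ] E).normDet) ^ 2 = J f x ^ 2 := by
    rw [hJ]
    have h3 : (((fderiv ℝ (Gr f) x : P2 →ₗ[ℝ] E).normDet ^ 2 : ℝ) : ℝ) = _ := h
    rw [h3]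
    simp
    ring
  exact (sq_eq_sq₀ h0 h1).1 h2

/-- the image under the derivative -/
theorem haus_A (s : Set P2) : μH[2] (fderiv ℝ (Gr f) x '' s) =
    ENNReal.ofReal (J f x) * μH[2] s := by
  have h := LinearMap.hausdorffMeasure_image (fderiv ℝ (Gr f) x : P2 →ₗ[ℝ] E) s
  have h2 : ((finrank ℝ P2 : ℕ) : ℝ) = 2 := by simp
  rw [h2, normDet_A hf x] at h
  exact h

/-- local comparison of distances -/
theorem local_dist {K : ℝ} (hK : 1 < K) : ∃ U ∈ 𝓝 x, (∀ u ∈ U, J f u ≤ K * J f x ∧ J f x ≤ K * J f u) ∧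
    ∀ u ∈ U, ∀ v ∈ U, ‖Gr f u - Gr f v‖ ≤ K * ‖fderiv ℝ (Gr f) x (u - v)‖ ∧
      ‖fderiv ℝ (Gr f) x (u - v)‖ ≤ K * ‖Gr f u - Gr f v‖ := by
  have hK0 : 0 < K := by linarith
  have hJx := one_le_J f x
  -- neighbourhood for `J`
  have e1 : ∀ᶠ u in 𝓝 x, J f u < K * J f x := by
    have : J f x < K * J f x := by nlinarith
    exact (cont_J hf).continuousAt.eventually_lt_const this
  have e2 : ∀ᶠ u in 𝓝 x, J f x < K * J f u := by
    have : J f x < K * J f x := by nlinarith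
    have hc : Continuous (fun u => K * J f u) := continuous_const.mul (cont_J hf)
    exact hc.continuousAt.eventually_const_lt this
  set ε : ℝ := 1 - 1 / K with hε
  have hε0 : 0 < ε := by
    have : 1 / K < 1 := by rw [div_lt_one hK0]; exact hK
    linarith
  have hst := (strict hf x).isLittleO.def hε0
  rw [nhds_prod_eq] at hst
  obtain ⟨U1, hU1, hU1'⟩ := Filter.eventually_prod_self_iff'.1 hst
  refine ⟨{u | J f u < K * J f x} ∩ {u | J f x < K * J f u} ∩ U1,
    Filter.inter_mem (Filter.inter_mem e1 e2) hU1, ?_, ?_⟩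
  · rintro u ⟨⟨h1, h2⟩, -⟩
    exact ⟨h1.le, h2.le⟩
  · rintro u ⟨-, hu⟩ v ⟨-, hv⟩
    have h1 : ‖Gr f u - Gr f v - fderiv ℝ (Gr f) x (u - v)‖ ≤ ε * ‖u - v‖ := hU1' u hu v hv
    have h2 : ‖u - v‖ ≤ ‖fderiv ℝ (Gr f) x (u - v)‖ := le_A hf x _
    set a := ‖fderiv ℝ (Gr f) x (u - v)‖ with ha
    set b := ‖Gr f u - Gr f v‖ with hb
    have h3 : b ≤ a + ε * a := by
      have h4 : b ≤ a + ‖Gr f u - Gr f v - fderiv ℝ (Gr f) x (u - v)‖ := by
        have := norm_add_le (fderiv ℝ (Gr f) x (u - v))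
          (Gr f u - Gr f v - fderiv ℝ (Gr f) x (u - v))
        rwa [add_sub_cancel] at this
      nlinarith
    have h5 : a ≤ b + ε * a := by
      have h6 : a ≤ b + ‖Gr f u - Gr f v - fderiv ℝ (Gr f) x (u - v)‖ := by
        have := norm_sub_le (Gr f u - Gr f v)
          (Gr f u - Gr f v - fderiv ℝ (Gr f) x (u - v))
        rwa [sub_sub_cancel] at this
      nlinarith
    have ha0 : 0 ≤ a := norm_nonneg _
    have hb0 : 0 ≤ b := norm_nonneg _
    have hKi : K * (1 / K) = 1 := by field_simp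
    have hKpos : 0 < 1 / K := by positivity
    constructor
    · -- b ≤ (2 - 1/K) a ≤ K a
      have h7 : 2 - 1 / K ≤ K := by
        have : (K - 1 / K * 1) - 2 + 2 / K = (K - 1) ^ 2 / K + (1 / K - 1 / K) * 0 + 0 - 0 + (2 / K - 1 / K - 1 / K) := by
          field_simp
          ring
        have h8 : 0 ≤ (K - 1) ^ 2 / K := by positivity
        have h9 : K + 1 / K - 2 = (K - 1) ^ 2 / K := by
          field_simp
          ring
        linarith
      have h10 : b ≤ (2 - 1 / K) * a := by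
        rw [hε] at h3
        linarith
      exact h10.trans (mul_le_mul_of_nonneg_right h7 ha0)
    · -- (1/K) a ≤ b
      have h7 : 1 / K * a ≤ b := by
        rw [hε] at h5
        linarith
      calc a = K * (1 / K * a) := by rw [← mul_assoc, hKi, one_mul]
        _ ≤ K * b := mul_le_mul_of_nonneg_left h7 hK0.le

/-- local comparison of measures -/
theorem local_meas {K : ℝ≥0} (hK : 1 < K) : ∃ U ∈ 𝓝 x,
    (∀ s ⊆ U, μH[2] (Gr f '' s) ≤ (K : ℝ≥0∞) ^ (2 : ℝ) * (ENNReal.ofReal (J f x) * μH[2] s)) ∧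
    (∀ s ⊆ U, ENNReal.ofReal (J f x) * μH[2] s ≤ (K : ℝ≥0∞) ^ (2 : ℝ) * μH[2] (Gr f '' s)) ∧
    (∀ s ⊆ U, MeasurableSet s → ENNReal.ofReal (J f x) * μH[2] s ≤
      K * ∫⁻ u in s, ENNReal.ofReal (J f u) ∂(μH[2] : Measure P2)) ∧
    (∀ s ⊆ U, MeasurableSet s → ∫⁻ u in s, ENNReal.ofReal (J f u) ∂(μH[2] : Measure P2) ≤
      K * (ENNReal.ofReal (J f x) * μH[2] s)) := by
  have hK' : (1 : ℝ) < K := by exact_mod_cast hK
  obtain ⟨U, hU, hJ, hd⟩ := local_dist hf x hK'
  have hJx := one_le_J f x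
  refine ⟨U, hU, ?_, ?_, ?_, ?_⟩
  · intro s hs
    rw [← haus_A hf x s]
    have hl : LipschitzOnWith K (fun z => Gr f (pr z)) (fderiv ℝ (Gr f) x '' s) := by
      refine LipschitzOnWith.of_dist_le_mul ?_
      rintro _ ⟨u, hu, rfl⟩ _ ⟨v, hv, rfl⟩
      simp only [pr_A hf]
      rw [dist_eq_norm, dist_eq_norm, ← map_sub]
      exact (hd u (hs hu) v (hs hv)).1
    have h := hl.hausdorffMeasure_image_le (d := 2) (by norm_num)
    have himg : (fun z => Gr f (pr z)) '' (fderiv ℝ (Gr f) x '' s) = Gr f '' s := by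
      rw [image_image]
      simp only [pr_A hf]
    rwa [himg] at h
  · intro s hs
    rw [← haus_A hf x s]
    have hl : LipschitzOnWith K (fun z => fderiv ℝ (Gr f) x (pr z)) (Gr f '' s) := by
      refine LipschitzOnWith.of_dist_le_mul ?_
      rintro _ ⟨u, hu, rfl⟩ _ ⟨v, hv, rfl⟩
      simp only [pr_Gr]
      rw [dist_eq_norm, dist_eq_norm, ← map_sub]
      exact (hd u (hs hu) v (hs hv)).2
    have h := hl.hausdorffMeasure_image_le (d := 2) (by norm_num)
    have himg : (fun z => fderiv ℝ (Gr f) x (pr z)) '' (Gr f '' s) =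
        fderiv ℝ (Gr f) x '' s := by
      rw [image_image]
      simp only [pr_Gr]
    rwa [himg] at h
  · intro s hs hsm
    have h1 : ∫⁻ _ in s, ENNReal.ofReal (J f x) ∂(μH[2] : Measure P2) ≤
        ∫⁻ u in s, K * ENNReal.ofReal (J f u) ∂(μH[2] : Measure P2) := by
      refine setLIntegral_mono' hsm fun u hu => ?_
      have h2 := (hJ u (hs hu)).2
      calc ENNReal.ofReal (J f x) ≤ ENNReal.ofReal (K * J f u) := ENNReal.ofReal_le_ofReal h2
        _ = K * ENNReal.ofReal (J f u) := by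
          rw [ENNReal.ofReal_mul K.coe_nonneg, ENNReal.ofReal_coe_nnreal]
    rw [setLIntegral_const, lintegral_const_mul' _ _ ENNReal.coe_ne_top] at h1
    exact h1
  · intro s hs hsm
    have h1 : ∫⁻ u in s, ENNReal.ofReal (J f u) ∂(μH[2] : Measure P2) ≤
        ∫⁻ _ in s, K * ENNReal.ofReal (J f x) ∂(μH[2] : Measure P2) := by
      refine setLIntegral_mono' hsm fun u hu => ?_
      have h2 := (hJ u (hs hu)).1
      calc ENNReal.ofReal (J f u) ≤ ENNReal.ofReal (K * J f x) := ENNReal.ofReal_le_ofReal h2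
        _ = K * ENNReal.ofReal (J f x) := by
          rw [ENNReal.ofReal_mul K.coe_nonneg, ENNReal.ofReal_coe_nnreal]
    rw [setLIntegral_const, mul_assoc] at h1
    exact h1

theorem emb : MeasurableEmbedding (Gr f) :=
  (contDiff_Gr hf).continuous.measurableEmbedding (Gr_inj f)

/-- the area formula, as an equality of measures -/
theorem area : Measure.comap (Gr f) (μH[2] : Measure E) =
    (μH[2] : Measure P2).withDensity (fun u => ENNReal.ofReal (J f u)) := by
  set ν := Measure.comap (Gr f) (μH[2] : Measure E) with hν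
  set ρ := (μH[2] : Measure P2).withDensity (fun u => ENNReal.ofReal (J f u)) with hρ
  have hνs : ∀ s, ν s = μH[2] (Gr f '' s) := fun s => (emb hf).comap_apply _ _
  have hρs : ∀ s, MeasurableSet s → ρ s = ∫⁻ u in s, ENNReal.ofReal (J f u) ∂(μH[2] : Measure P2) :=
    fun s hs => withDensity_apply _ hs
  have key1 : ∀ K : ℝ≥0, 1 < K → ∀ s, MeasurableSet s → ν s ≤ ((K ^ 3 : ℝ≥0) : ℝ≥0∞) * ρ s := by
    intro K hK
    refine le_of_local ν ρ _ fun y => ?_
    obtain ⟨U, hU, h1, h2, h3, h4⟩ := local_meas hf y hK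
    refine ⟨U, hU, fun s hs hsm => ?_⟩
    rw [hνs, hρs s hsm]
    calc μH[2] (Gr f '' s) ≤ (K : ℝ≥0∞) ^ (2 : ℝ) * (ENNReal.ofReal (J f y) * μH[2] s) := h1 s hs
      _ ≤ (K : ℝ≥0∞) ^ (2 : ℝ) * (K * ∫⁻ u in s, ENNReal.ofReal (J f u) ∂(μH[2] : Measure P2)) :=
        mul_le_mul_right (h3 s hs hsm) _
      _ = _ := by
        rw [← mul_assoc]
        congr 1
        rw [ENNReal.rpow_ofNat]
        push_cast
        ring
  have key2 : ∀ K : ℝ≥0, 1 < K → ∀ s, MeasurableSet s → ρ s ≤ ((K ^ 3 : ℝ≥0) : ℝ≥0∞) * ν s := by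
    intro K hK
    refine le_of_local ρ ν _ fun y => ?_
    obtain ⟨U, hU, h1, h2, h3, h4⟩ := local_meas hf y hK
    refine ⟨U, hU, fun s hs hsm => ?_⟩
    rw [hνs, hρs s hsm]
    calc ∫⁻ u in s, ENNReal.ofReal (J f u) ∂(μH[2] : Measure P2) ≤
          K * (ENNReal.ofReal (J f y) * μH[2] s) := h4 s hs hsm
      _ ≤ K * ((K : ℝ≥0∞) ^ (2 : ℝ) * μH[2] (Gr f '' s)) := mul_le_mul_right (h2 s hs) _
      _ = _ := by
        rw [← mul_assoc]
        congr 1
        rw [ENNReal.rpow_ofNat]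
        push_cast
        ring
  have lim : ∀ a b : ℝ≥0∞, (∀ K : ℝ≥0, 1 < K → a ≤ ((K ^ 3 : ℝ≥0) : ℝ≥0∞) * b) → a ≤ b := by
    intro a b h
    have ht : Tendsto (fun K : ℝ≥0 => ((K ^ 3 : ℝ≥0) : ℝ≥0∞) * b) (𝓝[>] 1) (𝓝 (1 * b)) := by
      refine ENNReal.Tendsto.mul_const ?_ (Or.inl one_ne_zero)
      have hc : Continuous (fun K : ℝ≥0 => ((K ^ 3 : ℝ≥0) : ℝ≥0∞)) :=
        ENNReal.continuous_coe.comp (continuous_pow 3)
      have := hc.tendsto 1
      simp only [one_pow, ENNReal.coe_one] at this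
      exact this.mono_left nhdsWithin_le_nhds
    rw [one_mul] at ht
    refine ge_of_tendsto ht ?_
    filter_upwards [self_mem_nhdsWithin] with K hK using h K hK
  ext s hs
  exact le_antisymm (lim _ _ fun K hK => key1 K hK s hs) (lim _ _ fun K hK => key2 K hK s hs)

end

theorem t : TaskA1 := by
  -- the constant
  obtain ⟨κ, hκ0, hκ⟩ : ∃ κ : ℝ≥0, κ ≠ 0 ∧ (volume : Measure P2) = κ • (μH[2] : Measure P2) := by
    refine ⟨_, MeasureTheory.Measure.addHaarScalarFactor_volume_hausdorffMeasure_ne_zero 2, ?_⟩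
    have h := EuclideanSpace.euclideanHausdorffMeasure_eq_volume 2
    rw [MeasureTheory.Measure.euclideanHausdorffMeasure_def] at h
    have h3 : (μH[((2 : ℕ) : ℝ)] : Measure P2) = μH[2] := by norm_num
    exact h.symm.trans (congrArg (fun m : Measure P2 => _ • m) h3)
  have hH : (μH[2] : Measure P2) = κ⁻¹ • (volume : Measure P2) := by
    rw [hκ, smul_smul, inv_mul_cancel₀ hκ0, one_smul]
  refine ⟨(κ⁻¹ : ℝ≥0), ?_, ?_⟩
  · have : 0 < κ⁻¹ := by positivity
    exact_mod_cast this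
  intro f hf h hh _
  rw [← range_Gr f, ← (emb hf).map_comap, (emb hf).integral_map, area hf]
  have hJm : Measurable (fun u => (J f u).toNNReal) :=
    (cont_J hf).measurable.real_toNNReal
  have e1 : (μH[2] : Measure P2).withDensity (fun u => ENNReal.ofReal (J f u)) =
      (μH[2] : Measure P2).withDensity (fun u => ((J f u).toNNReal : ℝ≥0∞)) := rfl
  rw [e1, integral_withDensity_eq_integral_smul hJm, hH, integral_smul_nnreal_measure]
  rw [NNReal.smul_def, smul_eq_mul]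
  congr 1
  refine integral_congr_ae (Eventually.of_forall fun u => ?_)
  simp only
  rw [NNReal.smul_def, smul_eq_mul, Real.coe_toNNReal _ (le_trans zero_le_one (one_le_J f u)),
    mul_comm]
  rfl

end Pool.Agent.H784R3.NPA1
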