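import Pool.Agent.H784R3.Seq

set_option autoImplicit false

open scoped BigOperators Topology
open Filter

namespace Pool.Agent.H784R3

/-- the curve `F` on `|ζ| > 1` -/
noncomputable def FF (z : ℝ) : ℕ → ℝ
  | 0 => SignType.sign z
  | (n + 1) => GG (|z| - 1) n

lemma FF_zero (z : ℝ) : FF z 0 = SignType.sign z := rfl
lemma FF_succ (z : ℝ) (n : ℕ) : FF z (n + 1) = GG (|z| - 1) n := rfl

/-- the reduced graph -/
def M2 : Set Q := {p | 1 < |p.1| ∧ p.2.1 = p.1 ∧ p.2.2 = FF p.1}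

lemma summable_FF {z : ℝ} (hz : 1 < |z|) : Summable (fun n => |FF z n|) := by
  rw [← summable_nat_add_iff 1]
  have : (0:ℝ) < |z| - 1 := by linarith
  exact summable_abs_GG this

lemma M2_summable : ∀ p ∈ M2, Summable (fun n => |p.2.2 n|) := by
  rintro ⟨a, b, ν⟩ ⟨h1, h2, h3⟩
  simp only at h1 h2 h3
  subst h3
  exact summable_FF h1

lemma mem_M2 {z : ℝ} (hz : 1 < |z|) : ((z, z, FF z) : Q) ∈ M2 := ⟨hz, rfl, rfl⟩

lemma M2_nonempty : M2.Nonempty := ⟨(2, 2, FF 2), mem_M2 (by norm_num)⟩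

lemma tsum_shift {u v : ℕ → ℝ} (hs : Summable (fun n => (u (n + 1) - v (n + 1)) ^ 2)) :
    ∑' n, (u n - v n) ^ 2 = (u 0 - v 0) ^ 2 + ∑' n, (u (n + 1) - v (n + 1)) ^ 2 := by
  have : Summable (fun n => (u n - v n) ^ 2) := by
    rw [← summable_nat_add_iff 1]; exact hs
  rw [this.tsum_eq_zero_add]

lemma FF_dist (z w : ℝ) (hz : 1 < |z|) (hw : 1 < |w|) :
    ∑' n, (FF z n - FF w n) ^ 2 ≤ (z - w) ^ 2 := by
  have hs : Summable (fun n => (FF z (n + 1) - FF w (n + 1)) ^ 2) :=
    summable_GG_sq (|z| - 1) (|w| - 1)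
  rw [tsum_shift hs]
  have h1 : ∑' n, (FF z (n + 1) - FF w (n + 1)) ^ 2 ≤ ((|z| - 1) - (|w| - 1)) ^ 2 :=
    tsum_GG_sq (|z| - 1) (|w| - 1)
  rw [FF_zero, FF_zero]
  rcases lt_or_ge 0 z with h | h
  · rcases lt_or_ge 0 w with h' | h'
    · rw [sign_pos h, sign_pos h']
      rw [abs_of_pos h, abs_of_pos h'] at h1
      simp only [SignType.coe_one]
      nlinarith
    · rw [abs_of_nonpos h'] at hw
      have h'' : w < 0 := by linarith
      rw [sign_pos h, sign_neg h'']
      rw [abs_of_pos h, abs_of_nonpos h'] at h1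
      rw [abs_of_pos h] at hz
      simp only [SignType.coe_one, SignType.coe_neg_one]
      nlinarith [mul_pos (sub_pos.2 hz) (sub_pos.2 hw)]
  · rw [abs_of_nonpos h] at hz
    have h3 : z < 0 := by linarith
    rcases lt_or_ge 0 w with h' | h'
    · rw [sign_neg h3, sign_pos h']
      rw [abs_of_nonpos h, abs_of_pos h'] at h1
      rw [abs_of_pos h'] at hw
      simp only [SignType.coe_one, SignType.coe_neg_one]
      nlinarith [mul_pos (sub_pos.2 hz) (sub_pos.2 hw)]
    · rw [abs_of_nonpos h'] at hw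
      have h'' : w < 0 := by linarith
      rw [sign_neg h3, sign_neg h'']
      rw [abs_of_nonpos h, abs_of_nonpos h'] at h1
      simp only [SignType.coe_neg_one]
      nlinarith

lemma M2_mono : ∀ p ∈ M2, ∀ q ∈ M2, Rel p q := by
  rintro ⟨a, b, ν⟩ ⟨h1, h2, h3⟩ ⟨a', b', ν'⟩ ⟨h1', h2', h3'⟩
  simp only at h1 h2 h3 h1' h2' h3'
  subst h3 h3' h2 h2'
  unfold Rel
  simp only
  rw [← sq]
  exact FF_dist _ _ h1 h1'

lemma summable_sq_sub {u v : ℕ → ℝ} (hu : Summable (fun n => |u n|))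
    (hv : Summable (fun n => |v n|)) : Summable (fun n => (u n - v n) ^ 2) := by
  apply summable_sq_of_summable_abs
  refine Summable.of_nonneg_of_le (fun n => abs_nonneg _) (fun n => ?_) (hu.add hv)
  exact abs_sub (u n) (v n)

lemma M2_max : ∀ q : Q, Summable (fun n => |q.2.2 n|) → (∀ p ∈ M2, Rel q p) → q ∈ M2 := by
  rintro ⟨a, b, s⟩ hs hrel
  simp only at hs
  have key : ∀ z : ℝ, 1 < |z| → ∑' n, (s n - FF z n) ^ 2 ≤ (a - z) * (b - z) := by
    intro z hz
    exact hrel (z, z, FF z) (mem_M2 hz)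
  have hsum : ∀ z : ℝ, 1 < |z| → Summable (fun n => (s n - FF z n) ^ 2) := by
    intro z hz
    exact summable_sq_sub hs (summable_FF hz)
  have fact : ∀ z, (a - z) * (b - z) = ((a + b) / 2 - z) ^ 2 - ((a - b) / 2) ^ 2 := by
    intro z; ring
  rcases lt_or_ge 1 |(a + b) / 2| with hx | hx
  · have h1 := key _ hx
    rw [fact] at h1
    have h2 : 0 ≤ ∑' n, (s n - FF ((a + b) / 2) n) ^ 2 := tsum_nonneg fun n => sq_nonneg _
    have h3 : ((a - b) / 2) ^ 2 ≤ 0 := by nlinarith
    have h4 : (a - b) / 2 = 0 := by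
      have := sq_nonneg ((a - b) / 2)
      exact pow_eq_zero_iff (two_ne_zero) |>.1 (le_antisymm h3 this)
    have h5 : a = b := by linarith
    subst h5
    have h6 : (a + a) / 2 = a := by ring
    rw [h6] at h1 h2 hx
    have h7 : ∑' n, (s n - FF a n) ^ 2 = 0 := by
      refine le_antisymm ?_ h2
      rw [sub_self] at h1
      simpa using h1
    refine ⟨hx, rfl, ?_⟩
    simp only
    funext n
    have h8 : (s n - FF a n) ^ 2 ≤ ∑' n, (s n - FF a n) ^ 2 :=
      (hsum a hx).le_tsum n (fun m _ => sq_nonneg _)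
    rw [h7] at h8
    have h9 := pow_eq_zero_iff (two_ne_zero) |>.1 (le_antisymm h8 (sq_nonneg (s n - FF a n)))
    linarith
  · exfalso
    have hs' : Summable (fun n => |s (n + 1)|) := (summable_nat_add_iff 1).2 hs
    obtain ⟨n, hn⟩ := not_summable_of_eq_al hs'
    have hR : 0 < (s (n + 1) - al n) ^ 2 := by
      have : s (n + 1) - al n ≠ 0 := sub_ne_zero.2 hn
      positivity
    have two : ∀ z : ℝ, 1 < |z| → (s 0 - FF z 0) ^ 2 + (s (n + 1) - FF z (n + 1)) ^ 2
        ≤ ((a + b) / 2 - z) ^ 2 := by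
      intro z hz
      have h1 := key z hz
      rw [fact] at h1
      have h2 := (hsum z hz).sum_le_tsum ({0, n + 1} : Finset ℕ) (fun m _ => sq_nonneg _)
      rw [Finset.sum_pair (by omega)] at h2
      nlinarith [sq_nonneg ((a - b) / 2)]
    have hp : (s 0 - 1) ^ 2 + (s (n + 1) - al n) ^ 2 ≤ ((a + b) / 2 - 1) ^ 2 := by
      have := lim_le (f := fun t => (s 0 - 1) ^ 2 + (s (n + 1) - GG t n) ^ 2)
        (g := fun t => ((a + b) / 2 - (1 + t)) ^ 2)
        (by have := GG_continuous n; fun_prop) (by fun_prop) (by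
          intro t ht
          have h1 : |1 + t| = 1 + t := abs_of_pos (by linarith)
          have h2 := two (1 + t) (by rw [h1]; linarith)
          rw [FF_zero, FF_succ, h1, sign_pos (by linarith)] at h2
          simpa using h2)
      simpa [GG_zero] using this
    have hm : (s 0 + 1) ^ 2 + (s (n + 1) - al n) ^ 2 ≤ ((a + b) / 2 + 1) ^ 2 := by
      have := lim_le (f := fun t => (s 0 + 1) ^ 2 + (s (n + 1) - GG t n) ^ 2)
        (g := fun t => ((a + b) / 2 + (1 + t)) ^ 2)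
        (by have := GG_continuous n; fun_prop) (by fun_prop) (by
          intro t ht
          have h1 : |-(1 + t)| = 1 + t := by rw [abs_neg]; exact abs_of_pos (by linarith)
          have h2 := two (-(1 + t)) (by rw [h1]; linarith)
          rw [FF_zero, FF_succ, h1, sign_neg (by linarith), sub_neg_eq_add] at h2
          simpa using h2)
      simpa [GG_zero] using this
    have hx1 := (abs_le.1 hx).1
    have hx2 := (abs_le.1 hx).2
    have h1 : (a + b) / 2 < s 0 := by
      by_contra hcon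
      push Not at hcon
      nlinarith
    have h2 : s 0 < (a + b) / 2 := by
      by_contra hcon
      push Not at hcon
      nlinarith
    linarith

/-- The first example. -/
noncomputable def B2 : X1 → Set D1 := Op M2

lemma B2_mono : ∀ (x y : X1) (f g : D1), f ∈ B2 x → g ∈ B2 y → 0 ≤ (f - g) (x - y) :=
  op_mono M2_mono

lemma B2_max : ∀ (x : X1) (f : D1),
    (∀ (y : X1) (g : D1), g ∈ B2 y → 0 ≤ (f - g) (x - y)) → f ∈ B2 x :=
  op_max M2_summable M2_nonempty M2_max

lemma B2_dom {x : X1} (h : (B2 x).Nonempty) : 1 < |x.2| := by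
  obtain ⟨f, hf⟩ := h
  exact hf.2.1

lemma B2_exists {z : ℝ} (hz : 1 < |z|) : ∃ (x : X1) (f : D1), f ∈ B2 x ∧ x.2 = z := by
  obtain ⟨x, f, h1, h2⟩ := op_nonempty (mem_M2 hz) (summable_FF hz)
  refine ⟨x, f, h1, ?_⟩
  have : (red x f).1 = z := by rw [h2]
  exact this

lemma B2_data {x : X1} {f : D1} (h : f ∈ B2 x) :
    InW x f ∧ 1 < |x.2| ∧ th f = x.2 ∧ sg f = FF x.2 := ⟨h.1, h.2.1, h.2.2.1, h.2.2.2⟩

end Pool.Agent.H784R3
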