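import Pool.Agent.H784R3.Seq
import Pool.Agent.H784R3.Quad

set_option autoImplicit false

open scoped ZeroAtInfty BigOperators Topology
open Filter

namespace Pool.Agent.H784R3

/-- The space `c₀(ℕ)`. -/
abbrev Y0 : Type := C₀(ℕ, ℝ)

/-- build an element of `c₀` -/
def mkY (f : ℕ → ℝ) (hf : Tendsto f cofinite (𝓝 0)) : Y0 where
  toFun := f
  continuous_toFun := continuous_of_discreteTopology
  zero_at_infty' := by
    rw [Filter.cocompact_eq_cofinite]
    exact hf

@[simp] lemma mkY_apply (f : ℕ → ℝ) (hf : Tendsto f cofinite (𝓝 0)) (i : ℕ) :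
    mkY f hf i = f i := rfl

lemma tendsto_cofiniteY (x : Y0) : Tendsto (fun i => x i) cofinite (𝓝 0) := by
  have := x.zero_at_infty'
  rw [Filter.cocompact_eq_cofinite] at this
  exact this

lemma abs_apply_leY (x : Y0) (i : ℕ) : |x i| ≤ ‖x‖ := by
  have := (x.toBCF).norm_coe_le_norm i
  rw [ZeroAtInftyContinuousMap.norm_toBCF_eq_norm] at this
  exact this

lemma norm_le_ofY (x : Y0) {C : ℝ} (hC : 0 ≤ C) (h : ∀ i, |x i| ≤ C) : ‖x‖ ≤ C := by
  rw [← ZeroAtInftyContinuousMap.norm_toBCF_eq_norm]
  rw [BoundedContinuousFunction.norm_le hC]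
  exact h

/-- evaluation functional -/
noncomputable def evY (i : ℕ) : Y0 →L[ℝ] ℝ :=
  LinearMap.mkContinuous
    { toFun := fun x => x i
      map_add' := fun x y => rfl
      map_smul' := fun c x => rfl } 1 (fun x => by
        simpa using abs_apply_leY x i)

@[simp] lemma evY_apply (i : ℕ) (x : Y0) : evY i x = x i := rfl

lemma tendsto_of_finite_support {f : ℕ → ℝ} (s : Finset ℕ) (h : ∀ n, n ∉ s → f n = 0) :
    Tendsto f cofinite (𝓝 0) := by
  apply tendsto_nhds_of_eventually_eq
  filter_upwards [s.finite_toSet.compl_mem_cofinite] with j hj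
  exact h j hj

/-- basis vectors -/
noncomputable def eY (i : ℕ) : Y0 := mkY (fun j => if j = i then (1 : ℝ) else 0)
  (tendsto_of_finite_support {i} (fun n hn => by
    rw [Finset.mem_singleton] at hn
    simp [hn]))

@[simp] lemma eY_apply (i j : ℕ) : eY i j = if j = i then (1 : ℝ) else 0 := rfl

lemma sum_eY_apply (s : Finset ℕ) (c : ℕ → ℝ) (j : ℕ) :
    (∑ i ∈ s, c i • eY i) j = if j ∈ s then c j else 0 := by
  have h : (∑ i ∈ s, c i • eY i) j = evY j (∑ i ∈ s, c i • eY i) := rfl
  rw [h, map_sum]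
  simp only [map_smul, evY_apply, eY_apply, smul_eq_mul, mul_ite, mul_one, mul_zero]
  rw [Finset.sum_ite_eq]

lemma hasSum_eY (x : Y0) : HasSum (fun i => x i • eY i) x := by
  rw [HasSum, SummationFilter.unconditional_filter, Metric.tendsto_atTop]
  intro ε hε
  have h1 := tendsto_cofiniteY x
  rw [Metric.tendsto_nhds] at h1
  have h2 := h1 (ε / 2) (by positivity)
  have hfin : {i : ℕ | ¬ dist (x i) 0 < ε / 2}.Finite := h2
  refine ⟨hfin.toFinset, fun s hs => ?_⟩
  rw [dist_eq_norm]
  refine lt_of_le_of_lt (norm_le_ofY _ (C := ε / 2) (by positivity) ?_) (by linarith)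
  intro j
  have : (∑ i ∈ s, x i • eY i - x) j = (∑ i ∈ s, x i • eY i) j - x j := rfl
  rw [this, sum_eY_apply s (fun i => x i)]
  by_cases hj : j ∈ s
  · simp [hj]; positivity
  · simp only [hj, if_false, zero_sub, abs_neg]
    have hj2 : j ∉ hfin.toFinset := fun h => hj (hs h)
    simp only [Set.Finite.mem_toFinset, Set.mem_ofPred_eq, not_not, Real.dist_eq, sub_zero] at hj2
    exact hj2.le

lemma hasSum_applyY (f : Y0 →L[ℝ] ℝ) (x : Y0) : HasSum (fun i => x i * f (eY i)) (f x) := by
  have h1 := (hasSum_eY x).mapL f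
  convert h1 using 1
  funext i
  rw [map_smul]
  rfl

lemma functional_zero {f : Y0 →L[ℝ] ℝ} (h : ∀ i, f (eY i) = 0) : f = 0 := by
  refine ContinuousLinearMap.ext fun x => ?_
  have h1 := hasSum_applyY f x
  simp only [h, mul_zero] at h1
  exact h1.unique hasSum_zero

/-- the functional attached to an `ℓ¹` sequence -/
noncomputable def pairL (b : ℕ → ℝ) (hb : Summable (fun n => |b n|)) : Y0 →L[ℝ] ℝ :=
  LinearMap.mkContinuous
    { toFun := fun y => ∑' n, b n * y n
      map_add' := by
        intro x y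
        have hs : ∀ x : Y0, Summable (fun n => b n * x n) := by
          intro x
          refine Summable.of_norm_bounded (g := fun n => |b n| * ‖x‖) (hb.mul_right _) ?_
          intro n
          rw [norm_mul]
          exact mul_le_mul_of_nonneg_left (abs_apply_leY x _) (abs_nonneg _)
        rw [← (hs x).tsum_add (hs y)]
        apply tsum_congr
        intro n
        have : (x + y) n = x n + y n := rfl
        rw [this]; ring
      map_smul' := by
        intro c x
        rw [RingHom.id_apply, smul_eq_mul, ← tsum_mul_left]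
        apply tsum_congr
        intro n
        have : (c • x) n = c * x n := rfl
        rw [this]; ring } (∑' n, |b n|) (by
    intro x
    change ‖∑' n, b n * x n‖ ≤ _
    rw [← tsum_mul_right]
    have h1 : Summable (fun n => ‖b n * x n‖) := by
      refine Summable.of_norm_bounded (g := fun n => |b n| * ‖x‖) (hb.mul_right _) ?_
      intro n
      rw [norm_norm, norm_mul]
      exact mul_le_mul_of_nonneg_left (abs_apply_leY x _) (abs_nonneg _)
    refine (norm_tsum_le_tsum_norm h1).trans ?_
    refine h1.tsum_le_tsum ?_ (hb.mul_right _)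
    intro n
    rw [norm_mul]
    exact mul_le_mul_of_nonneg_left (abs_apply_leY x _) (abs_nonneg _))

lemma pairL_apply (b : ℕ → ℝ) (hb : Summable (fun n => |b n|)) (y : Y0) :
    pairL b hb y = ∑' n, b n * y n := rfl

/-- The space `X2`. -/
abbrev X2 : Type := X1 × Y0

/-- Its dual. -/
abbrev D2 : Type := X2 →L[ℝ] ℝ

/-- first part of a functional -/
noncomputable def F1' (F : D2) : D1 := F.comp (ContinuousLinearMap.inl ℝ X1 Y0)

/-- second part of a functional -/
noncomputable def F2' (F : D2) : Y0 →L[ℝ] ℝ := F.comp (ContinuousLinearMap.inr ℝ X1 Y0)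

/-- joining two functionals -/
noncomputable def co (f : D1) (g : Y0 →L[ℝ] ℝ) : D2 :=
  f.comp (ContinuousLinearMap.fst ℝ X1 Y0) + g.comp (ContinuousLinearMap.snd ℝ X1 Y0)

lemma co_apply (f : D1) (g : Y0 →L[ℝ] ℝ) (p : X2) : co f g p = f p.1 + g p.2 := rfl

lemma F1_apply (F : D2) (x : X1) : F1' F x = F (x, 0) := rfl
lemma F2_apply (F : D2) (y : Y0) : F2' F y = F (0, y) := rfl

lemma F_split (F : D2) (p : X2) : F p = F1' F p.1 + F2' F p.2 := by
  rw [F1_apply, F2_apply, ← map_add]
  congr 1
  refine Prod.ext ?_ ?_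
  · exact (add_zero p.1).symm
  · exact (zero_add p.2).symm

lemma F1_co (f : D1) (g : Y0 →L[ℝ] ℝ) : F1' (co f g) = f := by
  refine ContinuousLinearMap.ext fun x => ?_
  rw [F1_apply, co_apply]
  simp

lemma F2_co (f : D1) (g : Y0 →L[ℝ] ℝ) : F2' (co f g) = g := by
  refine ContinuousLinearMap.ext fun x => ?_
  rw [F2_apply, co_apply]
  simp

lemma F1_sub (F G : D2) : F1' (F - G) = F1' F - F1' G := rfl
lemma F2_sub (F G : D2) : F2' (F - G) = F2' F - F2' G := rfl

lemma sub_split (F G : D2) (p r : X2) :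
    (F - G) (p - r) = (F1' F - F1' G) (p.1 - r.1) + (F2' F - F2' G) (p.2 - r.2) := by
  rw [F_split (F - G), F1_sub, F2_sub]
  rfl

end Pool.Agent.H784R3
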